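import Pool.Agent.Q51.SE.Nv

/-! # Project SE, job CLQ: class group -/

set_option autoImplicit false
set_option linter.unusedSectionVars false

open Polynomial NumberField IsDedekindDomain
open Pool.Agent.Q51.EL (Abv)
open Pool.Agent.Q239.EL

noncomputable section

namespace Pool.Agent.Q51.SE

variable {L : Type} [Field L] [NumberField L]

open Classical in
lemma mu_prodq (v : HeightOneSpectrum (𝓞 L)) (T : Finset (HeightOneSpectrum (𝓞 L)))
    (s : HeightOneSpectrum (𝓞 L) → ℕ) :
    mu v (∏ w ∈ T, w.asIdeal ^ s w) = if v ∈ T then s v else 0 := by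
  induction T using Finset.induction_on with
  | empty => rw [Finset.prod_empty, mu_one, if_neg (Finset.notMem_empty v)]
  | insert a S ha ih =>
    have h0 : ∏ w ∈ S, w.asIdeal ^ s w ≠ 0 :=
      Finset.prod_ne_zero_iff.mpr fun w _ => pow_ne_zero _ w.ne_bot
    rw [Finset.prod_insert ha, mu_mul v (pow_ne_zero _ a.ne_bot) h0, ih, mu_pow v a.ne_bot]
    by_cases h : v = a
    · subst h
      rw [mu_self, if_neg ha, if_pos (Finset.mem_insert_self _ _), mul_one, add_zero]
    · rw [mu_ne h, mul_zero, zero_add]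
      by_cases h2 : v ∈ S
      · rw [if_pos h2, if_pos (Finset.mem_insert_of_mem h2)]
      · rw [if_neg h2, if_neg]
        intro h3
        rcases Finset.mem_insert.mp h3 with h4 | h4
        · exact h h4
        · exact h2 h4

/-- a `q`-th power times powers of places with exponents less than `q` -/
lemma q_decomp {q : ℕ} (hq : 2 ≤ q) (A : Ideal (𝓞 L)) (hA : A ≠ 0) :
    ∃ (I : Ideal (𝓞 L)) (T : Finset (HeightOneSpectrum (𝓞 L))) (s : HeightOneSpectrum (𝓞 L) → ℕ),
      I ≠ 0 ∧ (∀ v, s v < q) ∧ (∀ v, v ∉ T → s v = 0) ∧ A = I ^ q * ∏ v ∈ T, v.asIdeal ^ s v := by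
  classical
  induction A using UniqueFactorizationMonoid.induction_on_prime with
  | h₁ => exact absurd rfl hA
  | h₂ x hx =>
    refine ⟨1, ∅, fun _ => 0, one_ne_zero, fun v => (by omega : 0 < q), fun _ _ => rfl, ?_⟩
    rw [Finset.prod_empty, one_pow, mul_one]
    exact (Ideal.isUnit_iff.mp hx).trans Ideal.one_eq_top.symm
  | h₃ a p ha hp ih =>
    obtain ⟨I, T, s, hI, hs, hsT, h⟩ := ih ha
    obtain ⟨v, rfl⟩ := place_of_prime hp
    have hins : ∀ s' : HeightOneSpectrum (𝓞 L) → ℕ,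
        ∏ w ∈ insert v T, w.asIdeal ^ s' w = v.asIdeal ^ s' v *
          ∏ w ∈ (insert v T).erase v, w.asIdeal ^ s' w := fun s' =>
      (Finset.mul_prod_erase (insert v T) (fun w => w.asIdeal ^ s' w)
        (Finset.mem_insert_self v T)).symm
    have hT : ∏ w ∈ T, w.asIdeal ^ s w = ∏ w ∈ insert v T, w.asIdeal ^ s w := by
      apply Finset.prod_subset (Finset.subset_insert v T)
      intro w _ hw
      rw [hsT w hw, pow_zero]
    have her : ∀ k : ℕ, ∏ w ∈ (insert v T).erase v, w.asIdeal ^ (Function.update s v k) w =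
        ∏ w ∈ (insert v T).erase v, w.asIdeal ^ s w := by
      intro k
      refine Finset.prod_congr rfl fun w hw => ?_
      rw [Function.update_of_ne (Finset.ne_of_mem_erase hw)]
    have hout : ∀ k : ℕ, ∀ w, w ∉ insert v T → (Function.update s v k) w = 0 := by
      intro k w hw
      rw [Finset.mem_insert, not_or] at hw
      rw [Function.update_of_ne hw.1]
      exact hsT w hw.2
    have hlt : ∀ k : ℕ, k < q → ∀ w, (Function.update s v k) w < q := by
      intro k hk w
      by_cases hw : w = v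
      · subst hw
        rw [Function.update_self]
        exact hk
      · rw [Function.update_of_ne hw]
        exact hs w
    by_cases hv : s v + 1 = q
    · refine ⟨v.asIdeal * I, insert v T, Function.update s v 0, mul_ne_zero v.ne_bot hI,
        hlt 0 (by omega), hout 0, ?_⟩
      rw [hins, her, Function.update_self, pow_zero, one_mul, h, hT, hins, mul_pow]
      have : v.asIdeal ^ q = v.asIdeal * v.asIdeal ^ s v := by
        conv_lhs => rw [← hv]
        rw [pow_succ']
      rw [this]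
      ring
    · have hsv := hs v
      refine ⟨I, insert v T, Function.update s v (s v + 1), hI, hlt _ (by omega), hout _, ?_⟩
      rw [hins, her, Function.update_self, h, hT, hins, pow_succ]
      ring

theorem clq : S_CLQ := by
  classical
  intro L _ _ q hq B0 hB00
  have hsur : ∀ g : ClassGroup (𝓞 L), ∃ I : nonZeroDivisors (Ideal (𝓞 L)), ClassGroup.mk0 I = g :=
    ClassGroup.mk0_surjective
  choose c hc using hsur
  have hc0 : ∀ g, (c g : Ideal (𝓞 L)) ≠ 0 := fun g => nonZeroDivisors.ne_zero (c g).2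
  have hcn : ∀ g, Ideal.absNorm (c g : Ideal (𝓞 L)) ≠ 0 := fun g => by
    rw [Ne, Ideal.absNorm_eq_zero_iff]
    exact hc0 g
  set B1 : ℕ := ∏ g : ClassGroup (𝓞 L), Ideal.absNorm (c g : Ideal (𝓞 L)) with hB1
  have hB10 : B1 ≠ 0 := Finset.prod_ne_zero_iff.mpr fun g _ => hcn g
  set B : ℕ := B0 * B1 with hB
  have hB0 : B ≠ 0 := mul_ne_zero hB00 hB10
  have hcv : ∀ v : HeightOneSpectrum (𝓞 L), (B : 𝓞 L) ∉ v.asIdeal → ∀ g, mu v (c g) = 0 := by
    intro v hv g
    apply mu_eq_zero
    intro hd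
    apply hv
    have h1 : (c g : Ideal (𝓞 L)) ≤ v.asIdeal := Ideal.dvd_iff_le.mp hd
    have h2 := h1 (Ideal.absNorm_mem (c g : Ideal (𝓞 L)))
    have h3 : Ideal.absNorm (c g : Ideal (𝓞 L)) ∣ B1 := Finset.dvd_prod_of_mem
      (fun g : ClassGroup (𝓞 L) => Ideal.absNorm (c g : Ideal (𝓞 L))) (Finset.mem_univ g)
    obtain ⟨m, hm⟩ : Ideal.absNorm (c g : Ideal (𝓞 L)) ∣ B := h3.trans (Dvd.intro_left _ rfl)
    rw [hm, Nat.cast_mul]
    exact Ideal.mul_mem_right _ _ h2
  have hW : {v : HeightOneSpectrum (𝓞 L) | (B : 𝓞 L) ∈ v.asIdeal}.Finite := by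
    have h1 := Ideal.finite_factors (R := 𝓞 L) (I := Ideal.span {(B : 𝓞 L)})
      (span_ne (by exact_mod_cast hB0))
    refine h1.subset ?_
    intro v hv
    rw [Set.mem_ofPred_eq, Ideal.dvd_iff_le, Ideal.span_singleton_le_iff_mem]
    exact hv
  set W := hW.toFinset with hWd
  refine ⟨B, (∏ v ∈ W, ((Ideal.absNorm v.asIdeal : ℕ) : ℝ) ^ q) *
    ∏ g : ClassGroup (𝓞 L), ((Ideal.absNorm (c g : Ideal (𝓞 L)) : ℕ) : ℝ) ^ q, hB0, ?_,
    Dvd.intro _ rfl, ?_⟩
  · refine mul_pos (Finset.prod_pos fun v _ => pow_pos (lt_of_lt_of_le one_pos (one_le_norm v)) _)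
      (Finset.prod_pos fun g _ => ?_)
    have := hcn g
    positivity
  intro δ S hδ hpar
  obtain ⟨x, y, hy, hxy⟩ := exists_ratio δ
  have hyL := coe_ne hy
  have hx : x ≠ 0 := by
    rintro rfl
    exact mul_ne_zero hδ hyL (by simpa using hxy)
  set d : 𝓞 L := x * y ^ (q - 1) with hd
  have hd0 : d ≠ 0 := mul_ne_zero hx (pow_ne_zero _ hy)
  have hdL : (d : L) = δ * (y : L) ^ q := by
    have e1 : ((x * y ^ (q - 1) : 𝓞 L) : L) = (x : L) * (y : L) ^ (q - 1) := rfl
    rw [hd, e1, ← hxy]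
    obtain ⟨k, hk⟩ := Nat.exists_eq_add_of_le' (show 1 ≤ q by omega)
    rw [hk, Nat.add_sub_cancel]
    ring
  obtain ⟨I, T, s, hI, hs, hsT, hIT⟩ := q_decomp hq (Ideal.span {d}) (span_ne hd0)
  set g := ClassGroup.mk0 (⟨I, mem_nonZeroDivisors_of_ne_zero hI⟩ : nonZeroDivisors (Ideal (𝓞 L)))
    with hg
  obtain ⟨x', y', hx', hy', hI'⟩ := ClassGroup.mk0_eq_mk0_iff.mp (hc g).symm
  have hI'' : Ideal.span {x'} * I = Ideal.span {y'} * (c g : Ideal (𝓞 L)) := hI'
  set J : Ideal (𝓞 L) := ∏ v ∈ T, v.asIdeal ^ s v with hJ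
  have hJ0 : J ≠ 0 := Finset.prod_ne_zero_iff.mpr fun w _ => pow_ne_zero _ w.ne_bot
  have key : Ideal.span {d * x' ^ q} = Ideal.span {y' ^ q} * ((c g : Ideal (𝓞 L)) ^ q * J) := by
    rw [← Ideal.span_singleton_mul_span_singleton, ← Ideal.span_singleton_pow,
      ← Ideal.span_singleton_pow, hIT]
    calc I ^ q * J * Ideal.span {x'} ^ q = (Ideal.span {x'} * I) ^ q * J := by
          rw [mul_pow]; ring
      _ = (Ideal.span {y'} * (c g : Ideal (𝓞 L))) ^ q * J := by rw [hI'']
      _ = _ := by rw [mul_pow]; ring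
  obtain ⟨α, hα⟩ : y' ^ q ∣ d * x' ^ q := by
    rw [← Ideal.span_singleton_le_span_singleton, key]
    exact Ideal.mul_le_left
  have hα0 : α ≠ 0 := by
    rintro rfl
    rw [mul_zero] at hα
    exact mul_ne_zero hd0 (pow_ne_zero q hx') hα
  have hy2 : Ideal.span {y' ^ q} ≠ 0 := span_ne (pow_ne_zero q hy')
  have hαs : Ideal.span {α} = (c g : Ideal (𝓞 L)) ^ q * J := by
    rw [hα, ← Ideal.span_singleton_mul_span_singleton] at key
    exact mul_left_cancel₀ hy2 key
  have hsv : ∀ v : HeightOneSpectrum (𝓞 L), (if v ∈ T then s v else 0) = s v := by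
    intro v
    by_cases h : v ∈ T
    · rw [if_pos h]
    · rw [if_neg h, hsT v h]
  have hmuα : ∀ v : HeightOneSpectrum (𝓞 L), (B : 𝓞 L) ∉ v.asIdeal →
      mu v (Ideal.span {α}) = s v := by
    intro v hv
    rw [hαs, mu_mul v (pow_ne_zero q (hc0 g)) hJ0, mu_pow v (hc0 g), hcv v hv, mul_zero, zero_add,
      hJ, mu_prodq, hsv]
  have hmud : ∀ v : HeightOneSpectrum (𝓞 L),
      mu v (Ideal.span {d}) = q * mu v I + s v := by
    intro v
    rw [hIT, mu_mul v (pow_ne_zero q hI) hJ0, mu_pow v hI, hJ, mu_prodq, hsv]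
  have hred : ∀ (v : HeightOneSpectrum (𝓞 L)) (e : ℤ), 0 ≤ e → e < q → Parq q v δ e →
      (s v : ℤ) = e := by
    intro v e he0 heq h
    have h1 := parq_mul_pow hyL h
    rw [← hdL] at h1
    have h2 := parq_int hd0 h1
    rw [hmud v] at h2
    push_cast at h2
    have h3 : (q : ℤ) ∣ (s v : ℤ) - e := by
      have h4 : ((q : ℤ) * mu v I + s v - e) - q * mu v I = (s v : ℤ) - e := by ring
      rw [← h4]
      exact dvd_sub h2 (dvd_mul_right _ _)
    have h5 : (s v : ℤ) < q := by exact_mod_cast hs v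
    have h6 := Int.eq_zero_of_abs_lt_dvd h3 (by
      rw [abs_lt]
      constructor <;> omega)
    omega
  have hT1 : ∀ v : HeightOneSpectrum (𝓞 L), (B : 𝓞 L) ∉ v.asIdeal → v ∈ S → s v = 1 := by
    intro v hv hvS
    exact_mod_cast hred v 1 (by norm_num) (by exact_mod_cast (by omega : 1 < q)) ((hpar v hv).1 hvS)
  have hT2 : ∀ v : HeightOneSpectrum (𝓞 L), (B : 𝓞 L) ∉ v.asIdeal → v ∉ S → s v = 0 := by
    intro v hv hvS
    exact_mod_cast hred v 0 le_rfl (by exact_mod_cast (by omega : 0 < q)) ((hpar v hv).2 hvS)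
  have hx'L := coe_ne hx'
  have hy'L := coe_ne hy'
  refine ⟨(y : L) * ((x' : L) / (y' : L)), α, mul_ne_zero hyL (div_ne_zero hx'L hy'L), ?_, ?_, ?_⟩
  · have h1 : (d : L) * (x' : L) ^ q = (y' : L) ^ q * (α : L) := by
      have := congrArg (fun z : 𝓞 L => (z : L)) hα
      simpa using this
    rw [hdL] at h1
    rw [mul_pow, div_pow, ← mul_assoc, ← mul_div_assoc, h1, mul_comm, mul_div_assoc,
      div_self (pow_ne_zero q hy'L), mul_one]
  · intro v hv
    rw [val_int v hα0, hmuα v hv]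
    constructor
    · intro hvS
      rw [hT1 v hv hvS]
      norm_num
    · intro hvS
      rw [hT2 v hv hvS]
      simp
  · rw [hαs, map_mul, map_pow, hJ, map_prod]
    simp only [map_pow]
    have h1 : ∏ v ∈ T, Ideal.absNorm v.asIdeal ^ s v ≤
        (∏ v ∈ W, Ideal.absNorm v.asIdeal ^ q) * ∏ v ∈ S, Ideal.absNorm v.asIdeal := by
      calc ∏ v ∈ T, Ideal.absNorm v.asIdeal ^ s v
          = ∏ v ∈ T ∪ (W ∪ S), Ideal.absNorm v.asIdeal ^ s v := by
            apply Finset.prod_subset Finset.subset_union_left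
            intro w _ hw
            rw [hsT w hw, pow_zero]
        _ ≤ ∏ v ∈ T ∪ (W ∪ S), ((if v ∈ W then Ideal.absNorm v.asIdeal ^ q else 1) *
              (if v ∈ S then Ideal.absNorm v.asIdeal else 1)) := by
            refine Finset.prod_le_prod' fun v _ => ?_
            have hN := one_le_norm' v
            by_cases hvW : v ∈ W
            · rw [if_pos hvW]
              refine le_trans (Nat.pow_le_pow_right hN (hs v).le) (Nat.le_mul_of_pos_right _ ?_)
              split_ifs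
              · exact hN
              · exact one_pos
            · have hvB : (B : 𝓞 L) ∉ v.asIdeal := fun h => hvW (hW.mem_toFinset.mpr h)
              rw [if_neg hvW, one_mul]
              by_cases hvS : v ∈ S
              · rw [if_pos hvS, hT1 v hvB hvS, pow_one]
              · rw [if_neg hvS, hT2 v hvB hvS, pow_zero]
        _ = _ := by
            rw [Finset.prod_mul_distrib, Finset.prod_ite_mem, Finset.prod_ite_mem]
            congr 1
            · congr 1
              ext v; simp only [Finset.mem_inter, Finset.mem_union]; tauto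
            · congr 1
              ext v; simp only [Finset.mem_inter, Finset.mem_union]; tauto
    have h2 : Ideal.absNorm (c g : Ideal (𝓞 L)) ^ q ≤
        ∏ g : ClassGroup (𝓞 L), Ideal.absNorm (c g : Ideal (𝓞 L)) ^ q := by
      refine Finset.single_le_prod' (f := fun g : ClassGroup (𝓞 L) =>
        Ideal.absNorm (c g : Ideal (𝓞 L)) ^ q) (fun g _ => ?_) (Finset.mem_univ g)
      exact Nat.one_le_iff_ne_zero.mpr (pow_ne_zero q (hcn g))
    have h3 : Ideal.absNorm (c g : Ideal (𝓞 L)) ^ q * ∏ v ∈ T, Ideal.absNorm v.asIdeal ^ s v ≤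
        ((∏ v ∈ W, Ideal.absNorm v.asIdeal ^ q) *
          ∏ g : ClassGroup (𝓞 L), Ideal.absNorm (c g : Ideal (𝓞 L)) ^ q) *
          ∏ v ∈ S, Ideal.absNorm v.asIdeal := by
      calc Ideal.absNorm (c g : Ideal (𝓞 L)) ^ q * ∏ v ∈ T, Ideal.absNorm v.asIdeal ^ s v
          ≤ (∏ g : ClassGroup (𝓞 L), Ideal.absNorm (c g : Ideal (𝓞 L)) ^ q) *
            ((∏ v ∈ W, Ideal.absNorm v.asIdeal ^ q) * ∏ v ∈ S, Ideal.absNorm v.asIdeal) :=
            Nat.mul_le_mul h2 h1
        _ = _ := by ring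
    exact_mod_cast h3

end Pool.Agent.Q51.SE
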