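import Pool.Agent.Q51.SE.Stm

/-! # Project SE, job DUAL: duality -/

set_option autoImplicit false

namespace Pool.Agent.Q51.SE

open Polynomial Finset

namespace Dual

/-- homomorphisms to `ℤ/q` separate the elements of a group killed by `q` -/
lemma sep {G : Type} [CommGroup G] {q : ℕ} (hq : q.Prime) (hG : ∀ x : G, x ^ q = 1) {v : G}
    (hv : v ≠ 1) : ∃ φ : G →* Multiplicative (ZMod q), φ v ≠ 1 := by
  have : Fact q.Prime := ⟨hq⟩
  let _ : Module (ZMod q) (Additive G) := AddCommGroup.zmodModule (G := Additive G) (n := q) hG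
  have hfree : Module.Free (ZMod q) (Additive G) := Module.Free.of_divisionRing (ZMod q) (Additive G)
  by_contra h
  push Not at h
  apply hv
  have h1 : (Additive.ofMul v : Additive G) = 0 := by
    apply (Module.forall_dual_apply_eq_zero_iff (ZMod q) (Additive.ofMul v : Additive G)).mp
    intro φ
    exact h (AddMonoidHom.toMultiplicativeRight φ.toAddMonoidHom)
  exact h1

variable (f : ℤ[X]) (q B : ℕ)

/-- the local groups -/
abbrev A (p : Nat.Primes) : Type := (Alg f ℚ_[(p : ℕ)])ˣ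

lemma cl_mul (F : Type) [Field F] (g h : F[X]) : cl f F (g * h) = cl f F g * cl f F h :=
  map_mul _ _ _

lemma cl_one (F : Type) [Field F] : cl f F 1 = 1 := map_one _

/-- the local units -/
def UU (p : Nat.Primes) : Subgroup (A f p) where
  carrier := {u | IsUnitAt f (p : ℕ) u}
  mul_mem' := by
    rintro u v ⟨h1, h1', h2, h3⟩ ⟨k1, k1', k2, k3⟩
    refine ⟨h1 * k1, k1' * h1', ?_, ?_⟩
    · rw [Polynomial.map_mul, cl_mul, ← h2, ← k2, Units.val_mul]
    · rw [Polynomial.map_mul, cl_mul, ← h3, ← k3, mul_inv_rev, Units.val_mul]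
  one_mem' := ⟨1, 1, by rw [Polynomial.map_one, cl_one, Units.val_one],
    by rw [Polynomial.map_one, cl_one, inv_one, Units.val_one]⟩
  inv_mem' := by
    rintro u ⟨h1, h1', h2, h3⟩
    exact ⟨h1', h1, h3, by rw [inv_inv]; exact h2⟩

open Classical in
/-- the local conditions -/
noncomputable def HH (p : Nat.Primes) : Subgroup (A f p) :=
  (Units.map (algebraMap ℚ_[(p : ℕ)] (Alg f ℚ_[(p : ℕ)])).toMonoidHom).range ⊔
    (powMonoidHom q : A f p →* A f p).range ⊔ (if (p : ℕ) ∣ B then ⊥ else UU f p)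

lemma mem_HH (p : Nat.Primes) (a : A f p) : a ∈ HH f q B p ↔
    ∃ (c : (ℚ_[(p : ℕ)])ˣ) (g u : A f p), (¬ (p : ℕ) ∣ B → IsUnitAt f (p : ℕ) u) ∧
      ((p : ℕ) ∣ B → u = 1) ∧
      a = Units.map (algebraMap ℚ_[(p : ℕ)] (Alg f ℚ_[(p : ℕ)])).toMonoidHom c * g ^ q * u := by
  unfold HH
  rw [Subgroup.mem_sup]
  constructor
  · rintro ⟨y, hy, u, hu, rfl⟩
    rw [Subgroup.mem_sup] at hy
    obtain ⟨_, ⟨c, rfl⟩, _, ⟨g, rfl⟩, rfl⟩ := hy
    refine ⟨c, g, u, ?_, ?_, rfl⟩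
    · intro h
      rw [if_neg h] at hu
      exact hu
    · intro h
      rw [if_pos h] at hu
      exact Subgroup.mem_bot.mp hu
  · rintro ⟨c, g, u, h1, h2, rfl⟩
    refine ⟨_, Subgroup.mem_sup.mpr ⟨_, ⟨c, rfl⟩, _, ⟨g, rfl⟩, rfl⟩, u, ?_, rfl⟩
    by_cases h : (p : ℕ) ∣ B
    · rw [if_pos h, h2 h]
      exact Subgroup.one_mem _
    · rw [if_neg h]
      exact h1 h

/-- the restricted product -/
def JJ : Subgroup (∀ p, A f p) where
  carrier := {u | {p | u p ∉ HH f q B p}.Finite}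
  mul_mem' := by
    intro u v hu hv
    refine (hu.union hv).subset ?_
    intro p hp
    by_contra h
    rw [Set.mem_union, not_or, Set.mem_ofPred_eq, Set.mem_ofPred_eq, not_not, not_not] at h
    exact hp (Subgroup.mul_mem _ h.1 h.2)
  one_mem' := by
    have : {p | (1 : ∀ p, A f p) p ∉ HH f q B p} = ∅ := by
      ext p
      simp only [Set.mem_ofPred_eq, Set.mem_empty_iff_false, iff_false, not_not]
      exact Subgroup.one_mem _
    rw [Set.mem_ofPred_eq, this]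
    exact Set.finite_empty
  inv_mem' := by
    intro u hu
    refine Set.Finite.subset hu ?_
    intro p hp h
    exact hp (Subgroup.inv_mem _ h)

lemma cl_inv {d : ℚ[X]} (h : IsCoprime (f.map (Int.castRingHom ℚ)) d) :
    ∃ d' : ℚ[X], IsCoprime (f.map (Int.castRingHom ℚ)) d' ∧ ∀ p : Nat.Primes,
      cl f ℚ_[(p : ℕ)] (d'.map (Rat.castHom ℚ_[(p : ℕ)])) *
        cl f ℚ_[(p : ℕ)] (d.map (Rat.castHom ℚ_[(p : ℕ)])) = 1 := by
  obtain ⟨r, s, hrs⟩ := h
  refine ⟨s, ⟨r, d, by rw [← hrs]; ring⟩, fun p => ?_⟩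
  have h1 := congrArg (fun g : ℚ[X] => cl f ℚ_[(p : ℕ)] (g.map (Rat.castHom ℚ_[(p : ℕ)]))) hrs
  simp only [Polynomial.map_add, Polynomial.map_mul, Polynomial.map_map, Polynomial.map_one] at h1
  have h2 : (Rat.castHom ℚ_[(p : ℕ)]).comp (Int.castRingHom ℚ) = Int.castRingHom ℚ_[(p : ℕ)] :=
    RingHom.ext_int _ _
  rw [h2] at h1
  have h3 : cl f ℚ_[(p : ℕ)] (f.map (Int.castRingHom ℚ_[(p : ℕ)])) = 0 := AdjoinRoot.mk_self
  rw [cl_one] at h1
  rw [← h1, ← cl_mul]
  unfold cl at h3 ⊢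
  rw [map_add, map_mul _ (r.map _), h3, mul_zero, zero_add]

/-- the group generated by `L^*` and the local conditions -/
def NN : Subgroup (∀ p, A f p) where
  carrier := {u | ∃ d : ℚ[X], IsCoprime (f.map (Int.castRingHom ℚ)) d ∧ ∀ p : Nat.Primes,
    ∃ h ∈ HH f q B p, (u p : Alg f ℚ_[(p : ℕ)]) =
      cl f ℚ_[(p : ℕ)] (d.map (Rat.castHom ℚ_[(p : ℕ)])) * (h : Alg f ℚ_[(p : ℕ)])}
  mul_mem' := by
    rintro u v ⟨d, hd, h1⟩ ⟨d', hd', h1'⟩
    refine ⟨d * d', hd.mul_right hd', fun p => ?_⟩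
    obtain ⟨h, hh, h2⟩ := h1 p
    obtain ⟨h', hh', h2'⟩ := h1' p
    refine ⟨h * h', Subgroup.mul_mem _ hh hh', ?_⟩
    rw [Pi.mul_apply, Units.val_mul, h2, h2', Polynomial.map_mul, cl_mul, Units.val_mul]
    ring
  one_mem' := ⟨1, isCoprime_one_right, fun p => ⟨1, Subgroup.one_mem _, by
    rw [Pi.one_apply, Polynomial.map_one, cl_one, Units.val_one, one_mul]⟩⟩
  inv_mem' := by
    rintro u ⟨d, hd, h1⟩
    obtain ⟨d', hd', h2⟩ := cl_inv f hd
    refine ⟨d', hd', fun p => ?_⟩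
    obtain ⟨h, hh, h3⟩ := h1 p
    refine ⟨h⁻¹, Subgroup.inv_mem _ hh, ?_⟩
    rw [Pi.inv_apply]
    have h4 : (u p : Alg f ℚ_[(p : ℕ)]) * (cl f ℚ_[(p : ℕ)] (d'.map (Rat.castHom ℚ_[(p : ℕ)])) *
        ((h⁻¹ : A f p) : Alg f ℚ_[(p : ℕ)])) = 1 := by
      rw [h3]
      calc _ = (cl f ℚ_[(p : ℕ)] (d'.map (Rat.castHom ℚ_[(p : ℕ)])) *
          cl f ℚ_[(p : ℕ)] (d.map (Rat.castHom ℚ_[(p : ℕ)]))) *
            ((h : Alg f ℚ_[(p : ℕ)]) * ((h⁻¹ : A f p) : Alg f ℚ_[(p : ℕ)])) := by ring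
        _ = 1 := by rw [h2 p, Units.mul_inv, one_mul]
    exact Units.inv_eq_of_mul_eq_one_right h4

lemma pi_mem_NN {u : ∀ p, A f p} (h : ∀ p, u p ∈ HH f q B p) : u ∈ NN f q B :=
  ⟨1, isCoprime_one_right, fun p => ⟨u p, h p, by
    rw [Polynomial.map_one, cl_one, one_mul]⟩⟩

/-- the `p`-integrality of the coefficients -/
lemma lift_int (g : ℚ[X]) : ∃ b : ℕ, b ≠ 0 ∧ ∀ (p : ℕ) [Fact p.Prime], ¬ p ∣ b →
    ∃ h : ℤ_[p][X], h.map (algebraMap ℤ_[p] ℚ_[p]) = g.map (Rat.castHom ℚ_[p]) := by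
  refine ⟨∏ n ∈ g.support, (g.coeff n).den, Finset.prod_ne_zero_iff.mpr fun n _ => (g.coeff n).den_ne_zero,
    fun p _ hp => ?_⟩
  have h1 : g.map (Rat.castHom ℚ_[p]) ∈ lifts (algebraMap ℤ_[p] ℚ_[p]) := by
    rw [lifts_iff_coeff_lifts]
    intro n
    rw [coeff_map]
    by_cases hn : n ∈ g.support
    · have h2 : ¬ p ∣ (g.coeff n).den := fun h => hp (h.trans (Finset.dvd_prod_of_mem _ hn))
      exact ⟨⟨_, Padic.norm_rat_le_one h2⟩, rfl⟩
    · rw [notMem_support_iff.mp hn, map_zero]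
      exact ⟨0, map_zero _⟩
  exact h1

lemma primes_finite {b : ℕ} (hb : b ≠ 0) : {p : Nat.Primes | (p : ℕ) ∣ b}.Finite := by
  apply Set.Finite.of_finite_image (f := fun p : Nat.Primes => (p : ℕ)) _
    (fun p _ p' _ h => Subtype.ext h)
  apply (Set.finite_Iic b).subset
  rintro _ ⟨p, hp, rfl⟩
  exact Nat.le_of_dvd (Nat.pos_of_ne_zero hb) hp

/-- the elements of `L^*` belong to the restricted product -/
lemma glob_mem_JJ (hB : B ≠ 0) {d : ℚ[X]} (hd : IsCoprime (f.map (Int.castRingHom ℚ)) d)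
    {u : ∀ p, A f p} (hu : ∀ p : Nat.Primes, (u p : Alg f ℚ_[(p : ℕ)]) =
      cl f ℚ_[(p : ℕ)] (d.map (Rat.castHom ℚ_[(p : ℕ)]))) : u ∈ JJ f q B := by
  obtain ⟨d', hd', h2⟩ := cl_inv f hd
  obtain ⟨b, hb, h3⟩ := lift_int d
  obtain ⟨b', hb', h3'⟩ := lift_int d'
  refine (primes_finite (mul_ne_zero (mul_ne_zero hb hb') hB)).subset ?_
  intro p hp
  by_contra h
  apply hp
  obtain ⟨g, hg⟩ := h3 (p : ℕ) (fun h' => h (Dvd.dvd.mul_right (Dvd.dvd.mul_right h' _) _))
  obtain ⟨g', hg'⟩ := h3' (p : ℕ) (fun h' => h (Dvd.dvd.mul_right (Dvd.dvd.mul_left h' _) _))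
  rw [mem_HH]
  refine ⟨1, 1, u p, fun _ => ⟨g, g', ?_, ?_⟩, fun h' => absurd (Dvd.dvd.mul_left h' _) h, ?_⟩
  · rw [hg, hu]
  · rw [hg']
    apply Units.inv_eq_of_mul_eq_one_right
    rw [hu, mul_comm]
    exact h2 p
  · rw [map_one, one_pow, one_mul, one_mul]

end Dual

open Pool.Agent.Q51.SE.Dual in
theorem dual (hpow : S_POW) : S_DUAL := by
  classical
  intro f hf q hq a B1 B hB1 hB ha horth
  have : Fact q.Prime := ⟨hq⟩
  set J := JJ f q B with hJ
  set N := NN f q B with hN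
  have haJ : a ∈ J := by
    refine (primes_finite (mul_ne_zero hB1 hB)).subset ?_
    intro p hp
    by_contra h
    apply hp
    rw [mem_HH]
    obtain ⟨c, g, u, h1, h2⟩ := ha p (fun h' => h (Dvd.dvd.mul_right h' _))
    exact ⟨c, g, u, fun _ => h1, fun h' => absurd (Dvd.dvd.mul_left h' _) h, h2⟩
  suffices haN : a ∈ N by
    obtain ⟨d, hd, h1⟩ := haN
    refine ⟨d, hd, fun p => ?_⟩
    obtain ⟨h, hh, h2⟩ := h1 p
    obtain ⟨c, g, u, h3, h4, rfl⟩ := (mem_HH f q B p h).mp hh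
    exact ⟨c, g, u, h3, h4, h2⟩
  by_contra haN
  -- the quotient is a vector space
  have hVq : ∀ x : J ⧸ N.subgroupOf J, x ^ q = 1 := by
    intro x
    obtain ⟨u, hu⟩ := QuotientGroup.mk_surjective x
    have h1 : (u ^ q : J) ∈ N.subgroupOf J := by
      rw [Subgroup.mem_subgroupOf]
      apply pi_mem_NN
      intro p
      rw [mem_HH]
      exact ⟨1, (u : ∀ p, A f p) p, 1, fun _ => (UU f p).one_mem, fun _ => rfl, by
        rw [map_one, one_mul, mul_one]; rfl⟩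
    rw [← hu, ← QuotientGroup.mk_pow]
    exact (QuotientGroup.eq_one_iff _).mpr h1
  have hv0 : (QuotientGroup.mk (⟨a, haJ⟩ : J) : J ⧸ N.subgroupOf J) ≠ 1 := by
    intro h1
    apply haN
    rw [QuotientGroup.eq_one_iff] at h1
    exact h1
  obtain ⟨φ, hφ⟩ := sep hq hVq hv0
  let Φ : J →* Multiplicative (ZMod q) := φ.comp (QuotientGroup.mk' (N.subgroupOf J))
  have hΦN : ∀ u : J, (u : ∀ p, A f p) ∈ N → Φ u = 1 := by
    intro u hu
    have h1 : (QuotientGroup.mk' (N.subgroupOf J)) u = 1 := by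
      exact (QuotientGroup.eq_one_iff _).mpr hu
    simp only [Φ, MonoidHom.comp_apply, h1, map_one]
  have hΦa : Φ ⟨a, haJ⟩ ≠ 1 := by
    intro h
    apply hφ
    exact h
  -- the local components
  have hsJ : ∀ (p : Nat.Primes) (x : A f p), Pi.mulSingle p x ∈ J := by
    intro p x
    refine (Set.finite_singleton p).subset ?_
    intro p' hp'
    by_contra h
    apply hp'
    rw [Pi.mulSingle_eq_of_ne h]
    exact Subgroup.one_mem _
  have hsN : ∀ (p : Nat.Primes) (x : A f p), x ∈ HH f q B p → Pi.mulSingle p x ∈ N := by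
    intro p x hx
    apply pi_mem_NN
    intro p'
    by_cases h : p' = p
    · subst h
      rw [Pi.mulSingle_eq_same]
      exact hx
    · rw [Pi.mulSingle_eq_of_ne h]
      exact Subgroup.one_mem _
  let χ : ∀ p : Nat.Primes, A f p →* Multiplicative (ZMod q) := fun p =>
    Φ.comp ((MonoidHom.mulSingle (fun p => A f p) p).codRestrict J (hsJ p))
  have hχ : ∀ (p : Nat.Primes) (x : A f p), χ p x = Φ ⟨Pi.mulSingle p x, hsJ p x⟩ :=
    fun p x => rfl
  have hχH : ∀ (p : Nat.Primes) (x : A f p), x ∈ HH f q B p → χ p x = 1 := by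
    intro p x hx
    rw [hχ]
    exact hΦN _ (hsN p x hx)
  have hprod : ∀ (u : ∀ p, A f p) (hu : u ∈ J), ∏ᶠ p, χ p (u p) = Φ ⟨u, hu⟩ := by
    intro u hu
    have hfin : {p | u p ∉ HH f q B p}.Finite := hu
    set T := hfin.toFinset with hT
    have h1 : ∏ᶠ p, χ p (u p) = ∏ p ∈ T, χ p (u p) := by
      apply finprod_eq_prod_of_mulSupport_subset
      intro p hp
      rw [hT, Set.Finite.coe_toFinset]
      intro h
      exact hp (hχH p _ h)
    rw [h1]
    have h2 : ∏ p ∈ T, χ p (u p) = Φ (∏ p ∈ T, ⟨Pi.mulSingle p (u p), hsJ p (u p)⟩) := by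
      rw [map_prod]
      rfl
    rw [h2]
    set w : J := ∏ p ∈ T, ⟨Pi.mulSingle p (u p), hsJ p (u p)⟩ with hw
    have hwv : ∀ p', (w : ∀ p, A f p) p' = if p' ∈ T then u p' else 1 := by
      intro p'
      have h3 : (w : ∀ p, A f p) = ∏ p ∈ T, Pi.mulSingle p (u p) := by
        rw [hw]
        exact map_prod J.subtype _ _
      rw [h3, Finset.prod_apply]
      by_cases h : p' ∈ T
      · rw [if_pos h, Finset.prod_eq_single_of_mem p' h]
        · rw [Pi.mulSingle_eq_same]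
        · intro b _ hb
          rw [Pi.mulSingle_eq_of_ne hb.symm]
      · rw [if_neg h]
        apply Finset.prod_eq_one
        intro b hb
        rw [Pi.mulSingle_eq_of_ne]
        rintro rfl
        exact h hb
    have h4 : Φ (w⁻¹ * ⟨u, hu⟩) = 1 := by
      apply hΦN
      apply pi_mem_NN
      intro p'
      have h5 : ((w⁻¹ * ⟨u, hu⟩ : J) : ∀ p, A f p) p' = ((w : ∀ p, A f p) p')⁻¹ * u p' := rfl
      rw [h5, hwv]
      by_cases h : p' ∈ T
      · rw [if_pos h, inv_mul_cancel]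
        exact Subgroup.one_mem _
      · rw [if_neg h, inv_one, one_mul]
        rw [hT, Set.Finite.mem_toFinset, Set.mem_ofPred_eq, not_not] at h
        exact h
    rw [map_mul, map_inv, inv_mul_eq_one] at h4
    exact h4
  let X : IdeleCharacter f q := {
    loc := χ
    cont := by
      intro p
      obtain ⟨n, hn⟩ := hpow f hf q hq.pos (p : ℕ)
      refine ⟨n, fun u h h1 h2 => ?_⟩
      obtain ⟨g, hg⟩ := hn u h h1 h2
      apply hχH
      rw [mem_HH]
      exact ⟨1, g, 1, fun _ => (UU f p).one_mem, fun _ => rfl, by rw [hg, map_one, one_mul, mul_one]⟩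
    unr := by
      refine ⟨B, hB, fun p hp u hu => hχH p u ?_⟩
      rw [mem_HH]
      exact ⟨1, 1, u, fun _ => hu, fun h => absurd h hp, by
        rw [map_one, one_pow, one_mul, one_mul]⟩
    rat := by
      intro p c
      apply hχH
      rw [mem_HH]
      exact ⟨c, 1, 1, fun _ => (UU f p).one_mem, fun _ => rfl, by rw [one_pow, mul_one, mul_one]⟩
    glob := by
      intro g u hu
      have hg : IsCoprime (f.map (Int.castRingHom ℚ)) g := by
        rw [hf.coprime_iff_not_dvd]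
        rintro ⟨k, rfl⟩
        have p2 : Nat.Primes := ⟨2, Nat.prime_two⟩
        have h1 := hu p2
        have h2 : (Rat.castHom ℚ_[(p2 : ℕ)]).comp (Int.castRingHom ℚ) =
          Int.castRingHom ℚ_[(p2 : ℕ)] := RingHom.ext_int _ _
        rw [Polynomial.map_mul, Polynomial.map_map, h2, cl_mul] at h1
        have h3 : cl f ℚ_[(p2 : ℕ)] (f.map (Int.castRingHom ℚ_[(p2 : ℕ)])) = 0 :=
          AdjoinRoot.mk_self
        rw [h3, zero_mul] at h1
        have hdeg : (f.map (Int.castRingHom ℚ_[(p2 : ℕ)])).degree ≠ 0 := by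
          rw [degree_map_eq_of_injective (Int.castRingHom ℚ_[(p2 : ℕ)]).injective_int,
            ← degree_map_eq_of_injective (Int.castRingHom ℚ).injective_int]
          exact hf.degree_pos.ne'
        have : Nontrivial (Alg f ℚ_[(p2 : ℕ)]) := AdjoinRoot.nontrivial _ hdeg
        exact (u p2).ne_zero h1
      have huJ : u ∈ J := glob_mem_JJ f q B hB hg hu
      rw [hprod u huJ]
      apply hΦN
      exact ⟨g, hg, fun p => ⟨1, Subgroup.one_mem _, by rw [hu p, Units.val_one, mul_one]⟩⟩ }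
  apply hΦa
  rw [← hprod a haJ]
  exact horth X

end Pool.Agent.Q51.SE
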