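import Pool.Agent.Q51.SE.Stm
import Pool.Agent.Q239.EL.NV

/-! # Project SE, job NVQ: norm and valuations -/

set_option autoImplicit false
set_option linter.unusedSectionVars false

open Polynomial NumberField IsDedekindDomain
open Pool.Agent.Q51.EL (Abv)
open Pool.Agent.Q239.EL

noncomputable section

namespace Pool.Agent.Q51.SE

variable {L : Type} [Field L] [NumberField L]

lemma val_exp' {v : HeightOneSpectrum (𝓞 L)} {y : L} (hy : y ≠ 0) :
    ∃ m : ℤ, v.valuation L y = WithZero.exp m := by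
  have h1 : v.valuation L y ≠ 0 := (Valuation.ne_zero_iff _).mpr hy
  exact ⟨WithZero.log (v.valuation L y), (WithZero.exp_log h1).symm⟩

/-- multiplying by a `q`-th power -/
lemma parq_mul_pow {q : ℕ} {v : HeightOneSpectrum (𝓞 L)} {x y : L} (hy : y ≠ 0) {e : ℤ}
    (h : Parq q v x e) : Parq q v (x * y ^ q) e := by
  obtain ⟨k, hk⟩ := h
  obtain ⟨m, hm⟩ := val_exp' (v := v) hy
  refine ⟨k - m, ?_⟩
  rw [map_mul, map_pow, hk, hm, ← WithZero.exp_nsmul, ← WithZero.exp_add]
  congr 1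
  rw [nsmul_eq_mul]
  ring

/-- the class of the valuation of an integral element -/
lemma parq_int {q : ℕ} {v : HeightOneSpectrum (𝓞 L)} {x : 𝓞 L} (hx : x ≠ 0) {e : ℤ}
    (h : Parq q v (x : L) e) : (q : ℤ) ∣ (mu v (Ideal.span {x}) : ℤ) - e := by
  obtain ⟨k, hk⟩ := h
  rw [val_int v hx, WithZero.exp_inj] at hk
  exact ⟨k, by linarith⟩

lemma norm_valq {l : ℕ} [hl : Fact l.Prime] {q : ℕ} (hq : 1 ≤ q) {x : L} (hx : x ≠ 0) :
    ∃ (z : 𝓞 L) (y : L), z ≠ 0 ∧ y ≠ 0 ∧ (z : L) = x * y ^ q ∧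
    (q : ℤ) ∣ padicValRat l (Algebra.norm ℚ x) - ph l (Ideal.span {z}) := by
  obtain ⟨a, b, hb, hab⟩ := exists_ratio x
  have hbL := coe_ne hb
  have ha : a ≠ 0 := by
    rintro rfl
    exact mul_ne_zero hx hbL (by simpa using hab)
  have e1 : ((a * b ^ (q - 1) : 𝓞 L) : L) = x * (b : L) ^ q := by
    have e2 : ((a * b ^ (q - 1) : 𝓞 L) : L) = (a : L) * (b : L) ^ (q - 1) := by
      push_cast
      rfl
    obtain ⟨k, rfl⟩ := Nat.exists_eq_add_of_le' hq
    rw [e2, ← hab, Nat.add_sub_cancel]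
    ring
  refine ⟨a * b ^ (q - 1), b, mul_ne_zero ha (pow_ne_zero _ hb), hbL, e1, ?_⟩
  rw [← norm_int_val, e1, map_mul, map_pow]
  have h1 : Algebra.norm ℚ x ≠ 0 := Algebra.norm_ne_zero_iff.mpr hx
  have h2 : Algebra.norm ℚ (b : L) ≠ 0 := Algebra.norm_ne_zero_iff.mpr hbL
  rw [padicValRat.mul h1 (pow_ne_zero q h2), padicValRat.pow]
  exact ⟨-padicValRat l (Algebra.norm ℚ (b : L)), by push_cast; ring⟩

theorem nvq : S_NVQ := by
  classical
  intro L _ _ q hq hn l hl hs x hx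
  have : Fact l.Prime := ⟨hl⟩
  obtain ⟨z, y, hz, hy, hzy, hev⟩ := norm_valq (l := l) hq.one_le hx
  have hform := ph_formula (l := l) (Ideal.span {z}) (span_ne hz)
  have hsum := sum_ph (L := L) (l := l) hs
  set V := (ab_finite (L := L) hl.ne_zero).toFinset with hV
  have hVm : ∀ v, v ∈ V ↔ Abv v l := fun v => (ab_finite hl.ne_zero).mem_toFinset
  have hpar : ∀ v e, Parq q v x e → (q : ℤ) ∣ (mu v (Ideal.span {z}) : ℤ) - e := by
    intro v e h
    have h1 := parq_mul_pow hy h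
    rw [← hzy] at h1
    exact parq_int hz h1
  have h2 : ∀ e : ℤ, (q : ℤ) ∣ e * (Module.finrank ℚ L : ℤ) := fun e =>
    Dvd.dvd.mul_left (by exact_mod_cast hn) e
  constructor
  · intro e he
    have h1 : (q : ℤ) ∣ (ph l (Ideal.span {z}) : ℤ) - e * Module.finrank ℚ L := by
      rw [hform, ← hsum]
      push_cast
      rw [Finset.mul_sum, ← Finset.sum_sub_distrib]
      apply Finset.dvd_sum
      intro v hv
      rw [← sub_mul]
      exact (hpar v e (he v ((hVm v).mp hv))).mul_right _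
    have h3 := dvd_add hev (dvd_add h1 (h2 e))
    have e3 : padicValRat l (Algebra.norm ℚ x) - (ph l (Ideal.span {z}) : ℤ) +
        ((ph l (Ideal.span {z}) : ℤ) - e * Module.finrank ℚ L + e * Module.finrank ℚ L) =
        padicValRat l (Algebra.norm ℚ x) := by ring
    rwa [e3] at h3
  · intro e0 e v0 hv0 hN h0 he
    have hphv0 : ph l v0.asIdeal = 1 := by
      unfold ph
      rw [hN, padicValNat.self hl.one_lt]
    have hmem : v0 ∈ V := (hVm v0).mpr hv0
    have h1 : (q : ℤ) ∣ (ph l (Ideal.span {z}) : ℤ) - e0 + e - e * Module.finrank ℚ L := by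
      rw [hform, ← hsum]
      rw [← Finset.add_sum_erase V _ hmem, ← Finset.add_sum_erase V _ hmem, hphv0]
      push_cast
      have e1 : ((mu v0 (Ideal.span {z}) : ℤ) * 1 + ∑ x ∈ V.erase v0,
          (mu x (Ideal.span {z}) : ℤ) * (ph l x.asIdeal : ℤ)) - e0 + e -
          e * (1 + ∑ x ∈ V.erase v0, (ph l x.asIdeal : ℤ)) =
          ((mu v0 (Ideal.span {z}) : ℤ) - e0) + ∑ x ∈ V.erase v0,
          ((mu x (Ideal.span {z}) : ℤ) - e) * (ph l x.asIdeal : ℤ) := by
        simp only [sub_mul, Finset.sum_sub_distrib]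
        rw [← Finset.mul_sum]
        ring
      rw [e1]
      refine dvd_add (hpar v0 e0 h0) (Finset.dvd_sum ?_)
      intro v hv
      obtain ⟨hv1, hv2⟩ := Finset.mem_erase.mp hv
      exact (hpar v e (he v ((hVm v).mp hv2) hv1)).mul_right _
    have h3 := dvd_add hev (dvd_add h1 (h2 e))
    have e3 : padicValRat l (Algebra.norm ℚ x) - (ph l (Ideal.span {z}) : ℤ) +
        ((ph l (Ideal.span {z}) : ℤ) - e0 + e - e * Module.finrank ℚ L +
          e * Module.finrank ℚ L) =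
        padicValRat l (Algebra.norm ℚ x) - e0 + e := by ring
    rwa [e3] at h3

end Pool.Agent.Q51.SE
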