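import Pool.Agent.Q51.SE.Stm
import Pool.Agent.Q51.EL.All

/-! # Project SE, job ZETA: the residue fields contain the roots of unity -/

set_option autoImplicit false
set_option linter.unusedSectionVars false

open Polynomial NumberField IsDedekindDomain
open Pool.Agent.Q51.EL (Abv Setup)

noncomputable section

namespace Pool.Agent.Q51.SE

/-- A field with two different zeros of `f` and without primitive `q`-th roots of unity. -/
structure Bad (f : ℤ[X]) (q l : ℕ) where
  k : Type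
  fk : Field k
  ch : CharP k l
  x : k
  y : k
  hx : eval₂ (Int.castRingHom k) x f = 0
  hy : eval₂ (Int.castRingHom k) y f = 0
  hxy : x ≠ y
  hz : ∀ z : k, z ^ q = 1 → z = 1

attribute [instance] Bad.fk Bad.ch

/-- there are only finitely many bad characteristics -/
lemma bad_finite (f : ℤ[X]) (q : ℕ) (hq : q.Prime) (hf0 : f ≠ 0) (h : RootsOfUnityCondition f q) :
    {l : ℕ | l.Prime ∧ l ≠ q ∧ Nonempty (Bad f q l)}.Finite := by
  classical
  by_contra hinf
  let I : Type := {l : ℕ | l.Prime ∧ l ≠ q ∧ Nonempty (Bad f q l)}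
  have hI : Infinite I := Set.infinite_coe_iff.mpr hinf
  let b : ∀ i : I, Bad f q i := fun i => i.2.2.2.some
  let R : Type := ∀ i : I, (b i).k
  let J : Ideal R := {
    carrier := {r | {i | r i ≠ 0}.Finite}
    add_mem' := by
      intro r s hr hs
      refine (hr.union hs).subset ?_
      intro i hi
      by_contra hcon
      rw [Set.mem_union, not_or, Set.mem_ofPred_eq, Set.mem_ofPred_eq, not_not, not_not] at hcon
      apply hi
      change r i + s i = 0
      rw [hcon.1, hcon.2, add_zero]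
    zero_mem' := by
      have : {i : I | (0 : R) i ≠ 0} = ∅ :=
        Set.eq_empty_iff_forall_notMem.mpr (fun i hi => hi rfl)
      rw [Set.mem_ofPred_eq, this]
      exact Set.finite_empty
    smul_mem' := by
      intro c r hr
      refine Set.Finite.subset hr ?_
      intro i hi h0
      apply hi
      change c i * r i = 0
      rw [h0, mul_zero] }
  have hJ : J ≠ ⊤ := by
    rw [Ne, Ideal.eq_top_iff_one]
    intro h1
    have h2 : {i : I | (1 : R) i ≠ 0}.Finite := h1
    have h3 : {i : I | (1 : R) i ≠ 0} = Set.univ :=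
      Set.eq_univ_iff_forall.mpr (fun i h0 => one_ne_zero (α := (b i).k) h0)
    rw [h3] at h2
    exact Set.infinite_univ h2
  obtain ⟨M, hM, hJM⟩ := Ideal.exists_le_maximal J hJ
  let _ : Field (R ⧸ M) := Ideal.Quotient.field M
  -- a family of nonzero elements is a unit
  have hunit : ∀ u : R, (∀ i, u i ≠ 0) → u ∉ M := by
    intro u hu hm
    have h1 : (fun i => (u i)⁻¹ : R) * u = 1 := by
      funext i
      exact inv_mul_cancel₀ (hu i)
    exact (Ideal.ne_top_iff_one M).mp hM.ne_top (h1 ▸ Ideal.mul_mem_left M _ hm)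
  have hchar : CharZero (R ⧸ M) := by
    apply charZero_of_inj_zero
    intro n hn
    by_contra hn0
    have h1 : ((n : R)) ∈ M := by
      rw [← Ideal.Quotient.eq_zero_iff_mem, map_natCast]
      exact hn
    let u : R := fun i => if ((n : ℕ) : (b i).k) = 0 then 1 else (n : (b i).k)
    have h2 : (n : R) - u ∈ M := by
      apply hJM
      change {i : I | ((n : R) - u) i ≠ 0}.Finite
      apply Set.Finite.of_finite_image (f := fun i : I => (i : ℕ)) _
        (fun i _ j _ h => Subtype.ext h)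
      apply (Set.finite_Iic n).subset
      rintro _ ⟨i, hi, rfl⟩
      by_contra hcon
      apply hi
      have h3 : ((n : ℕ) : (b i).k) ≠ 0 := by
        rw [Ne, CharP.cast_eq_zero_iff (b i).k i]
        intro hd
        exact hcon (Nat.le_of_dvd (Nat.pos_of_ne_zero hn0) hd)
      change ((n : ℕ) : (b i).k) - u i = 0
      simp only [u]
      rw [if_neg h3, sub_self]
    have h3 : u ∈ M := by
      have := M.sub_mem h1 h2
      rwa [sub_sub_cancel] at this
    refine hunit u (fun i => ?_) h3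
    simp only [u]
    split_ifs with h4
    · exact one_ne_zero
    · exact h4
  set X0 : R := fun i => (b i).x with hX0
  set Y0 : R := fun i => (b i).y with hY0
  set x : R ⧸ M := Ideal.Quotient.mk M X0 with hx
  set y : R ⧸ M := Ideal.Quotient.mk M Y0 with hy
  have hxy : x ≠ y := by
    intro h0
    rw [hx, hy, Ideal.Quotient.eq] at h0
    exact hunit _ (fun i => sub_ne_zero.mpr (b i).hxy) h0
  have hroot : ∀ Z : R, (∀ i, eval₂ (Int.castRingHom (b i).k) (Z i) f = 0) →
      aeval (Ideal.Quotient.mk M Z) f = 0 := by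
    intro Z hZ
    have h1 : aeval Z f = 0 := by
      funext i
      have h2 : (aeval Z f) i = eval₂ (Int.castRingHom (b i).k) (Z i) f := by
        have h3 := hom_eval₂ f (algebraMap ℤ R) (Pi.evalRingHom (fun i => (b i).k) i) Z
        rw [aeval_def]
        refine h3.trans ?_
        congr 1
      rw [h2, hZ i]
      rfl
    have h3 := hom_eval₂ f (algebraMap ℤ R) (Ideal.Quotient.mk M) Z
    rw [aeval_def]
    have h4 : (Ideal.Quotient.mk M).comp (algebraMap ℤ R) = algebraMap ℤ (R ⧸ M) :=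
      RingHom.ext_int _ _
    rw [h4] at h3
    rw [← h3, ← aeval_def, h1, map_zero]
  have hfx : aeval x f = 0 := hroot X0 (fun i => (b i).hx)
  have hfy : aeval y f = 0 := hroot Y0 (fun i => (b i).hy)
  have hint : ∀ z : R ⧸ M, aeval z f = 0 → IsIntegral ℚ z := by
    intro z hz
    apply IsAlgebraic.isIntegral
    refine ⟨f.map (Int.castRingHom ℚ), ?_, ?_⟩
    · rw [Ne, Polynomial.map_eq_zero_iff (Int.castRingHom ℚ).injective_int]
      exact hf0
    · have h5 : aeval z (f.map (Int.castRingHom ℚ)) = aeval z f := by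
        rw [aeval_def, eval₂_map, aeval_def]
        congr 1
        exact RingHom.ext_int _ _
      rw [h5, hz]
  have halg : Algebra.IsAlgebraic ℚ (IntermediateField.adjoin ℚ ({x, y} : Set (R ⧸ M))) := by
    apply IntermediateField.isAlgebraic_adjoin
    intro z hz
    rcases hz with rfl | hz
    · exact hint _ hfx
    · rw [Set.mem_singleton_iff] at hz
      rw [hz]
      exact hint _ hfy
  set E := IntermediateField.adjoin ℚ ({x, y} : Set (R ⧸ M)) with hE
  let σ : E →ₐ[ℚ] ℂ := IsAlgClosed.lift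
  have hxE : x ∈ E := IntermediateField.subset_adjoin ℚ _ (by simp)
  have hyE : y ∈ E := IntermediateField.subset_adjoin ℚ _ (by simp)
  have hσ : ∀ (z : R ⧸ M) (hz : z ∈ E), aeval z f = 0 → aeval (σ ⟨z, hz⟩) f = 0 := by
    intro z hz h0
    have h1 : aeval (⟨z, hz⟩ : E) f = 0 := by
      apply Subtype.val_injective
      have h2 := hom_eval₂ f (algebraMap ℤ E) (algebraMap E (R ⧸ M)) ⟨z, hz⟩
      have h3 : (algebraMap E (R ⧸ M)).comp (algebraMap ℤ E) = algebraMap ℤ (R ⧸ M) :=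
        RingHom.ext_int _ _
      rw [h3] at h2
      have h4 : algebraMap E (R ⧸ M) (aeval (⟨z, hz⟩ : E) f) = 0 := by
        rw [aeval_def, h2]
        exact h0
      exact h4
    have h2 := hom_eval₂ f (algebraMap ℤ E) (σ : E →+* ℂ) ⟨z, hz⟩
    have h3 : ((σ : E →+* ℂ)).comp (algebraMap ℤ E) = algebraMap ℤ ℂ := RingHom.ext_int _ _
    rw [h3, ← aeval_def, h1, map_zero] at h2
    rw [aeval_def]
    exact h2.symm
  obtain ⟨ζ, hζ, hprim⟩ := h (σ ⟨x, hxE⟩) (σ ⟨y, hyE⟩) (hσ x hxE hfx) (hσ y hyE hfy) (by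
    intro h0
    have := σ.toRingHom.injective h0
    exact hxy (congrArg Subtype.val this))
  have hle : IntermediateField.adjoin ℚ ({σ ⟨x, hxE⟩, σ ⟨y, hyE⟩} : Set ℂ) ≤ σ.fieldRange := by
    rw [IntermediateField.adjoin_le_iff]
    rintro z hz
    rcases hz with rfl | hz
    · exact ⟨_, rfl⟩
    · rw [Set.mem_singleton_iff] at hz
      rw [hz]
      exact ⟨_, rfl⟩
  obtain ⟨e, he⟩ := hle hζ
  have heσ : σ e = ζ := he
  have he1 : e ^ q = 1 := by
    apply σ.toRingHom.injective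
    change σ (e ^ q) = σ 1
    rw [map_pow, heσ, hprim.pow_eq_one, map_one]
  have he2 : e ≠ 1 := by
    rintro rfl
    rw [map_one] at heσ
    rw [← heσ] at hprim
    have := hprim.dvd_of_pow_eq_one 1 (one_pow 1)
    exact hq.one_lt.ne' (Nat.dvd_one.mp this)
  obtain ⟨z, hz⟩ := Ideal.Quotient.mk_surjective (I := M) (e : R ⧸ M)
  have hz1 : z ^ q - 1 ∈ M := by
    rw [← Ideal.Quotient.eq_zero_iff_mem, map_sub, map_pow, map_one, hz, sub_eq_zero]
    exact_mod_cast congrArg Subtype.val he1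
  have hz2 : z - 1 ∉ M := by
    rw [← Ideal.Quotient.eq_zero_iff_mem, map_sub, map_one, hz, sub_eq_zero]
    intro h0
    exact he2 (Subtype.ext h0)
  have hz3 : (∑ j ∈ Finset.range q, z ^ j) ∈ M := by
    have h1 : (∑ j ∈ Finset.range q, z ^ j) * (z - 1) ∈ M := by
      rw [geom_sum_mul]
      exact hz1
    exact (hM.isPrime.mem_or_mem h1).resolve_right hz2
  refine hunit _ (fun i => ?_) hz3
  intro h0
  have h1 : (∑ j ∈ Finset.range q, z ^ j) i = ∑ j ∈ Finset.range q, (z i) ^ j := by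
    rw [Finset.sum_apply]
    rfl
  rw [h1] at h0
  have h2 : z i ^ q = 1 := by
    have h3 := geom_sum_mul (z i) q
    rw [h0, zero_mul] at h3
    exact (sub_eq_zero.mp h3.symm)
  have h3 := (b i).hz (z i) h2
  rw [h3] at h0
  simp only [one_pow, Finset.sum_const, Finset.card_range, nsmul_eq_mul, mul_one] at h0
  rw [CharP.cast_eq_zero_iff (b i).k i] at h0
  exact i.2.2.1 ((Nat.prime_dvd_prime_iff_eq i.2.1 hq).mp h0)

/-- the elements of the prime field -/
lemma int_of_pow {k : Type} [Field k] {l : ℕ} [Fact l.Prime] [CharP k l] {x : k} (h : x ^ l = x) :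
    ∃ r : ℤ, x = r := by
  have h1 : x ∈ (⊥ : Subfield k) := (Subfield.mem_bot_iff_pow_eq_self k l).mpr h
  rw [← ZMod.fieldRange_castHom_eq_bot l] at h1
  obtain ⟨a, ha⟩ := h1
  refine ⟨(a.val : ℤ), ?_⟩
  rw [← ha, Int.cast_natCast, ZMod.castHom_apply, ZMod.natCast_val]

theorem zeta : S_ZETA := by
  classical
  intro f q hq hrou L _ _ θ hset
  have hfL : Irreducible (f.map (Int.castRingHom ℚ)) := hset.1
  have hf0 : f ≠ 0 := by
    rintro rfl
    exact hfL.ne_zero (by simp)
  have hlc0 : f.leadingCoeff ≠ 0 := leadingCoeff_ne_zero.mpr hf0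
  have hnd : (f.map (Int.castRingHom ℚ)).natDegree = f.natDegree :=
    natDegree_map_eq_of_injective (Int.castRingHom ℚ).injective_int f
  have hn1 : 1 ≤ f.natDegree := by
    rw [← hnd]; exact hfL.natDegree_pos
  have hbad := bad_finite f q hq hf0 hrou
  obtain ⟨B1, hB1, hlcB, hroot⟩ := Pool.Agent.Q51.EL.t_root f L θ hset
  set B2 : ℕ := ∏ l ∈ hbad.toFinset, l with hB2
  have hB20 : B2 ≠ 0 := Finset.prod_ne_zero_iff.mpr fun l hl =>
    ((hbad.mem_toFinset.mp hl).1).ne_zero
  have hint : IsIntegral ℤ ((f.leadingCoeff : L) * θ) := by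
    have h1 : IsIntegral ℤ (f.leadingCoeff • θ) := isIntegral_leadingCoeff_smul f θ hset.root
    rwa [zsmul_eq_mul] at h1
  set t : 𝓞 L := ⟨(f.leadingCoeff : L) * θ, hint⟩ with ht
  have htL : (t : L) = (f.leadingCoeff : L) * θ := rfl
  have hiN : eval₂ (Int.castRingHom (𝓞 L)) t f.integralNormalization = 0 := by
    apply RingOfIntegers.coe_injective
    have h1 := integralNormalization_eval₂_leadingCoeff_mul hn1 (Int.castRingHom L) θ
    have h2 : eval₂ (Int.castRingHom L) θ f = 0 := by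
      have h3 := hset.root
      rw [aeval_def] at h3
      rw [← h3]
      congr 1
    rw [h2, mul_zero] at h1
    have h4 := hom_eval₂ f.integralNormalization (Int.castRingHom (𝓞 L)) (algebraMap (𝓞 L) L) t
    have h5 : (algebraMap (𝓞 L) L).comp (Int.castRingHom (𝓞 L)) = Int.castRingHom L :=
      RingHom.ext_int _ _
    rw [h5] at h4
    change (algebraMap (𝓞 L) L) _ = (algebraMap (𝓞 L) L) 0
    rw [h4, map_zero]
    exact h1
  refine ⟨B1 * B2 * q, mul_ne_zero (mul_ne_zero hB1 hB20) hq.ne_zero, ?_⟩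
  intro l hl hlB
  have hlf : Fact l.Prime := ⟨hl⟩
  have hlB1 : ¬ l ∣ B1 := fun h => hlB (Dvd.dvd.mul_right (Dvd.dvd.mul_right h _) _)
  have hlB2 : ¬ l ∣ B2 := fun h => hlB (Dvd.dvd.mul_right (Dvd.dvd.mul_left h _) _)
  have hlq : l ≠ q := fun h => hlB (h ▸ Dvd.intro_left _ rfl)
  have hlc : ¬ (l : ℤ) ∣ f.leadingCoeff := fun h =>
    hlB1 (by exact_mod_cast h.trans hlcB)
  obtain ⟨hθ, hxw⟩ := hroot l hl hlB1
  -- two different zeros in a field give a root of unity
  have key : ∀ (k : Type) [Field k] [CharP k l] (x y : k), eval₂ (Int.castRingHom k) x f = 0 →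
      eval₂ (Int.castRingHom k) y f = 0 → x ≠ y → ∃ z : k, z ^ q = 1 ∧ z ≠ 1 := by
    intro k fk ck x y hx hy hxy
    by_contra hcon
    push Not at hcon
    apply hlB2
    apply Finset.dvd_prod_of_mem (fun l => l)
    rw [hbad.mem_toFinset]
    exact ⟨hl, hlq, ⟨⟨k, fk, ck, x, y, hx, hy, hxy, hcon⟩⟩⟩
  -- the residue fields
  have hchar : ∀ v : HeightOneSpectrum (𝓞 L), Abv v l → CharP (𝓞 L ⧸ v.asIdeal) l := by
    intro v hv
    have hmax : v.asIdeal.IsMaximal := v.isMaximal
    let _ : Field (𝓞 L ⧸ v.asIdeal) := Ideal.Quotient.field v.asIdeal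
    apply ringChar.of_eq
    apply CharP.ringChar_of_prime_eq_zero hl
    rw [← map_natCast (Ideal.Quotient.mk v.asIdeal), Ideal.Quotient.eq_zero_iff_mem]
    exact hv
  have hcard : ∀ v : HeightOneSpectrum (𝓞 L),
      Nat.card (𝓞 L ⧸ v.asIdeal) = Ideal.absNorm v.asIdeal := by
    intro v
    rw [Ideal.absNorm_apply, Submodule.cardQuot_apply]
  have hfinq : ∀ v : HeightOneSpectrum (𝓞 L), Finite (𝓞 L ⧸ v.asIdeal) := by
    intro v
    apply Nat.finite_of_card_ne_zero
    rw [hcard, Ne, Ideal.absNorm_eq_zero_iff]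
    exact v.ne_bot
  have hmod : ∀ v : HeightOneSpectrum (𝓞 L), Abv v l →
      (∃ z : 𝓞 L ⧸ v.asIdeal, z ^ q = 1 ∧ z ≠ 1) → Ideal.absNorm v.asIdeal % q = 1 := by
    rintro v hv ⟨z, hz1, hz2⟩
    have hmax : v.asIdeal.IsMaximal := v.isMaximal
    let _ : Field (𝓞 L ⧸ v.asIdeal) := Ideal.Quotient.field v.asIdeal
    have := hfinq v
    let _ : Fintype (𝓞 L ⧸ v.asIdeal) := Fintype.ofFinite _
    have hqf : Fact q.Prime := ⟨hq⟩
    have hz0 : z ≠ 0 := by
      rintro rfl
      rw [zero_pow hq.ne_zero] at hz1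
      exact zero_ne_one hz1
    have h1 : orderOf (Units.mk0 z hz0) = q := by
      apply orderOf_eq_prime
      · ext; push_cast; exact hz1
      · intro h
        exact hz2 (congrArg Units.val h)
    have h2 : orderOf (Units.mk0 z hz0) ∣ Fintype.card (𝓞 L ⧸ v.asIdeal)ˣ := orderOf_dvd_card
    rw [h1, Fintype.card_units, ← Nat.card_eq_fintype_card, hcard] at h2
    have h3 : 1 ≤ Ideal.absNorm v.asIdeal := by
      rw [← hcard]
      exact Nat.card_pos
    obtain ⟨m, hm⟩ := h2
    have h4 : Ideal.absNorm v.asIdeal = q * m + 1 := by omega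
    rw [h4, Nat.mul_add_mod, Nat.mod_eq_of_lt hq.one_lt]
  have hlcv : ∀ v : HeightOneSpectrum (𝓞 L), Abv v l → (f.leadingCoeff : 𝓞 L) ∉ v.asIdeal :=
    fun v hv h => hlc ((Pool.Agent.Q239.EL.int_mem_iff hl hv _).mp h)
  -- the image of `θ`
  have hrho : ∀ v : HeightOneSpectrum (𝓞 L), Abv v l → ∃ ρ : 𝓞 L ⧸ v.asIdeal,
      eval₂ (Int.castRingHom (𝓞 L ⧸ v.asIdeal)) ρ f = 0 ∧
      ∀ r : ℤ, ρ = r → v.valuation L ((r : L) - (1 : ℤ) * θ) < 1 := by
    intro v hv
    have hmax : v.asIdeal.IsMaximal := v.isMaximal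
    let _ : Field (𝓞 L ⧸ v.asIdeal) := Ideal.Quotient.field v.asIdeal
    have hlck : ((f.leadingCoeff : ℤ) : 𝓞 L ⧸ v.asIdeal) ≠ 0 := by
      rw [← map_intCast (Ideal.Quotient.mk v.asIdeal), Ne, Ideal.Quotient.eq_zero_iff_mem]
      exact hlcv v hv
    set ρ : 𝓞 L ⧸ v.asIdeal := Ideal.Quotient.mk v.asIdeal t / (f.leadingCoeff : ℤ) with hρ
    have hρt : ((f.leadingCoeff : ℤ) : 𝓞 L ⧸ v.asIdeal) * ρ = Ideal.Quotient.mk v.asIdeal t := by
      rw [hρ, mul_div_cancel₀ _ hlck]
    refine ⟨ρ, ?_, ?_⟩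
    · have h1 := integralNormalization_eval₂_leadingCoeff_mul hn1
        (Int.castRingHom (𝓞 L ⧸ v.asIdeal)) ρ
      have h2 : Int.castRingHom (𝓞 L ⧸ v.asIdeal) f.leadingCoeff * ρ =
        Ideal.Quotient.mk v.asIdeal t := hρt
      rw [h2] at h1
      have h4 := hom_eval₂ f.integralNormalization (Int.castRingHom (𝓞 L))
        (Ideal.Quotient.mk v.asIdeal) t
      have h5 : (Ideal.Quotient.mk v.asIdeal).comp (Int.castRingHom (𝓞 L)) =
        Int.castRingHom (𝓞 L ⧸ v.asIdeal) := RingHom.ext_int _ _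
      rw [hiN, map_zero, h5] at h4
      rw [← h4] at h1
      exact (mul_eq_zero.mp h1.symm).resolve_left (pow_ne_zero _ hlck)
    · intro r hr
      have h1 : (f.leadingCoeff : 𝓞 L) * r - t ∈ v.asIdeal := by
        rw [← Ideal.Quotient.eq_zero_iff_mem, map_sub, map_mul, map_intCast, map_intCast, ← hr,
          hρt, sub_self]
      have h2 := (HeightOneSpectrum.valuation_lt_one_iff_mem (K := L) v _).mpr h1
      have h3 : v.valuation L (f.leadingCoeff : L) = 1 := by
        have := (HeightOneSpectrum.valuation_eq_one_iff_notMem (K := L) v).mpr (hlcv v hv)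
        simpa using this
      have h4 : (((f.leadingCoeff : 𝓞 L) * r - t : 𝓞 L) : L) =
          (f.leadingCoeff : L) * ((r : L) - (1 : ℤ) * θ) := by
        rw [mul_sub, Int.cast_one, one_mul, ← htL]
        simp
      have h5 : v.valuation L (((f.leadingCoeff : 𝓞 L) * r - t : 𝓞 L) : L) < 1 := h2
      rw [h4, map_mul, h3, one_mul] at h5
      exact h5
  -- only one prime contains `r - θ`
  have huniq : ∀ (r : ℤ) (v : HeightOneSpectrum (𝓞 L)), Abv v l →
      v.valuation L ((r : L) - (1 : ℤ) * θ) < 1 → Ideal.absNorm v.asIdeal = l ∧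
      ∀ v' : HeightOneSpectrum (𝓞 L), Abv v' l → v'.valuation L ((r : L) - (1 : ℤ) * θ) < 1 →
        v' = v := by
    intro r v hv hr
    have h1 : ¬ (l : ℤ) ∣ r ∨ ¬ (l : ℤ) ∣ 1 := Or.inr (by
      intro h
      have := Int.eq_one_of_dvd_one (by positivity) h
      have h2 := hl.one_lt
      omega)
    rcases hxw r 1 h1 with h2 | ⟨v0, h2, h3, -, h5, h6⟩
    · exact absurd (h2 v hv) hr.ne
    · have e : ∀ v' : HeightOneSpectrum (𝓞 L), Abv v' l →
          v'.valuation L ((r : L) - (1 : ℤ) * θ) < 1 → v' = v0 := by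
        intro v' hv' hr'
        by_contra hne
        exact hr'.ne (h6 v' hv' hne)
      have ev := e v hv hr
      refine ⟨by rw [ev]; exact h3, fun v' hv' hr' => ?_⟩
      rw [e v' hv' hr', ev]
  refine ⟨?_, ?_⟩
  · intro v hv hN
    apply hmod v hv
    have hmax : v.asIdeal.IsMaximal := v.isMaximal
    let _ : Field (𝓞 L ⧸ v.asIdeal) := Ideal.Quotient.field v.asIdeal
    have := hchar v hv
    obtain ⟨ρ, h1, h2⟩ := hrho v hv
    refine key (𝓞 L ⧸ v.asIdeal) (ρ ^ l) ρ ?_ h1 ?_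
    · have h3 := hom_eval₂ f (Int.castRingHom (𝓞 L ⧸ v.asIdeal)) (frobenius (𝓞 L ⧸ v.asIdeal) l) ρ
      have h4 : (frobenius (𝓞 L ⧸ v.asIdeal) l).comp (Int.castRingHom (𝓞 L ⧸ v.asIdeal)) =
        Int.castRingHom (𝓞 L ⧸ v.asIdeal) := RingHom.ext_int _ _
      rw [h4, h1, map_zero, frobenius_def] at h3
      exact h3.symm
    · intro h3
      obtain ⟨r, hr⟩ := int_of_pow h3
      exact hN (huniq r v hv (h2 r hr)).1
  · intro v v0 hv hv0 hne hN hN0
    have hmax : v.asIdeal.IsMaximal := v.isMaximal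
    have hmax0 : v0.asIdeal.IsMaximal := v0.isMaximal
    let _ : Field (𝓞 L ⧸ v.asIdeal) := Ideal.Quotient.field v.asIdeal
    have := hchar v hv
    have hpow : ∀ w : HeightOneSpectrum (𝓞 L), Abv w l → Ideal.absNorm w.asIdeal = l →
        ∀ x : 𝓞 L ⧸ w.asIdeal, ∃ r : ℤ, x = r := by
      intro w hw hwN x
      have hmaxw : w.asIdeal.IsMaximal := w.isMaximal
      let _ : Field (𝓞 L ⧸ w.asIdeal) := Ideal.Quotient.field w.asIdeal
      have := hchar w hw
      have := hfinq w
      let _ : Fintype (𝓞 L ⧸ w.asIdeal) := Fintype.ofFinite _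
      apply int_of_pow (l := l)
      have h1 := FiniteField.pow_card x
      rwa [← Nat.card_eq_fintype_card, hcard, hwN] at h1
    obtain ⟨ρ, h1, h2⟩ := hrho v hv
    obtain ⟨ρ0, h10, h20⟩ := hrho v0 hv0
    obtain ⟨r, hr⟩ := hpow v hv hN ρ
    obtain ⟨r0, hr0⟩ := hpow v0 hv0 hN0 ρ0
    have hev : (l : ℤ) ∣ f.eval r0 := by
      rw [hr0] at h10
      have h3 := hom_eval₂ f (RingHom.id ℤ) (Int.castRingHom (𝓞 L ⧸ v0.asIdeal)) r0
      rw [RingHom.comp_id] at h3
      have h4 : eval₂ (Int.castRingHom (𝓞 L ⧸ v0.asIdeal)) ((r0 : ℤ) : 𝓞 L ⧸ v0.asIdeal) f =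
        ((f.eval r0 : ℤ) : 𝓞 L ⧸ v0.asIdeal) := h3.symm
      rw [h4] at h10
      have := hchar v0 hv0
      exact (CharP.intCast_eq_zero_iff _ l _).mp h10
    have hmodl : Ideal.absNorm v.asIdeal % q = 1 := by
      apply hmod v hv
      refine key (𝓞 L ⧸ v.asIdeal) ρ ((r0 : ℤ) : 𝓞 L ⧸ v.asIdeal) h1 ?_ ?_
      · have h3 := hom_eval₂ f (RingHom.id ℤ) (Int.castRingHom (𝓞 L ⧸ v.asIdeal)) r0
        rw [RingHom.comp_id] at h3
        have h4 : eval₂ (Int.castRingHom (𝓞 L ⧸ v.asIdeal)) ((r0 : ℤ) : 𝓞 L ⧸ v.asIdeal) f =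
          ((f.eval r0 : ℤ) : 𝓞 L ⧸ v.asIdeal) := h3.symm
        rw [h4]
        exact (CharP.intCast_eq_zero_iff _ l _).mpr hev
      · intro h3
        exact hne ((huniq r0 v0 hv0 (h20 r0 hr0)).2 v hv (h2 r0 h3))
    rw [hN] at hmodl
    exact hmodl

end Pool.Agent.Q51.SE
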