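import Pool.Agent.Q51.SE.Res2
import Pool.Agent.Q51.SE.Dual
import Pool.Agent.Q51.SE.Zeta
import Pool.Agent.Q51.SE.Cl
import Pool.Agent.Q51.SE.Nv
import Pool.Agent.Q26.SE.TYQ
import Pool.Agent.Q26.SE.UNQ
import Pool.Agent.Q65.SE.APQ
import Pool.Agent.Q65.SE.CHQ
import Pool.Agent.Q65.SE.SCQ
import Pool.Agent.Q65.SE.SDQ
import Pool.Agent.Q198.SE.Cnt
import Pool.Agent.Q198.SE.M3
import Pool.Agent.Q210.SE.Val
import Pool.Agent.Q210.SE.Pow
import Pool.Agent.Q210.SE.Finp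
import Pool.Agent.Q210.SE.Nval
import Pool.Agent.Q251.SE.COVQ
import Pool.Agent.Q277.SE.Coreq
import Pool.Agent.Q277.SE.Descq

/-! # Project SE: all terms -/

set_option autoImplicit false

namespace Pool.Agent.Q51.SE

open Pool.Agent

theorem t_val : S_VAL := Q210.SE.val
theorem t_finp : S_FINP := Q210.SE.finp
theorem t_dual : S_DUAL := dual Q210.SE.pow
theorem t_coreq : S_COREQ := Q277.SE.coreq Q198.SE.cntq Q198.SE.m3
theorem t_scq : S_SCQ := Q65.SE.scq nvq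
theorem t_descq : S_DESCQ := Q277.SE.descq Q26.SE.unq clq t_scq Q65.SE.sdq Q65.SE.chq
theorem t_upq : S_UPQ := upq_of t_coreq Q26.SE.tyq zeta t_descq t_val t_finp t_dual Q251.SE.covq
  Q65.SE.apq Q210.SE.nval Q91.EL.gg

end Pool.Agent.Q51.SE
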