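import Pool.Agent.Q51.EL.Def

/-!
# Project SE (helper51): superelliptic twists of odd prime exponent, definitions

`f ∈ ℤ[X]` is irreducible over `ℚ`, of degree `n`, `L = ℚ[X]/(f) = ℚ(θ)`, `m` divides `n`, `q` is an odd prime
factor of `m`, and `C_D : D y ^ m = F(x, w)`, a smooth curve in the weighted projective plane of weights
`(1, 1, n/m)`.

For a character `χ` of order `q` of the idele class group of `L` that is trivial on the ideles of `ℚ` (by class
field theory: a homomorphism `χ : Gal(L) → ℤ/q` with trivial corestriction to `ℚ`) the class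
`A_χ = Cor_{L/ℚ} (χ, x - θ w)` lies in `Br(C_D)`: the zeros of `x - θ w` on `C_D` have multiplicities divisible by
`q`.  Its invariant at a point over `ℚ_p` is `χ_p (x - θ w)`, `χ_p` the component of `χ` on
`(L ⊗ ℚ_p)^* = (ℚ_p[X]/(f))^*`.
-/

set_option autoImplicit false

namespace Pool.Agent.Q51.SE

open Polynomial NumberField IsDedekindDomain Finset

instance factPrime (p : Nat.Primes) : Fact (p : ℕ).Prime := ⟨p.2⟩

/-- the algebra `F[X]/(f)` -/
abbrev Alg (f : ℤ[X]) (F : Type) [Field F] : Type := AdjoinRoot (f.map (Int.castRingHom F))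

/-- the element `g(θ)` of `F[X]/(f)`, `θ` the class of `X` -/
noncomputable def cl (f : ℤ[X]) (F : Type) [Field F] (g : F[X]) : Alg f F :=
  AdjoinRoot.mk (f.map (Int.castRingHom F)) g

/-- The homogenisation `F(x, w) = ∑ i, a i * x ^ i * w ^ (n - i)` of `f = ∑ i, a i * x ^ i`, where
`n = deg f`. -/
noncomputable def hom (f : ℤ[X]) {R : Type*} [CommRing R] (x w : R) : R :=
  ∑ i ∈ range (f.natDegree + 1), (f.coeff i : R) * x ^ i * w ^ (f.natDegree - i)

/-- A point over `F` of the curve `C_D : D y ^ m = F(x, w)`. -/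
structure Point (f : ℤ[X]) (m : ℕ) (D : ℤ) (F : Type) [Field F] where
  /-- the first coordinate -/
  x : F
  /-- the second coordinate -/
  w : F
  /-- the third coordinate -/
  y : F
  ne : x ≠ 0 ∨ w ≠ 0
  eq : (D : F) * y ^ m = hom f x w

/-- An adelic point of the curve `C_D`. -/
structure AdelicPoint (f : ℤ[X]) (m : ℕ) (D : ℤ) where
  /-- the real component -/
  re : Point f m D ℝ
  /-- the `p`-adic components -/
  pa : ∀ p : Nat.Primes, Point f m D ℚ_[(p : ℕ)]

/-- The invertible element `a` of `F[X]/(f)` is a value of `x - θ w` at the point `P`: it is equal to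
`ξ = x - θ w` in all components in which `ξ` does not vanish, and `lc(f) * N(a)` is `D` times a `q`-th power
(as for all other points).  If `ξ` vanishes in one component (which is the case at a branch point), this
component of `a` is determined up to `q`-th powers by this condition. -/
def IsValue (q : ℕ) {f : ℤ[X]} {m : ℕ} {D : ℤ} {F : Type} [Field F] (P : Point f m D F)
    (a : (Alg f F)ˣ) : Prop :=
  cl f F (C P.x - C P.w * X) * ((a : Alg f F) - cl f F (C P.x - C P.w * X)) = 0 ∧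
    ∃ z : F, (f.leadingCoeff : F) * Algebra.norm F (a : Alg f F) = D * z ^ q

/-- `u` is a unit of the ring `ℤ_p[θ]`. -/
def IsUnitAt (f : ℤ[X]) (p : ℕ) [Fact p.Prime] (u : (Alg f ℚ_[p])ˣ) : Prop :=
  ∃ h h' : ℤ_[p][X], (u : Alg f ℚ_[p]) = cl f ℚ_[p] (h.map (algebraMap ℤ_[p] ℚ_[p])) ∧
    ((u⁻¹ : (Alg f ℚ_[p])ˣ) : Alg f ℚ_[p]) = cl f ℚ_[p] (h'.map (algebraMap ℤ_[p] ℚ_[p]))

/-- The characters of order dividing `q` (odd) of the idele class group of `L = ℚ[X]/(f)` which are trivial on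
the ideles of `ℚ`, given by their components on `(ℚ_p[X]/(f))^*` (the archimedean components are trivial). -/
structure IdeleCharacter (f : ℤ[X]) (q : ℕ) where
  /-- the component at `p` -/
  loc : ∀ p : Nat.Primes, (Alg f ℚ_[(p : ℕ)])ˣ →* Multiplicative (ZMod q)
  /-- all components are continuous -/
  cont : ∀ p : Nat.Primes, ∃ N : ℕ, ∀ (u : (Alg f ℚ_[(p : ℕ)])ˣ) (h : ℤ_[(p : ℕ)][X]),
    h.natDegree < f.natDegree → (u : Alg f ℚ_[(p : ℕ)]) =
      cl f ℚ_[(p : ℕ)] (1 + C (((p : ℕ) : ℚ_[(p : ℕ)]) ^ N) * h.map (algebraMap ℤ_[(p : ℕ)] ℚ_[(p : ℕ)])) →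
    loc p u = 1
  /-- almost all components are trivial on the local units -/
  unr : ∃ B : ℕ, B ≠ 0 ∧ ∀ p : Nat.Primes, ¬ (p : ℕ) ∣ B → ∀ u : (Alg f ℚ_[(p : ℕ)])ˣ,
    IsUnitAt f (p : ℕ) u → loc p u = 1
  /-- the character is trivial on the ideles of `ℚ` -/
  rat : ∀ (p : Nat.Primes) (c : (ℚ_[(p : ℕ)])ˣ),
    loc p (Units.map (algebraMap ℚ_[(p : ℕ)] (Alg f ℚ_[(p : ℕ)])).toMonoidHom c) = 1
  /-- the character is trivial on `L^*` -/
  glob : ∀ (g : ℚ[X]) (u : ∀ p : Nat.Primes, (Alg f ℚ_[(p : ℕ)])ˣ),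
    (∀ p : Nat.Primes, (u p : Alg f ℚ_[(p : ℕ)]) = cl f ℚ_[(p : ℕ)] (g.map (Rat.castHom ℚ_[(p : ℕ)]))) →
    ∏ᶠ p, loc p (u p) = 1

open Classical in
/-- The local invariant of `A_χ` at a point over `ℚ_p`. -/
noncomputable def inv {f : ℤ[X]} {q m : ℕ} {D : ℤ} (χ : IdeleCharacter f q) (p : Nat.Primes)
    (P : Point f m D ℚ_[(p : ℕ)]) : Multiplicative (ZMod q) :=
  if h : ∃ a, IsValue q P a then χ.loc p (Classical.choose h) else 1

/-- The adelic point is orthogonal to the classes `A_χ`: the sum of the local invariants (almost all are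
trivial) is zero. -/
def Orthogonal (q : ℕ) {f : ℤ[X]} {m : ℕ} {D : ℤ} (P : AdelicPoint f m D) : Prop :=
  ∀ χ : IdeleCharacter f q, ∏ᶠ p : Nat.Primes, inv χ p (P.pa p) = 1

/-- The point over `F` given by a rational point. -/
noncomputable def Point.base {f : ℤ[X]} {m : ℕ} {D : ℤ} (Q : Point f m D ℚ) (F : Type) [Field F]
    [CharZero F] : Point f m D F where
  x := Q.x
  w := Q.w
  y := Q.y
  ne := by
    rcases Q.ne with h | h
    · left; exact_mod_cast h
    · right; exact_mod_cast h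
  eq := by
    have h := congrArg (fun q : ℚ => (q : F)) Q.eq
    simp only [hom] at h ⊢
    push_cast at h
    exact h

/-- The adelic point given by a rational point. -/
noncomputable def Point.adelic {f : ℤ[X]} {m : ℕ} {D : ℤ} (Q : Point f m D ℚ) :
    AdelicPoint f m D where
  re := Q.base ℝ
  pa := fun p => Q.base ℚ_[(p : ℕ)]

/-- The primes `l ≤ X` modulo which `f` has a zero. -/
def rootPrimes (f : ℤ[X]) (X : ℝ) : Set ℕ :=
  {l : ℕ | l.Prime ∧ (l : ℝ) ≤ X ∧ ∃ r : ℤ, (l : ℤ) ∣ f.eval r}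

/-- The number of the squarefree `D` with `|D| ≤ X` and the property `P`. -/
noncomputable def count (P : ℤ → Prop) (X : ℝ) : ℕ :=
  {D : ℤ | Squarefree D ∧ |(D : ℝ)| ≤ X ∧ P D}.ncard

/-- Any two different complex zeros of `f` generate a field that contains the `q`-th roots of unity.
(Examples: `f = a X ^ n + b`, `n` a power of `q`; and all `f` such that `ℚ[X]/(f)` contains the `q`-th roots
of unity.) -/
def RootsOfUnityCondition (f : ℤ[X]) (q : ℕ) : Prop :=
  ∀ x y : ℂ, aeval x f = 0 → aeval y f = 0 → x ≠ y →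
    ∃ ζ ∈ IntermediateField.adjoin ℚ ({x, y} : Set ℂ), IsPrimitiveRoot ζ q

end Pool.Agent.Q51.SE
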