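import Pool.Agent.Q51.SE.Res2

/-! # Project SE: from an everywhere locally soluble covering to an orthogonal adelic point -/

set_option autoImplicit false

namespace Pool.Agent.Q51.SE

open Polynomial Finset

/-- replacing `g` by an invertible element -/
lemma invertible_of {F : Type} [Field F] {φ lin d g : F[X]} (hφ : φ.Separable) {q : ℕ} (hq : q ≠ 0)
    (h : φ ∣ lin - d * g ^ q) :
    ∃ g' : F[X], IsCoprime φ g' ∧ φ ∣ lin * (d * g' ^ q - lin) := by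
  classical
  obtain ⟨k, hk⟩ := EuclideanDomain.gcd_dvd_left φ g
  obtain ⟨g1, hg1⟩ := EuclideanDomain.gcd_dvd_right φ g
  set h0 := EuclideanDomain.gcd φ g
  have hφ0 : φ ≠ 0 := hφ.ne_zero
  have hk0 : k ≠ 0 := by
    rintro rfl
    exact hφ0 (by rw [hk, mul_zero])
  have hh0 : h0 ≠ 0 := by
    intro h'
    exact hφ0 (by rw [hk, h', zero_mul])
  have hsep : IsCoprime h0 k := by
    have := hφ
    rw [hk] at this
    exact this.isCoprime
  have hkg : IsCoprime k g := by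
    refine isCoprime_of_prime_dvd (fun h' => hk0 h'.1) ?_
    intro p hp hpk hpg
    have h1 : p ∣ h0 := EuclideanDomain.dvd_gcd (hpk.trans ⟨h0, by rw [hk, mul_comm]⟩) hpg
    exact hp.not_isUnit (hsep.isUnit_of_dvd' h1 hpk)
  obtain ⟨u, v, huv⟩ := hsep
  refine ⟨g + v * k, ?_, ?_⟩
  · have e1 : IsCoprime h0 (g + v * k) := by
      refine ⟨u - g1, 1, ?_⟩
      linear_combination huv + hg1
    have e2 : IsCoprime k (g + v * k) := hkg.add_mul_right_right v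
    rw [hk]
    exact e1.mul_left e2
  · have e1 : h0 ∣ lin := by
      have h1 : h0 ∣ lin - d * g ^ q := (EuclideanDomain.gcd_dvd_left φ g).trans h
      have h2 : h0 ∣ d * g ^ q := ((EuclideanDomain.gcd_dvd_right φ g).trans
        (dvd_pow_self g hq)).mul_left d
      have := dvd_add h1 h2
      rwa [sub_add_cancel] at this
    have e2 : k ∣ d * (g + v * k) ^ q - lin := by
      have h1 : k ∣ lin - d * g ^ q := (show k ∣ φ from ⟨h0, by rw [hk, mul_comm]⟩).trans h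
      have h2 : k ∣ (g + v * k) ^ q - g ^ q := by
        refine (show k ∣ (g + v * k) - g from ⟨v, by ring⟩).trans (sub_dvd_pow_sub_pow _ _ q)
      have h3 := dvd_sub (h2.mul_left d) h1
      have e : d * ((g + v * k) ^ q - g ^ q) - (lin - d * g ^ q) = d * (g + v * k) ^ q - lin := by
        ring
      rwa [e] at h3
    have e : φ ∣ lin * (d * (g + v * k) ^ q - lin) := by
      rw [hk]
      exact mul_dvd_mul e1 e2
    exact e

theorem orth_of_cov (hval : S_VAL) {f : ℤ[X]} (hf : Irreducible (f.map (Int.castRingHom ℚ)))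
    {q m : ℕ} (hq : q.Prime) (hqm : q ∣ m) {D : ℤ} (hD : D ≠ 0) (d : ℚ[X])
    (hd : IsCoprime (f.map (Int.castRingHom ℚ)) d)
    (hN : ∃ z : ℚ, (f.leadingCoeff : ℚ) *
      Algebra.norm ℚ (AdjoinRoot.mk (f.map (Int.castRingHom ℚ)) d) = D * z ^ q)
    (hre : ∃ x w y : ℝ, (x ≠ 0 ∨ w ≠ 0) ∧ (D : ℝ) * y ^ m = hom f x w)
    (hp : ∀ p : Nat.Primes, ∃ (x w y : ℚ_[(p : ℕ)]) (g : ℚ_[(p : ℕ)][X]), (x ≠ 0 ∨ w ≠ 0) ∧
      (D : ℚ_[(p : ℕ)]) * y ^ m = hom f x w ∧ f.map (Int.castRingHom ℚ_[(p : ℕ)]) ∣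
        C x - C w * X - d.map (Rat.castHom ℚ_[(p : ℕ)]) * g ^ q) :
    ∃ P : AdelicPoint f m D, Orthogonal q P := by
  choose x w y g h1 h2 h3 using hp
  obtain ⟨x0, w0, y0, h01, h02⟩ := hre
  obtain ⟨z, hz⟩ := hN
  let P : AdelicPoint f m D := ⟨⟨x0, w0, y0, h01, h02⟩, fun p => ⟨x p, w p, y p, h1 p, h2 p⟩⟩
  have hbc := fun p : Nat.Primes => Pool.Agent.Q247.EB.bc f hf ℚ_[(p : ℕ)] d
  have hg : ∀ p : Nat.Primes, ∃ g' : ℚ_[(p : ℕ)][X],
      IsCoprime (f.map (Int.castRingHom ℚ_[(p : ℕ)])) g' ∧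
      f.map (Int.castRingHom ℚ_[(p : ℕ)]) ∣ (C (x p) - C (w p) * X) *
        (d.map (Rat.castHom ℚ_[(p : ℕ)]) * g' ^ q - (C (x p) - C (w p) * X)) := fun p =>
    invertible_of (hbc p).2.2.2.1 hq.ne_zero (h3 p)
  choose g' h4 h5 using hg
  have toUnit : ∀ (p : Nat.Primes) (a : ℚ_[(p : ℕ)][X]),
      IsCoprime (f.map (Int.castRingHom ℚ_[(p : ℕ)])) a →
      ∃ u : (Alg f ℚ_[(p : ℕ)])ˣ, (u : Alg f ℚ_[(p : ℕ)]) = cl f ℚ_[(p : ℕ)] a := by
    intro p a ha
    obtain ⟨r, s, hrs⟩ := ha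
    have hu : IsUnit (cl f ℚ_[(p : ℕ)] a) := by
      refine IsUnit.of_mul_eq_one (cl f ℚ_[(p : ℕ)] s) ?_
      have h2 := congrArg (AdjoinRoot.mk (f.map (Int.castRingHom ℚ_[(p : ℕ)]))) hrs
      rw [map_add, map_mul, map_mul, AdjoinRoot.mk_self, mul_zero, zero_add, map_one] at h2
      rw [mul_comm]
      exact h2
    exact ⟨hu.unit, IsUnit.unit_spec hu⟩
  choose U hU using fun p : Nat.Primes => toUnit p _ ((hbc p).2.2.1 hd)
  choose V hV using fun p : Nat.Primes => toUnit p _ (h4 p)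
  have hval' : ∀ p : Nat.Primes, IsValue q (P.pa p) (U p * V p ^ q) := by
    intro p
    refine ⟨?_, (z : ℚ_[(p : ℕ)]) * Algebra.norm ℚ_[(p : ℕ)] (cl f ℚ_[(p : ℕ)] (g' p)), ?_⟩
    · rw [Units.val_mul, Units.val_pow_eq_pow_val, hU, hV]
      unfold cl
      rw [← map_pow, ← map_mul, ← map_sub, ← map_mul]
      exact AdjoinRoot.mk_eq_zero.mpr (h5 p)
    · rw [Units.val_mul, Units.val_pow_eq_pow_val, hU, hV, map_mul, map_pow]
      have h6 := (hbc p).1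
      have h7 := congrArg (fun t : ℚ => (t : ℚ_[(p : ℕ)])) hz
      simp only [Rat.cast_mul, Rat.cast_pow, Rat.cast_intCast] at h7
      have h8 : Algebra.norm ℚ_[(p : ℕ)] (cl f ℚ_[(p : ℕ)] (d.map (Rat.castHom ℚ_[(p : ℕ)]))) =
          ((Algebra.norm ℚ (AdjoinRoot.mk (f.map (Int.castRingHom ℚ)) d) : ℚ) : ℚ_[(p : ℕ)]) := by
        rw [← h6]
        rfl
      rw [h8, ← mul_assoc, h7, mul_pow, mul_assoc]
  refine ⟨P, fun χ => ?_⟩
  have hinv : ∀ p : Nat.Primes, inv χ p (P.pa p) = χ.loc p (U p) := by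
    intro p
    rw [(welldef_of hval hf hq hqm hD p (P.pa p)).2 _ (hval' p) χ, map_mul, map_pow, mpow, mul_one]
  rw [finprod_congr hinv]
  exact χ.glob d U hU

end Pool.Agent.Q51.SE
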