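import Pool.Agent.Q51.SE.Stm
import Pool.Agent.Q51.EL.Main

/-! # Project SE: assembly of the upper bound -/

set_option autoImplicit false

namespace Pool.Agent.Q51.SE

open Polynomial NumberField IsDedekindDomain Finset
open Pool.Agent.Q51.EL (Abv N1 pr GN Gf Setup Ty1)

/-- the absolute value of a squarefree integer is determined by its class modulo `q`-th powers -/
lemma sqf_abs {q : ℕ} (hq : 2 ≤ q) {D D' : ℤ} (h : Squarefree D) (h' : Squarefree D') {z z' : ℚ}
    (h0 : z ≠ 0) (hz : (D : ℚ) * z ^ q = D' * z' ^ q) : D.natAbs = D'.natAbs := by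
  have hD0 : D ≠ 0 := h.ne_zero
  have hD0' : D' ≠ 0 := h'.ne_zero
  have h0' : z' ≠ 0 := by
    rintro rfl
    rw [zero_pow (by omega), mul_zero] at hz
    exact mul_ne_zero (by exact_mod_cast hD0) (pow_ne_zero _ h0) hz
  have hd := Int.squarefree_natAbs.mpr h
  have hd' := Int.squarefree_natAbs.mpr h'
  have hval : ∀ p : ℕ, p.Prime → padicValInt p D = padicValInt p D' := by
    intro p hp
    have : Fact p.Prime := ⟨hp⟩
    have h1 := congrArg (padicValRat p) hz
    rw [padicValRat.mul (by exact_mod_cast hD0) (pow_ne_zero _ h0),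
      padicValRat.mul (by exact_mod_cast hD0') (pow_ne_zero _ h0'), padicValRat.pow,
      padicValRat.pow, padicValRat.of_int, padicValRat.of_int] at h1
    have e1 : padicValInt p D ≤ 1 := by
      rw [padicValInt, ← Nat.factorization_def _ hp]
      exact (Nat.squarefree_iff_factorization_le_one hd.ne_zero).mp hd p
    have e2 : padicValInt p D' ≤ 1 := by
      rw [padicValInt, ← Nat.factorization_def _ hp]
      exact (Nat.squarefree_iff_factorization_le_one hd'.ne_zero).mp hd' p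
    have h2 : (q : ℤ) ∣ (padicValInt p D : ℤ) - padicValInt p D' :=
      ⟨padicValRat p z' - padicValRat p z, by linarith⟩
    have h3 := Int.eq_zero_of_abs_lt_dvd h2 (by
      rw [abs_lt]
      have : (2 : ℤ) ≤ q := by exact_mod_cast hq
      constructor <;> omega)
    omega
  apply Nat.eq_of_factorization_eq hd.ne_zero hd'.ne_zero
  intro p
  by_cases hp : p.Prime
  · rw [Nat.factorization_def _ hp, Nat.factorization_def _ hp]
    exact hval p hp
  · rw [Nat.factorization_eq_zero_of_not_prime _ hp, Nat.factorization_eq_zero_of_not_prime _ hp]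

theorem upq_of (hcore : S_COREQ) (hty : S_TYQ) (hzeta : S_ZETA) (hdesc : S_DESCQ) (hval : S_VAL)
    (hfinp : S_FINP) (hdual : S_DUAL) (hcov : S_COVQ) (hap : S_APQ) (hnv : S_NVAL)
    (hgg : Pool.Agent.Q51.EL.S_GG) : S_UPQ := by
  classical
  intro f q m hf hq hq2 hqm hmn hrou
  have : Fact (Irreducible (f.map (Int.castRingHom ℚ))) := ⟨hf⟩
  set L := AdjoinRoot (f.map (Int.castRingHom ℚ)) with hL
  have hfd : FiniteDimensional ℚ L := PowerBasis.finite (AdjoinRoot.powerBasis hf.ne_zero)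
  have : CharZero L := algebraRat.charZero L
  have : NumberField L := { to_charZero := inferInstance, to_finiteDimensional := hfd }
  set θ : L := AdjoinRoot.root (f.map (Int.castRingHom ℚ)) with hθ
  have hnd : (f.map (Int.castRingHom ℚ)).natDegree = f.natDegree :=
    natDegree_map_eq_of_injective (Int.castRingHom ℚ).injective_int f
  have hset : Setup f L θ := by
    refine ⟨hf, ?_, ?_⟩
    · have h1 := AdjoinRoot.eval₂_root (f.map (Int.castRingHom ℚ))
      rw [eval₂_map] at h1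
      rw [aeval_def, ← h1]
      congr 1
    · rw [(AdjoinRoot.powerBasis hf.ne_zero).finrank, AdjoinRoot.powerBasis_dim, hnd]
  have haev : ∀ d : ℚ[X], aeval θ d = AdjoinRoot.mk (f.map (Int.castRingHom ℚ)) d := by
    intro d; rw [hθ]; exact AdjoinRoot.aeval_eq d
  have hint : IsIntegral ℤ ((f.leadingCoeff : L) * θ) := by
    have h1 : IsIntegral ℤ (f.leadingCoeff • θ) := isIntegral_leadingCoeff_smul f θ hset.root
    rwa [zsmul_eq_mul] at h1
  set t : 𝓞 L := ⟨(f.leadingCoeff : L) * θ, hint⟩ with ht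
  have hf0 : f ≠ 0 := by
    rintro rfl
    exact hf.ne_zero (by simp)
  have hlc : f.leadingCoeff ≠ 0 := leadingCoeff_ne_zero.mpr hf0
  have hnpos : 0 < f.natDegree := by
    rw [← hnd]; exact hf.natDegree_pos
  have hqn : q ∣ f.natDegree := hqm.trans hmn
  have hq3 : 3 ≤ q := by
    have := hq.two_le
    omega
  have hn3 : 3 ≤ f.natDegree := hq3.trans (Nat.le_of_dvd hnpos hqn)
  set B0 : ℕ := f.leadingCoeff.natAbs with hB0
  have hB00 : B0 ≠ 0 := Int.natAbs_ne_zero.mpr hlc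
  obtain ⟨B1, C1, hB1, hC1, -, hD⟩ := hdesc f L θ hset q hq hq2 hqn t rfl B0 hB00
  obtain ⟨B2, hB2, hzeta⟩ := hzeta f q hq hrou L θ hset
  obtain ⟨c, C2, hc, hcore⟩ := hcore L q hq hq2 (by rw [hset.deg]; exact hqn) (B1 * B2)
    (mul_ne_zero hB1 hB2)
  obtain ⟨C3, hC3⟩ := hgg f L θ hset
  have hα : ∀ D : ℤ, Squarefree D → (∃ P : AdelicPoint f m D, Orthogonal q P) →
      ∃ α : 𝓞 L, α ≠ 0 ∧ Goodq q B1 t α ∧
      (∃ z : ℚ, (f.leadingCoeff : ℚ) * Algebra.norm ℚ (α : L) = D * z ^ q) ∧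
      ∀ σ : L →+* ℂ, ‖σ (α : L)‖ ≤ C1 * (D.natAbs : ℝ) ^ ((1 : ℝ) / f.natDegree) := by
    rintro D hDs ⟨P, hP⟩
    have hD0 : D ≠ 0 := hDs.ne_zero
    have hex : ∀ p : Nat.Primes, ∃ a, IsValue q (P.pa p) a := fun p =>
      (hval f hf q m D hq.pos hqm hD0 ℚ_[(p : ℕ)] (P.pa p)).1
    set a : ∀ p : Nat.Primes, (Alg f ℚ_[(p : ℕ)])ˣ := fun p => Classical.choose (hex p) with ha
    have haV : ∀ p : Nat.Primes, IsValue q (P.pa p) (a p) := fun p => Classical.choose_spec (hex p)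
    obtain ⟨B4, hB4, hfin⟩ := hfinp f hf q m D hq hqm hqn hD0
    have horth : ∀ χ : IdeleCharacter f q, ∏ᶠ p : Nat.Primes, χ.loc p (a p) = 1 := by
      intro χ
      rw [← hP χ]
      apply finprod_congr
      intro p
      unfold inv
      rw [dif_pos (hex p)]
    obtain ⟨d, hcop, hd⟩ := hdual f hf q hq a B4 (D.natAbs * B0) hB4
      (mul_ne_zero (Int.natAbs_ne_zero.mpr hD0) hB00)
      (fun p hp => hfin (p : ℕ) hp (P.pa p) (a p) (haV p)) horth
    have hδ0 : aeval θ d ≠ 0 := by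
      rw [haev]
      intro h0
      rw [AdjoinRoot.mk_eq_zero] at h0
      exact hf.not_isUnit (hcop.isUnit_of_dvd' dvd_rfl h0)
    refine hD D (aeval θ d) hDs hδ0 ?_ ?_
    · intro p hp
      have hpf : Fact p.Prime := ⟨hp⟩
      obtain ⟨c, g, u, h1, h2, h3⟩ := hd ⟨p, hp⟩
      obtain ⟨z, hz⟩ := (haV ⟨p, hp⟩).2
      rw [haev]
      refine hnv f hf q D hq hqn hD0 p (a ⟨p, hp⟩) z hz d c g u ?_ h3
      by_cases hpB : p ∣ D.natAbs * B0
      · exact Or.inr (h2 hpB)
      · left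
        refine ⟨fun h => hpB (Dvd.dvd.mul_left (Int.natCast_dvd.mp h) _), h1 hpB⟩
    · intro l hl hlB
      have hlf : Fact l.Prime := ⟨hl⟩
      obtain ⟨c, g, u, h1, h2, h3⟩ := hd ⟨l, hl⟩
      have hll : ¬ (l : ℤ) ∣ f.leadingCoeff := fun h => hlB (Int.natCast_dvd.mp h)
      have hu : IsUnitAt f l u := by
        by_cases hpB : l ∣ D.natAbs * B0
        · refine ⟨1, 1, ?_, ?_⟩
          · rw [h2 hpB]; simp [cl]
          · rw [h2 hpB]; simp [cl]
        · exact h1 hpB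
      obtain ⟨x, w, g1, h, h', e1, e2, e3, e4⟩ := hcov f hf q m D hq.pos l (P.pa ⟨l, hl⟩)
        (a ⟨l, hl⟩) (haV ⟨l, hl⟩) d c g u hu h3
      obtain ⟨η, f1, f2, f3⟩ := hap f L θ hset q hq.pos l hll d x w g1 h h' e1 e2 e3 (2 * q)
      refine ⟨⟨η, f1, f3⟩, fun hlD => ?_⟩
      have hh1 : h = 1 := e4 (h2 (Dvd.dvd.mul_right (Int.natCast_dvd.mp hlD) _))
      rw [← f2 hh1]
      exact f3
  choose! A hA0 hAG hAz hAσ using hα
  have hn0 : (0 : ℝ) < f.natDegree := by exact_mod_cast hnpos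
  set K : ℝ := max C1 3 with hK
  have hK3 : 3 ≤ K := le_max_right _ _
  refine ⟨K, 2 * max C2 0, C3, c, by linarith, by positivity, hc, ?_⟩
  intro X hX
  set Y : ℝ := K * X ^ ((1 : ℝ) / f.natDegree) with hY
  have hX1 : 1 ≤ X ^ ((1 : ℝ) / f.natDegree) := Real.one_le_rpow (by linarith) (by positivity)
  have hY3 : 3 ≤ Y := by nlinarith
  have hlY : 0 < Real.log Y := Real.log_pos (by linarith)
  obtain ⟨hfin, hcard⟩ := hcore {α | Goodq q B1 t α} (fun l hl hlB =>
    ⟨(hty L q B1 t l hl (fun h => hlB (Dvd.dvd.mul_right h _))).1,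
      (hty L q B1 t l hl (fun h => hlB (Dvd.dvd.mul_right h _))).2,
      hzeta l hl (fun h => hlB (Dvd.dvd.mul_left h _))⟩) Y hY3
  set E : Set ℤ := {D : ℤ | Squarefree D ∧ |(D : ℝ)| ≤ X ∧
    ∃ P : AdelicPoint f m D, Orthogonal q P} with hE
  have hEfin : E.Finite := by
    apply (Pool.Agent.Q51.EL.fin_sq X (fun _ => True)).subset
    rintro D ⟨-, h2, -⟩
    refine ⟨?_, trivial⟩
    rw [Nat.cast_natAbs, Int.cast_abs]
    exact h2
  have hmaps : ∀ D ∈ E, A D ∈ {β ∈ {α | Goodq q B1 t α} | ∀ σ : L →+* ℂ, ‖σ (β : L)‖ ≤ Y} := by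
    rintro D ⟨h1, h2, h3⟩
    refine ⟨hAG D h1 h3, fun σ => (hAσ D h1 h3 σ).trans ?_⟩
    rw [hY]
    have h4 : (D.natAbs : ℝ) ≤ X := by
      rw [Nat.cast_natAbs, Int.cast_abs]
      exact h2
    apply mul_le_mul (le_max_left _ _) _ (by positivity) (by positivity)
    exact Real.rpow_le_rpow (by positivity) h4 (by positivity)
  have habs : ∀ D ∈ E, ∀ D' ∈ E, A D = A D' → D.natAbs = D'.natAbs := by
    rintro D ⟨h1, h2, h3⟩ D' ⟨h1', h2', h3'⟩ hAA
    obtain ⟨z, hz⟩ := hAz D h1 h3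
    obtain ⟨z', hz'⟩ := hAz D' h1' h3'
    have hz0 : z ≠ 0 := by
      rintro rfl
      rw [zero_pow hq.ne_zero, mul_zero] at hz
      have h5 : (A D : L) ≠ 0 := by exact_mod_cast hA0 D h1 h3
      exact mul_ne_zero (by exact_mod_cast hlc) (Algebra.norm_ne_zero_iff.mpr h5) hz
    refine sqf_abs hq.two_le h1 h1' hz0 (z' := z') ?_
    rw [← hz, ← hz', hAA]
  have hhalf : ∀ s : Bool, ({D ∈ E | decide (0 < D) = s}.ncard : ℝ) ≤
      ({β ∈ {α | Goodq q B1 t α} | ∀ σ : L →+* ℂ, ‖σ (β : L)‖ ≤ Y}.ncard : ℝ) := by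
    intro s
    have : {D ∈ E | decide (0 < D) = s}.ncard ≤
        {β ∈ {α | Goodq q B1 t α} | ∀ σ : L →+* ℂ, ‖σ (β : L)‖ ≤ Y}.ncard := by
      apply Set.ncard_le_ncard_of_injOn A _ _ hfin
      · rintro D ⟨h1, -⟩
        exact hmaps D h1
      · rintro D ⟨h1, h2⟩ D' ⟨h1', h2'⟩ hAA
        have h3 := habs D h1 D' h1' hAA
        have h8 := h1.1.ne_zero
        have h9 := h1'.1.ne_zero
        have h10 : (0 < D ↔ 0 < D') := by
          have := h2.trans h2'.symm
          simpa using this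
        rcases Int.natAbs_eq_natAbs_iff.mp h3 with h | h
        · exact h
        · omega
    exact_mod_cast this
  have hsplit : (E.ncard : ℝ) ≤ ({D ∈ E | decide (0 < D) = true}.ncard : ℝ) +
      ({D ∈ E | decide (0 < D) = false}.ncard : ℝ) := by
    have h1 : E = {D ∈ E | decide (0 < D) = true} ∪ {D ∈ E | decide (0 < D) = false} := by
      ext D
      simp only [Set.mem_union, Set.mem_ofPred_eq]
      cases decide (0 < D) <;> simp
    have h2 : E.ncard ≤ {D ∈ E | decide (0 < D) = true}.ncard +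
        {D ∈ E | decide (0 < D) = false}.ncard := by
      conv_lhs => rw [h1]
      exact Set.ncard_union_le _ _
    exact_mod_cast h2
  have hGN : GN L Y ≤ Gf f Y + C3 := hC3 Y
  have hcard' : ({β ∈ {α | Goodq q B1 t α} | ∀ σ : L →+* ℂ, ‖σ (β : L)‖ ≤ Y}.ncard : ℝ) ≤
      (max C2 0) * Y ^ f.natDegree * Real.exp (Gf f Y + C3) * Real.log Y ^ (-(1 + c)) := by
    refine hcard.trans ?_
    rw [hset.deg]
    gcongr
    exact le_max_left _ _
  have hE2 : (count (fun D => ∃ P : AdelicPoint f m D, Orthogonal q P) X : ℝ) = (E.ncard : ℝ) := rfl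
  rw [hE2]
  calc (E.ncard : ℝ) ≤ _ := hsplit
    _ ≤ (max C2 0) * Y ^ f.natDegree * Real.exp (Gf f Y + C3) * Real.log Y ^ (-(1 + c)) +
      (max C2 0) * Y ^ f.natDegree * Real.exp (Gf f Y + C3) * Real.log Y ^ (-(1 + c)) :=
        add_le_add ((hhalf true).trans hcard') ((hhalf false).trans hcard')
    _ = _ := by ring

end Pool.Agent.Q51.SE
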