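import Pool.Agent.Q51.SE.Res2

/-!
# Project SE: the definitions with polynomials

The elements of `F[X]/(f)` are given by polynomials over `F`, the invertible ones by polynomials prime to `f`.
(`Point`, `AdelicPoint`, `hom`, `count`, `rootPrimes` and `RootsOfUnityCondition` are those of
`Pool/Agent/Q51/SE/Def.lean`.)
-/

set_option autoImplicit false

namespace Pool.Agent.Q51.SE

open Polynomial Finset

/-- `f` as a polynomial over `F`. -/
noncomputable abbrev polOver (f : ℤ[X]) (F : Type) [Field F] : F[X] := f.map (Int.castRingHom F)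

/-- The norm from `F[X]/(f)` to `F` of the element `a(θ)`. -/
noncomputable def polNorm (f : ℤ[X]) {F : Type} [Field F] (a : F[X]) : F :=
  Algebra.norm F (AdjoinRoot.mk (polOver f F) a)

/-- The polynomial `x - X w`, which gives the element `ξ = x - θ w` at the point `P = (x : y : w)`. -/
noncomputable def Point.lin {f : ℤ[X]} {m : ℕ} {D : ℤ} {F : Type} [Field F] (P : Point f m D F) :
    F[X] :=
  C P.x - C P.w * X

/-- The element `a(θ)` of `F[X]/(f)` is a value of `ξ = x - θ w` at the point `P`: it is invertible, it is equal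
to `ξ` in all components in which `ξ` does not vanish, and `lc(f) * N(a(θ))` is `D` times a `q`-th power (as for
all other points).  If `ξ` vanishes in one component (which is the case at a branch point), this component of
`a(θ)` is determined up to `q`-th powers by this condition. -/
def Point.Val (q : ℕ) {f : ℤ[X]} {m : ℕ} {D : ℤ} {F : Type} [Field F] (P : Point f m D F)
    (a : F[X]) : Prop :=
  IsCoprime (polOver f F) a ∧ polOver f F ∣ P.lin * (a - P.lin) ∧
    ∃ z : F, (f.leadingCoeff : F) * polNorm f a = D * z ^ q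

/-- A homomorphism from the group `(F[X]/(f))^*` to `ℤ/q`; the value at `a(θ)` is `val a`. -/
structure LocalCharacter (f : ℤ[X]) (q : ℕ) (F : Type) [Field F] where
  /-- the value at `a(θ)` -/
  val : F[X] → ZMod q
  congr : ∀ a b : F[X], polOver f F ∣ a - b → val a = val b
  mul : ∀ a b : F[X], IsCoprime (polOver f F) a → IsCoprime (polOver f F) b →
    val (a * b) = val a + val b

/-- The character is trivial on `F^*`. -/
def LocalCharacter.TrivialOnBase {f : ℤ[X]} {q : ℕ} {F : Type} [Field F]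
    (χ : LocalCharacter f q F) : Prop :=
  ∀ c : F, c ≠ 0 → χ.val (C c) = 0

/-- The value of a character of `(ℚ_p[X]/(f))^*` at `h(θ)`, where `h` has coefficients in `ℤ_p`. -/
noncomputable def LocalCharacter.atInt {f : ℤ[X]} {q : ℕ} {p : Nat.Primes}
    (χ : LocalCharacter f q ℚ_[(p : ℕ)]) (h : ℤ_[(p : ℕ)][X]) : ZMod q :=
  χ.val (h.map (algebraMap ℤ_[(p : ℕ)] ℚ_[(p : ℕ)]))

/-- The value of a character of `(ℚ_p[X]/(f))^*` at `g(θ)`, where `g` has coefficients in `ℚ`. -/
noncomputable def LocalCharacter.atRat {f : ℤ[X]} {q : ℕ} {p : Nat.Primes}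
    (χ : LocalCharacter f q ℚ_[(p : ℕ)]) (g : ℚ[X]) : ZMod q :=
  χ.val (g.map (Rat.castHom ℚ_[(p : ℕ)]))

/-- The character is continuous: for some `N` it is trivial at all `1 + p ^ N * h(θ)`, where `h` has
coefficients in `ℤ_p` and degree less than `deg f`. -/
def LocalCharacter.Continuous {f : ℤ[X]} {q : ℕ} {p : Nat.Primes}
    (χ : LocalCharacter f q ℚ_[(p : ℕ)]) : Prop :=
  ∃ N : ℕ, ∀ h : ℤ_[(p : ℕ)][X], h.natDegree < f.natDegree → χ.atInt (1 + (p : ℕ) ^ N * h) = 0

/-- The character is trivial on the units of the ring `ℤ_p[θ]`. -/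
def LocalCharacter.Unramified {f : ℤ[X]} {q : ℕ} {p : Nat.Primes}
    (χ : LocalCharacter f q ℚ_[(p : ℕ)]) : Prop :=
  ∀ h h' : ℤ_[(p : ℕ)][X],
    polOver f ℚ_[(p : ℕ)] ∣ (h * h' - 1).map (algebraMap ℤ_[(p : ℕ)] ℚ_[(p : ℕ)]) → χ.atInt h = 0

/-- The characters of order dividing `q` (odd) of the idele class group of `L = ℚ[X]/(f)` which are trivial on
the ideles of `ℚ`, given by their components on `(ℚ_p[X]/(f))^*` (the archimedean components are trivial). -/
structure ClassCharacter (f : ℤ[X]) (q : ℕ) where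
  /-- the component at `p` -/
  loc : ∀ p : Nat.Primes, LocalCharacter f q ℚ_[(p : ℕ)]
  /-- all components are continuous -/
  cont : ∀ p : Nat.Primes, (loc p).Continuous
  /-- almost all components are unramified -/
  unr : ∃ B : ℕ, B ≠ 0 ∧ ∀ p : Nat.Primes, ¬ (p : ℕ) ∣ B → (loc p).Unramified
  /-- the character is trivial on the ideles of `ℚ` -/
  rat : ∀ p : Nat.Primes, (loc p).TrivialOnBase
  /-- the character is trivial on `L^*` (almost all terms of the sum are zero) -/
  glob : ∀ g : ℚ[X], IsCoprime (polOver f ℚ) g → ∑ᶠ p : Nat.Primes, (loc p).atRat g = 0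

open Classical in
/-- The local invariant of `A_χ` at a point over `ℚ_p`. -/
noncomputable def ClassCharacter.inv {f : ℤ[X]} {q m : ℕ} {D : ℤ} (χ : ClassCharacter f q)
    (p : Nat.Primes) (P : Point f m D ℚ_[(p : ℕ)]) : ZMod q :=
  if h : ∃ a, P.Val q a then (χ.loc p).val (Classical.choose h) else 0

/-- The adelic point is orthogonal to the classes `A_χ`: the sum of the local invariants (almost all are
zero) is zero. -/
def AdelicPoint.Orthogonal (q : ℕ) {f : ℤ[X]} {m : ℕ} {D : ℤ} (P : AdelicPoint f m D) : Prop :=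
  ∀ χ : ClassCharacter f q, ∑ᶠ p : Nat.Primes, χ.inv p (P.pa p) = 0

/-- The local invariants of the classes `A_χ` at the points over `ℚ_p` are well defined: values exist,
and all of them give the same invariant. -/
def InvariantsWellDefined (f : ℤ[X]) (q m : ℕ) (D : ℤ) (p : Nat.Primes) : Prop :=
  ∀ P : Point f m D ℚ_[(p : ℕ)], (∃ a, P.Val q a) ∧
    ∀ a, P.Val q a → ∀ χ : ClassCharacter f q, χ.inv p P = (χ.loc p).val a

/-! ## Comparison with the definitions of `Def.lean` -/

section comparison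

variable {f : ℤ[X]} {q : ℕ} {F : Type} [Field F]

lemma unit_iff (a : F[X]) :
    IsUnit (AdjoinRoot.mk (polOver f F) a) ↔ IsCoprime (polOver f F) a := by
  constructor
  · intro h
    obtain ⟨b, hb⟩ := h.exists_left_inv
    obtain ⟨b, rfl⟩ := AdjoinRoot.mk_surjective b
    rw [← map_mul, ← map_one (AdjoinRoot.mk (polOver f F)), AdjoinRoot.mk_eq_mk] at hb
    obtain ⟨c, hc⟩ := hb
    exact ⟨-c, b, by linear_combination hc⟩
  · rintro ⟨r, s, hrs⟩
    refine IsUnit.of_mul_eq_one (AdjoinRoot.mk (polOver f F) s) ?_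
    have h2 := congrArg (AdjoinRoot.mk (polOver f F)) hrs
    rw [map_add, map_mul, map_mul, AdjoinRoot.mk_self, mul_zero, zero_add, map_one] at h2
    rw [mul_comm]
    exact h2

/-- a polynomial representing a unit -/
noncomputable def rep (u : (Alg f F)ˣ) : F[X] := (AdjoinRoot.mk_surjective (u : Alg f F)).choose

lemma mk_rep (u : (Alg f F)ˣ) : AdjoinRoot.mk (polOver f F) (rep u) = u :=
  (AdjoinRoot.mk_surjective (u : Alg f F)).choose_spec

lemma rep_coprime (u : (Alg f F)ˣ) : IsCoprime (polOver f F) (rep u) := by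
  rw [← unit_iff, mk_rep]
  exact u.isUnit

lemma LocalCharacter.val_eq (χ : LocalCharacter f q F) {a b : F[X]}
    (h : AdjoinRoot.mk (polOver f F) a = AdjoinRoot.mk (polOver f F) b) : χ.val a = χ.val b :=
  χ.congr a b (AdjoinRoot.mk_eq_mk.mp h)

/-- the homomorphism of the unit group -/
noncomputable def LocalCharacter.hom (χ : LocalCharacter f q F) :
    (Alg f F)ˣ →* Multiplicative (ZMod q) where
  toFun u := Multiplicative.ofAdd (χ.val (rep u))
  map_one' := by
    have h1 : χ.val (1 * 1) = χ.val 1 + χ.val 1 := χ.mul 1 1 isCoprime_one_right isCoprime_one_right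
    rw [mul_one] at h1
    have h2 : χ.val 1 = 0 := by
      have := h1
      simpa using this
    have h3 : χ.val (rep (1 : (Alg f F)ˣ)) = χ.val 1 := by
      apply χ.val_eq
      rw [mk_rep, map_one, Units.val_one]
    rw [h3, h2, ofAdd_zero]
  map_mul' u v := by
    rw [← ofAdd_add, ← χ.mul _ _ (rep_coprime u) (rep_coprime v)]
    congr 1
    apply χ.val_eq
    rw [mk_rep, map_mul, mk_rep, mk_rep, Units.val_mul]

lemma LocalCharacter.hom_apply (χ : LocalCharacter f q F) (u : (Alg f F)ˣ) {a : F[X]}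
    (h : (u : Alg f F) = AdjoinRoot.mk (polOver f F) a) :
    χ.hom u = Multiplicative.ofAdd (χ.val a) := by
  change Multiplicative.ofAdd (χ.val (rep u)) = _
  congr 1
  apply χ.val_eq
  rw [mk_rep, h]

open Classical in
/-- the character given by a homomorphism of the unit group -/
noncomputable def ofHom (φ : (Alg f F)ˣ →* Multiplicative (ZMod q)) : LocalCharacter f q F where
  val a := if h : IsUnit (AdjoinRoot.mk (polOver f F) a) then Multiplicative.toAdd (φ h.unit) else 0
  congr a b h := by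
    have h1 : AdjoinRoot.mk (polOver f F) a = AdjoinRoot.mk (polOver f F) b :=
      AdjoinRoot.mk_eq_mk.mpr h
    simp only [h1]
  mul a b ha hb := by
    have ha' := (unit_iff a).mpr ha
    have hb' := (unit_iff b).mpr hb
    have hab' : IsUnit (AdjoinRoot.mk (polOver f F) (a * b)) := by
      rw [map_mul]; exact ha'.mul hb'
    rw [dif_pos ha', dif_pos hb', dif_pos hab', ← toAdd_mul, ← map_mul]
    congr 2
    apply Units.ext
    rw [IsUnit.unit_spec, Units.val_mul, IsUnit.unit_spec, IsUnit.unit_spec, map_mul]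

open Classical in
lemma ofHom_val (φ : (Alg f F)ˣ →* Multiplicative (ZMod q)) (u : (Alg f F)ˣ) {a : F[X]}
    (h : (u : Alg f F) = AdjoinRoot.mk (polOver f F) a) :
    (ofHom φ).val a = Multiplicative.toAdd (φ u) := by
  have hu : IsUnit (AdjoinRoot.mk (polOver f F) a) := by rw [← h]; exact u.isUnit
  change (if h : IsUnit (AdjoinRoot.mk (polOver f F) a) then
    Multiplicative.toAdd (φ h.unit) else 0) = _
  rw [dif_pos hu]
  congr 2
  apply Units.ext
  rw [IsUnit.unit_spec, h]

lemma ofHom_val_zero (φ : (Alg f F)ˣ →* Multiplicative (ZMod q)) {a : F[X]}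
    (h : ∀ u : (Alg f F)ˣ, (u : Alg f F) = AdjoinRoot.mk (polOver f F) a → φ u = 1) :
    (ofHom φ).val a = 0 := by
  classical
  by_cases hu : IsUnit (AdjoinRoot.mk (polOver f F) a)
  · rw [ofHom_val φ hu.unit (IsUnit.unit_spec hu), h _ (IsUnit.unit_spec hu), toAdd_one]
  · change (if h : IsUnit (AdjoinRoot.mk (polOver f F) a) then
      Multiplicative.toAdd (φ h.unit) else 0) = _
    rw [dif_neg hu]

lemma val_iff {m : ℕ} {D : ℤ} (P : Point f m D F) (u : (Alg f F)ˣ) {a : F[X]}
    (h : (u : Alg f F) = AdjoinRoot.mk (polOver f F) a) : P.Val q a ↔ IsValue q P u := by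
  unfold Point.Val IsValue
  rw [h]
  constructor
  · rintro ⟨-, h1, h2⟩
    refine ⟨?_, h2⟩
    unfold cl
    rw [← map_sub, ← map_mul]
    exact AdjoinRoot.mk_eq_zero.mpr h1
  · rintro ⟨h1, h2⟩
    refine ⟨?_, ?_, h2⟩
    · rw [← unit_iff, ← h]
      exact u.isUnit
    · unfold cl at h1
      rw [← map_sub, ← map_mul] at h1
      exact AdjoinRoot.mk_eq_zero.mp h1

lemma exists_val_iff {m : ℕ} {D : ℤ} (P : Point f m D F) :
    (∃ a, P.Val q a) ↔ ∃ u, IsValue q P u := by
  constructor
  · rintro ⟨a, ha⟩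
    have hu : IsUnit (AdjoinRoot.mk (polOver f F) a) := (unit_iff a).mpr ha.1
    exact ⟨hu.unit, (val_iff P hu.unit (IsUnit.unit_spec hu)).mp ha⟩
  · rintro ⟨u, hu⟩
    exact ⟨rep u, (val_iff P u (mk_rep u).symm).mpr hu⟩

end comparison

lemma fin_conv {q : ℕ} (g : Nat.Primes → Multiplicative (ZMod q)) :
    ∑ᶠ p, Multiplicative.toAdd (g p) = Multiplicative.toAdd (∏ᶠ p, g p) := by
  have hs : Function.support (fun p => Multiplicative.toAdd (g p)) = Function.mulSupport g := rfl
  by_cases h : (Function.mulSupport g).Finite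
  · have h' : (Function.support (fun p => Multiplicative.toAdd (g p))).Finite := hs ▸ h
    rw [finprod_eq_prod g h, finsum_eq_sum _ h', toAdd_prod]
    apply Finset.sum_congr _ (fun _ _ => rfl)
    ext p
    rw [Set.Finite.mem_toFinset, Set.Finite.mem_toFinset, hs]
  · rw [finprod_of_infinite_mulSupport h, finsum_of_infinite_support (by rw [hs]; exact h),
      toAdd_one]

lemma coprime_of_unit {f : ℤ[X]} (hf : Irreducible (polOver f ℚ)) (g : ℚ[X]) (p : Nat.Primes)
    (u : (Alg f ℚ_[(p : ℕ)])ˣ)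
    (hu : (u : Alg f ℚ_[(p : ℕ)]) = cl f ℚ_[(p : ℕ)] (g.map (Rat.castHom ℚ_[(p : ℕ)]))) :
    IsCoprime (polOver f ℚ) g := by
  rw [hf.coprime_iff_not_dvd]
  intro hd
  have hpos : 0 < f.natDegree := by
    have h := hf.natDegree_pos
    rwa [natDegree_map_eq_of_injective (Int.castRingHom ℚ).injective_int f] at h
  have hdeg : (f.map (Int.castRingHom ℚ_[(p : ℕ)])).degree ≠ 0 := by
    rw [degree_map_eq_of_injective (Int.castRingHom ℚ_[(p : ℕ)]).injective_int]
    intro h
    rw [natDegree_eq_zero_iff_degree_le_zero.mpr h.le] at hpos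
    exact lt_irrefl 0 hpos
  have hnt : Nontrivial (Alg f ℚ_[(p : ℕ)]) := AdjoinRoot.nontrivial _ hdeg
  have h0 : (u : Alg f ℚ_[(p : ℕ)]) = 0 := by
    rw [hu]
    apply AdjoinRoot.mk_eq_zero.mpr
    have h1 := Polynomial.map_dvd (Rat.castHom ℚ_[(p : ℕ)]) hd
    rwa [Polynomial.map_map, RingHom.ext_int ((Rat.castHom ℚ_[(p : ℕ)]).comp (Int.castRingHom ℚ))
      (Int.castRingHom ℚ_[(p : ℕ)])] at h1
  exact u.ne_zero h0

lemma near_eq (p : Nat.Primes) (N : ℕ) (h : ℤ_[(p : ℕ)][X]) :
    (1 + C (((p : ℕ) : ℚ_[(p : ℕ)]) ^ N) * h.map (algebraMap ℤ_[(p : ℕ)] ℚ_[(p : ℕ)])) =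
      (1 + ((p : ℕ) : ℤ_[(p : ℕ)][X]) ^ N * h).map (algebraMap ℤ_[(p : ℕ)] ℚ_[(p : ℕ)]) := by
  rw [Polynomial.map_add, Polynomial.map_mul, Polynomial.map_pow, Polynomial.map_one,
    Polynomial.map_natCast, C_pow, C_eq_natCast]

/-- comparison of the characters -/
noncomputable def ClassCharacter.old {f : ℤ[X]} (hf : Irreducible (polOver f ℚ)) {q : ℕ}
    (χ : ClassCharacter f q) : IdeleCharacter f q where
  loc p := (χ.loc p).hom
  cont := by
    intro p
    obtain ⟨N, hN⟩ := χ.cont p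
    refine ⟨N, fun u h hh hu => ?_⟩
    rw [LocalCharacter.hom_apply _ u hu, near_eq]
    have h1 := hN h hh
    unfold LocalCharacter.atInt at h1
    rw [h1, ofAdd_zero]
  unr := by
    obtain ⟨B, hB, h⟩ := χ.unr
    refine ⟨B, hB, fun p hp u => ?_⟩
    rintro ⟨h1, h2, h3, h4⟩
    have h5 : (u : Alg f ℚ_[(p : ℕ)]) * ((u⁻¹ : (Alg f ℚ_[(p : ℕ)])ˣ) : Alg f ℚ_[(p : ℕ)]) = 1 :=
      Units.mul_inv u
    rw [h3, h4] at h5
    unfold cl at h5
    rw [← map_mul, ← map_one (AdjoinRoot.mk (polOver f ℚ_[(p : ℕ)]))] at h5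
    have h6 := h p hp h1 h2 (by
      rw [Polynomial.map_sub, Polynomial.map_mul, Polynomial.map_one]
      exact AdjoinRoot.mk_eq_mk.mp h5)
    unfold LocalCharacter.atInt at h6
    rw [LocalCharacter.hom_apply _ u h3, h6, ofAdd_zero]
  rat := by
    intro p c
    rw [LocalCharacter.hom_apply _ _ (a := C (c : ℚ_[(p : ℕ)])) rfl, χ.rat p _ c.ne_zero, ofAdd_zero]
  glob := by
    intro g u hu
    have hcop : IsCoprime (polOver f ℚ) g :=
      coprime_of_unit hf g ⟨2, Nat.prime_two⟩ (u ⟨2, Nat.prime_two⟩) (hu ⟨2, Nat.prime_two⟩)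
    have h1 := χ.glob g hcop
    have h2 : ∀ p : Nat.Primes, (χ.loc p).atRat g =
        Multiplicative.toAdd ((χ.loc p).hom (u p)) := by
      intro p
      rw [LocalCharacter.hom_apply _ (u p) (hu p), toAdd_ofAdd]
      rfl
    rw [finsum_congr h2, fin_conv] at h1
    exact Multiplicative.toAdd.injective h1

/-- comparison of the characters -/
noncomputable def ClassCharacter.new {f : ℤ[X]} (hf : Irreducible (polOver f ℚ)) {q : ℕ}
    (χ : IdeleCharacter f q) : ClassCharacter f q where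
  loc p := ofHom (χ.loc p)
  cont := by
    intro p
    obtain ⟨N, hN⟩ := χ.cont p
    refine ⟨N, fun h hh => ofHom_val_zero _ (fun u hu => hN u h hh ?_)⟩
    rw [near_eq]
    exact hu
  unr := by
    obtain ⟨B, hB, h⟩ := χ.unr
    refine ⟨B, hB, fun p hp h1 h2 h3 => ofHom_val_zero _ (fun u hu => h p hp u ⟨h1, h2, hu, ?_⟩)⟩
    rw [Polynomial.map_sub, Polynomial.map_mul, Polynomial.map_one] at h3
    have h4 : (u : Alg f ℚ_[(p : ℕ)]) *
        cl f ℚ_[(p : ℕ)] (h2.map (algebraMap ℤ_[(p : ℕ)] ℚ_[(p : ℕ)])) = 1 := by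
      rw [hu]
      unfold cl
      rw [← map_mul, ← map_one (AdjoinRoot.mk (polOver f ℚ_[(p : ℕ)]))]
      exact AdjoinRoot.mk_eq_mk.mpr h3
    exact Units.inv_eq_of_mul_eq_one_right h4
  rat := by
    intro p c hc
    have h1 := χ.rat p (Units.mk0 c hc)
    rw [ofHom_val (χ.loc p) (Units.map (algebraMap ℚ_[(p : ℕ)] (Alg f ℚ_[(p : ℕ)])).toMonoidHom
      (Units.mk0 c hc)) (a := C c) rfl, h1, toAdd_one]
  glob := by
    intro g hg
    have hu : ∀ p : Nat.Primes, IsUnit (AdjoinRoot.mk (polOver f ℚ_[(p : ℕ)])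
        (g.map (Rat.castHom ℚ_[(p : ℕ)]))) := fun p =>
      (unit_iff _).mpr ((Pool.Agent.Q247.EB.bc f hf ℚ_[(p : ℕ)] g).2.2.1 hg)
    have h1 : ∀ p : Nat.Primes, (ofHom (χ.loc p)).atRat g =
        Multiplicative.toAdd (χ.loc p (hu p).unit) := fun p =>
      ofHom_val (χ.loc p) (hu p).unit (IsUnit.unit_spec _)
    rw [finsum_congr h1, fin_conv (fun p => χ.loc p (hu p).unit),
      χ.glob g (fun p => (hu p).unit) (fun p => IsUnit.unit_spec _), toAdd_one]

end Pool.Agent.Q51.SE
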