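import Pool.Agent.Q51.SE.Pol

/-! # Project SE: the main theorem with the definitions of `Pol.lean` -/

set_option autoImplicit false

namespace Pool.Agent.Q51.SE

open Polynomial Finset

/-- The number of the squarefree `D` with `|D| ≤ X` for which `C_D` has an adelic point. -/
noncomputable def numSoluble (f : ℤ[X]) (m : ℕ) (X : ℝ) : ℝ :=
  count (fun D => Nonempty (AdelicPoint f m D)) X

/-- The number of the squarefree `D` with `|D| ≤ X` for which an adelic point of `C_D` is orthogonal to all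
classes `A_χ`. -/
noncomputable def numOrthogonal (f : ℤ[X]) (q m : ℕ) (X : ℝ) : ℝ :=
  count (fun D => ∃ P : AdelicPoint f m D, P.Orthogonal q) X

/-- The sum of `1 / l` over the primes `l ≤ X` modulo which `f` has a zero. -/
noncomputable def sumRootPrimes (f : ℤ[X]) (X : ℝ) : ℝ := ∑' l : rootPrimes f X, (1 : ℝ) / (l : ℕ)

section

variable {f : ℤ[X]} {q m : ℕ} {D : ℤ}

/-- the hypothesis of well-definedness for the old definitions -/
def WD (f : ℤ[X]) (q m : ℕ) (D : ℤ) : Prop :=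
  ∀ (p : Nat.Primes) (P : Point f m D ℚ_[(p : ℕ)]), (∃ a, IsValue q P a) ∧
    ∀ a, IsValue q P a → ∀ χ : IdeleCharacter f q, Pool.Agent.Q51.SE.inv χ p P = χ.loc p a

lemma inv_old (hf : Irreducible (polOver f ℚ)) (hwd : WD f q m D) (χ : ClassCharacter f q)
    (p : Nat.Primes) (P : Point f m D ℚ_[(p : ℕ)]) :
    χ.inv p P = Multiplicative.toAdd (Pool.Agent.Q51.SE.inv (χ.old hf) p P) := by
  have hex : ∃ a, P.Val q a := (exists_val_iff P).mpr (hwd p P).1
  unfold ClassCharacter.inv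
  rw [dif_pos hex]
  have ha := Classical.choose_spec hex
  set a := Classical.choose hex
  have hu : IsUnit (AdjoinRoot.mk (polOver f ℚ_[(p : ℕ)]) a) := (unit_iff a).mpr ha.1
  have h1 : IsValue q P hu.unit := (val_iff P hu.unit (IsUnit.unit_spec hu)).mp ha
  rw [(hwd p P).2 hu.unit h1]
  have h2 := LocalCharacter.hom_apply (χ.loc p) hu.unit (a := a) (IsUnit.unit_spec hu)
  have h3 : (χ.old hf).loc p hu.unit = (χ.loc p).hom hu.unit := rfl
  rw [h3, h2, toAdd_ofAdd]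

lemma inv_new (hf : Irreducible (polOver f ℚ)) (hwd : WD f q m D) (χ : IdeleCharacter f q)
    (p : Nat.Primes) (P : Point f m D ℚ_[(p : ℕ)]) :
    (ClassCharacter.new hf χ).inv p P = Multiplicative.toAdd (Pool.Agent.Q51.SE.inv χ p P) := by
  have hex : ∃ a, P.Val q a := (exists_val_iff P).mpr (hwd p P).1
  unfold ClassCharacter.inv
  rw [dif_pos hex]
  have ha := Classical.choose_spec hex
  set a := Classical.choose hex
  have hu : IsUnit (AdjoinRoot.mk (polOver f ℚ_[(p : ℕ)]) a) := (unit_iff a).mpr ha.1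
  have h1 : IsValue q P hu.unit := (val_iff P hu.unit (IsUnit.unit_spec hu)).mp ha
  rw [(hwd p P).2 hu.unit h1]
  exact ofHom_val (χ.loc p) hu.unit (IsUnit.unit_spec hu)

lemma orthogonal_iff (hf : Irreducible (polOver f ℚ)) (hwd : WD f q m D) (P : AdelicPoint f m D) :
    P.Orthogonal q ↔ Pool.Agent.Q51.SE.Orthogonal q P := by
  constructor
  · intro h χ
    have h1 := h (ClassCharacter.new hf χ)
    rw [finsum_congr (fun p => inv_new hf hwd χ p (P.pa p)), fin_conv] at h1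
    exact Multiplicative.toAdd.injective h1
  · intro h χ
    have h1 := h (χ.old hf)
    rw [finsum_congr (fun p => inv_old hf hwd χ p (P.pa p)), fin_conv, h1, toAdd_one]

end

theorem pol_of (f : ℤ[X]) (hf : Irreducible (polOver f ℚ)) (q m : ℕ)
    (h : (∀ D : ℤ, D ≠ 0 → ∀ (p : Nat.Primes) (P : Point f m D ℚ_[(p : ℕ)]),
      (∃ a, IsValue q P a) ∧
      ∀ a, IsValue q P a → ∀ χ : IdeleCharacter f q, Pool.Agent.Q51.SE.inv χ p P = χ.loc p a) ∧
    (∀ D : ℤ, D ≠ 0 → ∀ (P : AdelicPoint f m D) (χ : IdeleCharacter f q),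
      {p : Nat.Primes | Pool.Agent.Q51.SE.inv χ p (P.pa p) ≠ 1}.Finite) ∧
    (∀ D : ℤ, D ≠ 0 → ∀ Q : Point f m D ℚ, Pool.Agent.Q51.SE.Orthogonal q Q.adelic) ∧
    (∃ δ C : ℝ, 0 < δ ∧ ∀ X : ℝ, 3 ≤ X →
      (count (fun D => ∃ P : AdelicPoint f m D, Pool.Agent.Q51.SE.Orthogonal q P) X : ℝ) ≤
        C * Real.log X ^ (-δ) * (count (fun D => Nonempty (AdelicPoint f m D)) X : ℝ)) ∧
    ((∃ D : ℤ, Squarefree D ∧ Nonempty (AdelicPoint f m D)) →
      ∃ c X₀ : ℝ, 0 < c ∧ ∀ X : ℝ, X₀ ≤ X →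
      c * X / Real.log X * Real.exp (∑' l : rootPrimes f X, (1 : ℝ) / (l : ℕ)) ≤
        (count (fun D => Nonempty (AdelicPoint f m D)) X : ℝ))) :
    (∀ D : ℤ, D ≠ 0 → (∀ p : Nat.Primes, InvariantsWellDefined f q m D p) ∧
      (∀ (P : AdelicPoint f m D) (χ : ClassCharacter f q),
        {p : Nat.Primes | χ.inv p (P.pa p) ≠ 0}.Finite) ∧
      ∀ Q : Point f m D ℚ, Q.adelic.Orthogonal q) ∧
    (∃ δ C : ℝ, 0 < δ ∧ ∀ X : ℝ, 3 ≤ X →
      numOrthogonal f q m X ≤ C * Real.log X ^ (-δ) * numSoluble f m X) ∧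
    ((∃ D : ℤ, Squarefree D ∧ Nonempty (AdelicPoint f m D)) →
      ∃ c X₀ : ℝ, 0 < c ∧ ∀ X : ℝ, X₀ ≤ X →
        c * X / Real.log X * Real.exp (sumRootPrimes f X) ≤ numSoluble f m X) := by
  obtain ⟨h1, h2, h3, h4, h5⟩ := h
  have hwd : ∀ D : ℤ, D ≠ 0 → WD f q m D := fun D hD p P => h1 D hD p P
  refine ⟨fun D hD => ⟨fun p P => ?_, fun P χ => ?_, fun Q => ?_⟩, ?_, h5⟩
  · refine ⟨(exists_val_iff P).mpr (hwd D hD p P).1, fun a ha χ => ?_⟩
    rw [inv_old hf (hwd D hD)]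
    have hu : IsUnit (AdjoinRoot.mk (polOver f ℚ_[(p : ℕ)]) a) := (unit_iff a).mpr ha.1
    have h6 : IsValue q P hu.unit := (val_iff P hu.unit (IsUnit.unit_spec hu)).mp ha
    rw [(hwd D hD p P).2 hu.unit h6]
    have h7 := LocalCharacter.hom_apply (χ.loc p) hu.unit (a := a) (IsUnit.unit_spec hu)
    have h8 : (χ.old hf).loc p hu.unit = (χ.loc p).hom hu.unit := rfl
    rw [h8, h7, toAdd_ofAdd]
  · have h6 := h2 D hD P (χ.old hf)
    have h7 : {p : Nat.Primes | χ.inv p (P.pa p) ≠ 0} =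
        {p : Nat.Primes | Pool.Agent.Q51.SE.inv (χ.old hf) p (P.pa p) ≠ 1} := by
      ext p
      rw [Set.mem_ofPred_eq, Set.mem_ofPred_eq, inv_old hf (hwd D hD), Ne, Ne, toAdd_eq_zero]
    rw [h7]
    exact h6
  · exact (orthogonal_iff hf (hwd D hD) _).mpr (h3 D hD Q)
  · obtain ⟨δ, C, hδ, h6⟩ := h4
    refine ⟨δ, C, hδ, fun X hX => ?_⟩
    have h7 : numOrthogonal f q m X =
        (count (fun D => ∃ P : AdelicPoint f m D, Pool.Agent.Q51.SE.Orthogonal q P) X : ℝ) := by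
      unfold numOrthogonal count
      congr 2
      ext D
      simp only [Set.mem_ofPred_eq]
      constructor
      · rintro ⟨ha, hb, P, hP⟩
        exact ⟨ha, hb, P, (orthogonal_iff hf (hwd D ha.ne_zero) P).mp hP⟩
      · rintro ⟨ha, hb, P, hP⟩
        exact ⟨ha, hb, P, (orthogonal_iff hf (hwd D ha.ne_zero) P).mpr hP⟩
    rw [h7]
    exact h6 X hX

end Pool.Agent.Q51.SE
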