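import Pool.Agent.Q51.SE.Main
import Pool.Agent.Q51.EB.All2

/-! # Project SE: the properties of the pairing, and the ratio -/

set_option autoImplicit false

namespace Pool.Agent.Q51.SE

open Polynomial Finset

lemma mpow {q : ℕ} (x : Multiplicative (ZMod q)) : x ^ q = 1 := by
  apply Multiplicative.toAdd.injective
  rw [toAdd_pow, toAdd_one, nsmul_eq_mul, ZMod.natCast_self, zero_mul]

theorem welldef_of (hval : S_VAL) {f : ℤ[X]} (hf : Irreducible (f.map (Int.castRingHom ℚ)))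
    {q m : ℕ} (hq : q.Prime) (hqm : q ∣ m) {D : ℤ} (hD : D ≠ 0) (p : Nat.Primes)
    (P : Point f m D ℚ_[(p : ℕ)]) : (∃ a, IsValue q P a) ∧
      ∀ a, IsValue q P a → ∀ χ : IdeleCharacter f q, inv χ p P = χ.loc p a := by
  obtain ⟨h1, h2⟩ := hval f hf q m D hq.pos hqm hD ℚ_[(p : ℕ)] P
  refine ⟨h1, fun a ha χ => ?_⟩
  unfold inv
  rw [dif_pos h1]
  obtain ⟨g, hg⟩ := h2 a _ ha (Classical.choose_spec h1)
  rw [hg, map_mul, map_pow, mpow, mul_one]

theorem finite_of (hval : S_VAL) (hfinp : S_FINP) {f : ℤ[X]}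
    (hf : Irreducible (f.map (Int.castRingHom ℚ))) {q m : ℕ} (hq : q.Prime) (hqm : q ∣ m)
    (hqn : q ∣ f.natDegree) {D : ℤ} (hD : D ≠ 0) (P : AdelicPoint f m D) (χ : IdeleCharacter f q) :
    {p : Nat.Primes | inv χ p (P.pa p) ≠ 1}.Finite := by
  obtain ⟨B1, hB1, h1⟩ := hfinp f hf q m D hq hqm hqn hD
  obtain ⟨B2, hB2, h2⟩ := χ.unr
  have hfin : {p : Nat.Primes | (p : ℕ) ∣ B1 * B2}.Finite := by
    apply Set.Finite.of_finite_image (f := fun p : Nat.Primes => (p : ℕ)) _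
      (fun p _ p' _ h => Subtype.ext h)
    apply (Set.finite_Iic (B1 * B2)).subset
    rintro _ ⟨p, hp, rfl⟩
    exact Nat.le_of_dvd (Nat.pos_of_ne_zero (mul_ne_zero hB1 hB2)) hp
  refine hfin.subset ?_
  intro p hp
  by_contra hB
  apply hp
  obtain ⟨⟨a, ha⟩, h3⟩ := welldef_of hval hf hq hqm hD p (P.pa p)
  rw [h3 a ha χ]
  obtain ⟨c, g, u, hu, hacu⟩ := h1 (p : ℕ) (fun h => hB (Dvd.dvd.mul_right h _)) (P.pa p) a ha
  rw [hacu, map_mul, map_mul, map_pow, mpow, mul_one, χ.rat, one_mul]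
  exact h2 p (fun h => hB (Dvd.dvd.mul_left h _)) u hu

/-- `x - θ w` as an element of the algebra -/
lemma isUnit_lin {f : ℤ[X]} (hf : Irreducible (f.map (Int.castRingHom ℚ))) (hn : 2 ≤ f.natDegree)
    {x w : ℚ} (h : x ≠ 0 ∨ w ≠ 0) : IsCoprime (f.map (Int.castRingHom ℚ)) (C x - C w * X) := by
  have ha0 : (C x - C w * X : ℚ[X]) ≠ 0 := by
    intro h'
    have h3 := congrArg (fun q : ℚ[X] => q.coeff 0) h'
    have h4 := congrArg (fun q : ℚ[X] => q.coeff 1) h'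
    simp only [coeff_sub, coeff_C_zero, coeff_C_mul, coeff_X_zero, mul_zero, sub_zero,
      coeff_zero] at h3
    simp only [coeff_sub, coeff_C_succ, coeff_C_mul, coeff_X_one, mul_one, zero_sub,
      coeff_zero, neg_eq_zero] at h4
    rcases h with h5 | h5
    · exact h5 h3
    · exact h5 h4
  rw [hf.coprime_iff_not_dvd]
  intro hd
  have h3 := natDegree_le_of_dvd hd ha0
  have h4 : (C x - C w * X : ℚ[X]).natDegree ≤ 1 := by
    refine (natDegree_sub_le _ _).trans (max_le ?_ ?_)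
    · rw [natDegree_C]
      exact Nat.zero_le _
    · exact (natDegree_C_mul_le w X).trans natDegree_X_le
  have h5 : (f.map (Int.castRingHom ℚ)).natDegree = f.natDegree := Pool.Agent.Q58.EB.up_deg f
  rw [h5] at h3
  omega

theorem rational_of (hval : S_VAL) {f : ℤ[X]} (hf : Irreducible (f.map (Int.castRingHom ℚ)))
    (hn : 2 ≤ f.natDegree) {q m : ℕ} (hq : q.Prime) (hqm : q ∣ m) {D : ℤ} (hD : D ≠ 0)
    (Q : Point f m D ℚ) : Orthogonal q Q.adelic := by
  intro χ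
  have hf0 : f ≠ 0 := by
    rintro rfl
    simp at hn
  set a : ℚ[X] := C Q.x - C Q.w * X with ha
  have hcop := isUnit_lin hf hn Q.ne
  have hu : ∀ (F : Type) [Field F] [CharZero F], IsUnit (cl f F (a.map (Rat.castHom F))) := by
    intro F _ _
    have h1 : IsCoprime (f.map (Int.castRingHom F)) (a.map (Rat.castHom F)) :=
      (Pool.Agent.Q247.EB.bc f hf F a).2.2.1 hcop
    obtain ⟨r, s, hrs⟩ := h1
    refine IsUnit.of_mul_eq_one (cl f F s) ?_
    have h2 := congrArg (AdjoinRoot.mk (f.map (Int.castRingHom F))) hrs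
    rw [map_add, map_mul, map_mul, AdjoinRoot.mk_self, mul_zero, zero_add, map_one] at h2
    rw [mul_comm]
    exact h2
  have e1 : ∀ (F : Type) [Field F] [CharZero F],
      a.map (Rat.castHom F) = C (Q.x : F) - C (Q.w : F) * X := by
    intro F _ _
    rw [ha]
    simp
  have hisv : ∀ p : Nat.Primes, IsValue q (Q.base ℚ_[(p : ℕ)]) (hu ℚ_[(p : ℕ)]).unit := by
    intro p
    have e2 : cl f ℚ_[(p : ℕ)] (C (Q.base ℚ_[(p : ℕ)]).x - C (Q.base ℚ_[(p : ℕ)]).w * X) =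
        cl f ℚ_[(p : ℕ)] (a.map (Rat.castHom ℚ_[(p : ℕ)])) := by
      rw [e1]
      rfl
    refine ⟨?_, (Q.y : ℚ_[(p : ℕ)]) ^ (m / q), ?_⟩
    · rw [e2, IsUnit.unit_spec, sub_self, mul_zero]
    · rw [IsUnit.unit_spec, ← e2]
      have h1 := Pool.Agent.Q58.EB.norm_lin (F := ℚ_[(p : ℕ)]) hf0 (Q.base ℚ_[(p : ℕ)]).x
        (Q.base ℚ_[(p : ℕ)]).w
      have h2 := (Q.base ℚ_[(p : ℕ)]).eq
      have h3 : (Q.y : ℚ_[(p : ℕ)]) ^ m = ((Q.y : ℚ_[(p : ℕ)]) ^ (m / q)) ^ q := by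
        rw [← pow_mul, Nat.div_mul_cancel hqm]
      rw [← h3]
      exact h1.trans h2.symm
  have h1 : ∀ p : Nat.Primes, inv χ p (Q.adelic.pa p) = χ.loc p (hu ℚ_[(p : ℕ)]).unit := fun p =>
    (welldef_of hval hf hq hqm hD p (Q.adelic.pa p)).2 _ (hisv p) χ
  rw [finprod_congr h1]
  exact χ.glob a (fun p => (hu ℚ_[(p : ℕ)]).unit) (fun p => IsUnit.unit_spec _)

/-- the Fermat curves -/
theorem fermat_cond {q : ℕ} (hq : q.Prime) (k : ℕ) {a b : ℤ} (ha : a ≠ 0) (hb : b ≠ 0) :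
    RootsOfUnityCondition (C a * X ^ (q ^ k) + C b) q := by
  intro x y hx hy hxy
  have e1 : ∀ x : ℂ, aeval x (C a * X ^ (q ^ k) + C b) = (a : ℂ) * x ^ (q ^ k) + b := by
    intro x; simp
  rw [e1] at hx hy
  have ha' : (a : ℂ) ≠ 0 := by exact_mod_cast ha
  have hb' : (b : ℂ) ≠ 0 := by exact_mod_cast hb
  have hxy' : x ^ (q ^ k) = y ^ (q ^ k) := by
    apply mul_left_cancel₀ ha'
    linear_combination hx - hy
  have hx0 : x ≠ 0 := by
    rintro rfl
    rw [zero_pow (pow_ne_zero _ hq.ne_zero), mul_zero, zero_add] at hx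
    exact hb' hx
  set z : ℂ := y / x with hz
  have hz1 : z ^ (q ^ k) = 1 := by
    rw [hz, div_pow, ← hxy', div_self (pow_ne_zero _ hx0)]
  have hzne : z ≠ 1 := by
    intro h
    apply hxy
    rw [hz, div_eq_one_iff_eq hx0] at h
    exact h.symm
  obtain ⟨j, -, hj⟩ := (Nat.dvd_prime_pow hq).mp (orderOf_dvd_of_pow_eq_one hz1)
  have hj0 : j ≠ 0 := by
    rintro rfl
    rw [pow_zero, orderOf_eq_one_iff] at hj
    exact hzne hj
  obtain ⟨i, rfl⟩ := Nat.exists_eq_succ_of_ne_zero hj0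
  refine ⟨z ^ (q ^ i), ?_, ?_⟩
  · apply pow_mem
    apply div_mem
    · exact IntermediateField.subset_adjoin ℚ _ (by simp)
    · exact IntermediateField.subset_adjoin ℚ _ (by simp)
  · have h1 : IsPrimitiveRoot z (q ^ i * q) := by
      have := IsPrimitiveRoot.orderOf z
      rwa [hj, pow_succ] at this
    exact h1.pow (by positivity [hq.pos]) rfl

end Pool.Agent.Q51.SE
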