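import Pool.Agent.Q51.SE.Res

/-! # Project SE: the main theorem from the statements -/

set_option autoImplicit false

namespace Pool.Agent.Q51.SE

open Polynomial Finset

theorem result_of (hval : S_VAL) (hfinp : S_FINP) (hup : S_UPQ)
    (f : ℤ[X]) (hf : Irreducible (f.map (Int.castRingHom ℚ)))
    (q m : ℕ) (hq : q.Prime) (hq2 : q ≠ 2) (hqm : q ∣ m) (hmn : m ∣ f.natDegree)
    (hrou : RootsOfUnityCondition f q) :
    (∀ D : ℤ, D ≠ 0 → ∀ (p : Nat.Primes) (P : Point f m D ℚ_[(p : ℕ)]), (∃ a, IsValue q P a) ∧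
      ∀ a, IsValue q P a → ∀ χ : IdeleCharacter f q, inv χ p P = χ.loc p a) ∧
    (∀ D : ℤ, D ≠ 0 → ∀ (P : AdelicPoint f m D) (χ : IdeleCharacter f q),
      {p : Nat.Primes | inv χ p (P.pa p) ≠ 1}.Finite) ∧
    (∀ D : ℤ, D ≠ 0 → ∀ Q : Point f m D ℚ, Orthogonal q Q.adelic) ∧
    (∃ δ C : ℝ, 0 < δ ∧ ∀ X : ℝ, 3 ≤ X →
      (count (fun D => ∃ P : AdelicPoint f m D, Orthogonal q P) X : ℝ) ≤
        C * Real.log X ^ (-δ) * (count (fun D => Nonempty (AdelicPoint f m D)) X : ℝ)) ∧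
    ((∃ D : ℤ, Squarefree D ∧ Nonempty (AdelicPoint f m D)) →
      ∃ c X₀ : ℝ, 0 < c ∧ ∀ X : ℝ, X₀ ≤ X →
      c * X / Real.log X * Real.exp (∑' l : rootPrimes f X, (1 : ℝ) / (l : ℕ)) ≤
        (count (fun D => Nonempty (AdelicPoint f m D)) X : ℝ)) := by
  classical
  have hnd : (f.map (Int.castRingHom ℚ)).natDegree = f.natDegree :=
    natDegree_map_eq_of_injective (Int.castRingHom ℚ).injective_int f
  have hnpos : 0 < f.natDegree := by
    rw [← hnd]; exact hf.natDegree_pos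
  have hqn : q ∣ f.natDegree := hqm.trans hmn
  have hq3 : 3 ≤ q := by
    have := hq.two_le
    omega
  have hn3 : 3 ≤ f.natDegree := hq3.trans (Nat.le_of_dvd hnpos hqn)
  have hmpos : 0 < m := Nat.pos_of_dvd_of_pos hmn hnpos
  have hels : ∀ D : ℤ, Pool.Agent.Q51.EB.ELSM f m D ↔ Nonempty (AdelicPoint f m D) := by
    intro D
    constructor
    · rintro ⟨⟨x, w, y, h1, h2⟩, hp⟩
      choose x' w' y' h3 h4 using fun p : Nat.Primes => hp (p : ℕ)
      exact ⟨⟨⟨x, w, y, h1, h2⟩, fun p => ⟨x' p, w' p, y' p, h3 p, h4 p⟩⟩⟩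
    · rintro ⟨P⟩
      refine ⟨⟨P.re.x, P.re.w, P.re.y, P.re.ne, P.re.eq⟩, fun p hp => ?_⟩
      exact ⟨(P.pa ⟨p, hp.out⟩).x, (P.pa ⟨p, hp.out⟩).w, (P.pa ⟨p, hp.out⟩).y,
        (P.pa ⟨p, hp.out⟩).ne, (P.pa ⟨p, hp.out⟩).eq⟩
  have hcount : ∀ (P : ℤ → Prop) (X : ℝ),
      {D : ℤ | (D.natAbs : ℝ) ≤ X ∧ Squarefree D ∧ P D}.ncard = count P X := by
    intro P X
    unfold count
    congr 1
    ext D
    simp only [Set.mem_ofPred_eq, Nat.cast_natAbs, Int.cast_abs]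
    tauto
  have hcE : ∀ X : ℝ, count (fun D => Nonempty (AdelicPoint f m D)) X =
      {D : ℤ | (D.natAbs : ℝ) ≤ X ∧ Squarefree D ∧ Pool.Agent.Q51.EB.ELSM f m D}.ncard := by
    intro X
    rw [hcount]
    congr 1
    ext D
    rw [hels]
  have hlow : (∃ D : ℤ, Squarefree D ∧ Nonempty (AdelicPoint f m D)) →
      ∃ c X₀ : ℝ, 0 < c ∧ ∀ X : ℝ, X₀ ≤ X →
      c * X / Real.log X * Real.exp (Pool.Agent.Q51.EL.Gf f X) ≤
        (count (fun D => Nonempty (AdelicPoint f m D)) X : ℝ) := by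
    rintro ⟨D0, hD0, hP⟩
    obtain ⟨c, X0, hc, h4⟩ := Pool.Agent.Q51.EB.t_lowm f hf m hmpos D0 hD0 ((hels D0).mpr hP)
    refine ⟨c, X0, hc, fun X hX => ?_⟩
    rw [hcE]
    exact h4 X hX
  have hle : ∀ X : ℝ, count (fun D => ∃ P : AdelicPoint f m D, Orthogonal q P) X ≤
      count (fun D => Nonempty (AdelicPoint f m D)) X := by
    intro X
    rw [← hcount, ← hcount]
    apply Set.ncard_le_ncard _ (Pool.Agent.Q51.EL.fin_sq X _)
    rintro D ⟨h1, h2, P, -⟩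
    exact ⟨h1, h2, ⟨P⟩⟩
  refine ⟨fun D hD p P => welldef_of hval hf hq hqm hD p P,
    fun D hD P χ => finite_of hval hfinp hf hq hqm hqn hD P χ,
    fun D hD Q => rational_of hval hf (by omega) hq hqm hD Q, ?_, ?_⟩
  · by_cases hex : ∃ D : ℤ, Squarefree D ∧ Nonempty (AdelicPoint f m D)
    · obtain ⟨c4, X0, hc4, hl⟩ := hlow hex
      obtain ⟨K, C2, C3, c, hK, hC2, hc, hS⟩ := hup f q m hf hq hq2 hqm hmn hrou
      obtain ⟨δ, C, hδ, -, hr⟩ := Pool.Agent.Q51.EL.ratio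
        (fun X => (count (fun D => ∃ P : AdelicPoint f m D, Orthogonal q P) X : ℝ))
        (fun X => (count (fun D => Nonempty (AdelicPoint f m D)) X : ℝ))
        (Pool.Agent.Q51.EL.Gf f) f.natDegree (by omega) K C2 C3 c c4 X0 hK hC2 hc hc4
        (fun X => by positivity) (fun X => by exact_mod_cast hle X)
        (fun Y Z h => Pool.Agent.Q51.EL.Gf_mono f h) hS hl
      exact ⟨δ, C, hδ, hr⟩
    · refine ⟨1, 0, one_pos, fun X _ => ?_⟩
      have h0 : count (fun D => ∃ P : AdelicPoint f m D, Orthogonal q P) X = 0 := by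
        unfold count
        have : {D : ℤ | Squarefree D ∧ |(D : ℝ)| ≤ X ∧
            ∃ P : AdelicPoint f m D, Orthogonal q P} = ∅ := by
          ext D
          simp only [Set.mem_ofPred_eq, Set.mem_empty_iff_false, iff_false]
          rintro ⟨h1, -, P, -⟩
          exact hex ⟨D, h1, ⟨P⟩⟩
        rw [this, Set.ncard_empty]
      rw [h0]
      simp
  · intro hex
    obtain ⟨c, X0, hc, h4⟩ := hlow hex
    refine ⟨c, X0, hc, fun X hX => ?_⟩
    have h5 := h4 X hX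
    rw [Pool.Agent.Q91.EL.Gf_eq] at h5
    have h6 : (∑' l : rootPrimes f X, (1 : ℝ) / (l : ℕ)) =
        ∑ l ∈ (Pool.Agent.Q51.EL.pr X).filter (fun l : ℕ => ∃ r : ℤ, (l : ℤ) ∣ f.eval r),
          (1 : ℝ) / l := by
      have hs : rootPrimes f X = ((Pool.Agent.Q51.EL.pr X).filter
          (fun l : ℕ => ∃ r : ℤ, (l : ℤ) ∣ f.eval r) : Finset ℕ) := by
        ext l
        simp only [rootPrimes, Set.mem_ofPred_eq, Finset.coe_filter, Pool.Agent.Q51.EL.pr,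
          Finset.mem_filter, Finset.mem_Icc]
        constructor
        · rintro ⟨ha, hb, hc⟩
          exact ⟨⟨⟨ha.one_le, Nat.le_floor hb⟩, ha⟩, hc⟩
        · rintro ⟨⟨⟨ha, hb⟩, hc⟩, hd⟩
          exact ⟨hc, (Nat.le_floor_iff' hc.ne_zero).1 hb, hd⟩
      rw [hs]
      exact Finset.tsum_subtype _ (fun l : ℕ => (1 : ℝ) / l)
    rw [h6]
    exact h5

end Pool.Agent.Q51.SE
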