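import Pool.Agent.Q51.SE.Def
import Pool.Agent.Q51.EL.Stm

/-!
# Project SE (helper51): superelliptic twists of odd prime exponent

GOAL.  `q` an odd prime, `q ∣ m ∣ n = deg f`, `f ∈ ℤ[X]` irreducible over `ℚ`, and any two different zeros of `f`
generate a field containing the `q`-th roots of unity (e.g. `f = a X ^ n + b`, `n` a power of `q`: the curves are
the Fermat curves `D y ^ n = a x ^ n + b w ^ n`).  For all but a proportion `O((log X) ^ (-δ))` of the squarefree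
`D`, `|D| ≤ X`, for which `C_D : D y ^ m = F(x, w)` is everywhere locally soluble, no adelic point of `C_D` is
orthogonal to the classes `A_χ`, `χ` an idele class character of order `q` of `L = ℚ(θ) = ℚ[X]/(f)`, trivial on the
ideles of `ℚ`.

PROOF.  Let `(a_p)` be the values of `x - θ w` at an orthogonal adelic point.  By duality (`S_DUAL`) there is a
`δ ∈ L^*` with `a_p ∈ δ ℚ_p^* (L ⊗ ℚ_p)^{*q}` for all `p ∣ B D`, and up to a local unit for the other `p`.  After a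
modification of `δ` by rational numbers, `q`-th powers, the class group and units we get an `α ∈ 𝓞 L` in the box
`|σ α| ≤ C |D| ^ (1/n)`, which satisfies the local conditions `Goodq` (`S_DESCQ`), and which determines `|D|`.
The number of these `α` is bounded by the large sieve in dimension `n` (`S_COREQ`).  The number of the
everywhere locally soluble twists is bounded below by `Pool.Agent.Q51.EB.t_lowm` (proved).
-/

set_option autoImplicit false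

namespace Pool.Agent.Q51.SE

open Polynomial NumberField IsDedekindDomain Finset
open Pool.Agent.Q51.EL (Abv N1 pr GN Gf Setup Ty1)

section L

variable {L : Type} [Field L] [NumberField L]

/-- `ord_v x ≡ e` modulo `q` (and `x ≠ 0`) -/
def Parq (q : ℕ) (v : HeightOneSpectrum (𝓞 L)) (x : L) (e : ℤ) : Prop :=
  ∃ k : ℤ, v.valuation L x = WithZero.exp (-(e + q * k))

/-- second local condition: two elements of `T` which lie in the same prime `v0` above `l` differ by a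
rational integer prime to `l` times a `q`-th power modulo all other primes above `l` -/
def Ty2q (q l : ℕ) (T : Set (𝓞 L)) : Prop :=
  ∀ β ∈ T, ∀ β' ∈ T, ∀ v0 : HeightOneSpectrum (𝓞 L), Abv v0 l → β ∈ v0.asIdeal → β' ∈ v0.asIdeal →
    ∃ c : ℤ, ¬ (l : ℤ) ∣ c ∧ ∀ v : HeightOneSpectrum (𝓞 L), Abv v l → v ≠ v0 →
      ∃ g : 𝓞 L, (c : 𝓞 L) * β - β' * g ^ q ∈ v.asIdeal

variable (L) in
/-- the residue fields above `l` different from `F_l` contain the `q`-th roots of unity, and so does `F_l` if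
there are two primes of norm `l` -/
def Zc (q l : ℕ) : Prop :=
  (∀ v : HeightOneSpectrum (𝓞 L), Abv v l → Ideal.absNorm v.asIdeal ≠ l →
    Ideal.absNorm v.asIdeal % q = 1) ∧
  ∀ v v0 : HeightOneSpectrum (𝓞 L), Abv v l → Abv v0 l → v ≠ v0 → Ideal.absNorm v.asIdeal = l →
    Ideal.absNorm v0.asIdeal = l → l % q = 1

variable (L) in
open Classical in
/-- an upper bound for `N1 * gcd(q, l - 1) * q ^ (1 - r)`, `r` the number of the primes above `l` -/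
noncomputable def tauq (q l : ℕ) : ℝ :=
  if N1 L l = 0 then 0 else
    if N1 L l = Module.finrank ℚ L ∧ 4 ≤ Module.finrank ℚ L then 4 / 9 else
      if l % q ≠ 1 then 1 / 3 else 1

/-- the local conditions satisfied by the element of `L` that belongs to a twist with an orthogonal adelic
point, at all primes not dividing `B`; `t` is a multiple of `θ` -/
def Goodq (q B : ℕ) (t α : 𝓞 L) : Prop :=
  ∀ l : ℕ, l.Prime → ¬ l ∣ B →
    (∀ v : HeightOneSpectrum (𝓞 L), Abv v l → α ∉ v.asIdeal) ∨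
    ∃ v0 : HeightOneSpectrum (𝓞 L), Abv v0 l ∧ Ideal.absNorm v0.asIdeal = l ∧ α ∈ v0.asIdeal ∧
      (∀ v : HeightOneSpectrum (𝓞 L), Abv v l → v ≠ v0 → α ∉ v.asIdeal) ∧
      ∃ c r : ℤ, ¬ (l : ℤ) ∣ c ∧ t - (r : 𝓞 L) ∈ v0.asIdeal ∧
        ∀ v : HeightOneSpectrum (𝓞 L), Abv v l → v ≠ v0 →
          ∃ g : 𝓞 L, (c : 𝓞 L) * α - ((r : 𝓞 L) - t) * g ^ q ∈ v.asIdeal

/-- the class of `x - θ w` modulo `q`-th powers, `x, w` coprime integers at `l`, agrees up to a power of `l`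
with the class of `δ η` above `l`, up to precision `K` -/
def Near (q l : ℕ) (θ δ η : L) (K : ℕ) : Prop :=
  ∃ (x w : ℤ) (e : ℕ) (g : L), e < q ∧ (¬ (l : ℤ) ∣ x ∨ ¬ (l : ℤ) ∣ w) ∧
    ∀ v : HeightOneSpectrum (𝓞 L), Abv v l →
      v.valuation L ((l : L) ^ e * ((x : L) - w * θ) - δ * g ^ q * η) ≤ WithZero.exp (-(K : ℤ))

end L

/-! ## Part A: sieve -/

/-- JOB CNTQ. The number of the residue classes modulo `l` allowed by the local conditions (compare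
`S_CNT` of project EL, proved in `Pool/Agent/Q247/EL/CNT.lean`, which is the case `q = 2`).
Proof.  Let `q_1, .., q_r` be the primes above `l` (the ideal `(l)` is their product, as it is squarefree),
`k_i = 𝓞/q_i`, `N = N1 L l` of them have norm `l`; `𝓞/l = ∏ k_i` has `l^n` elements.
The elements of the first kind are units at all `q_i`: at most `l^n (1 - N/l + n²/l²)` classes (as in
`S_CNT`).  The elements of the second kind with `v0 = q_1` (one of the `N` primes of norm `l`): their images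
lie in `{0} × R^*`, `R = ∏_{i ≥ 2} k_i`; fix one of them, `β'`; by `Ty2q` every other one, `β`, satisfies
`β = c⁻¹ g^q β'` in `R`, so the images lie in one coset of the subgroup `F_l^* R^{*q}` of `R^*` (`r ≥ 2` since
`n ≥ 3`).  `[R^* : R^{*q}] = ∏_{i≥2} gcd(q, |k_i| - 1) = q^(r-1)` by `Zc` (every `k_i`, `i ≥ 2`, satisfies
`|k_i| ≡ 1 mod q`, because `N q_1 = l`), and the image of `F_l^*` in `R^*/R^{*q}` has at most `gcd(q, l - 1)`
elements (its `q`-th powers die, `[F_l^* : F_l^{*q}] = gcd(q, l-1)`).  So there are at most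
`gcd(q, l-1) q^(1-r) |R^*| ≤ gcd(q, l-1) q^(1-r) l^(n-1)` classes.  Altogether
`≤ l^n (1 - N/l + n²/l²) + N gcd(q, l-1) q^(1-r) l^(n-1)`.  Bound for `τ = N gcd(q, l-1) q^(1-r)`, `N ≥ 1`:
if `N = n ≥ 4` then `r = n`, `l ≡ 1 mod q` (`Zc`, two primes of norm `l`) and `τ = n q^(2-n) ≤ n 3^(2-n) ≤ 4/9`;
if `l ≢ 1 mod q` then `N = 1` by `Zc`, `r ≥ 2`, `τ ≤ 1/q ≤ 1/3`; otherwise `τ ≤ N q^(2-r) ≤ 1`, since
`r ≥ N + 1` (then `N q^(1-N) ≤ N 3^(1-N) ≤ 1`) or `N = r = n = 3` (`τ = 3 q^(-1) ≤ 1`). -/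
def S_CNTQ : Prop := ∀ (L : Type) [Field L] [NumberField L] (q l : ℕ), q.Prime → q ≠ 2 → l.Prime →
  3 ≤ Module.finrank ℚ L → Squarefree (Ideal.span {(l : 𝓞 L)}) → Zc L q l →
  ∀ T : Set (𝓞 L), Ty1 l T → Ty2q q l T →
  (((Ideal.Quotient.mk (Ideal.span {(l : 𝓞 L)}) '' T).ncard : ℕ) : ℝ) ≤
    (l : ℝ) ^ Module.finrank ℚ L *
      (1 - (N1 L l - tauq L q l) / l + (Module.finrank ℚ L : ℝ) ^ 2 / (l : ℝ) ^ 2)

/-- JOB M3. Mertens for the primes `≡ 2 mod 3`, weak form.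
Proof: Chebotarev (`Pool.Agent.W401.Cheb.chebotarev`) for `ℚ(ζ_3)`, or a theorem on primes in progressions of
the library: the number of the primes `≡ 2 mod 3` up to `Y` is `≥ c0 Y / log Y` for large `Y`; partial
summation (compare `Q154/EL/CH1.lean`, `M2.lean`; dyadic blocks suffice).  Any other proof is fine: e.g.
`S_M1`-type asymptotics for `ℚ(ζ_3)` (`Q282.MN.tA1` is an asymptotic formula: `∑_{l ≤ Y} N1 log l / l ~ log Y`,
`N1 = 2` for `l ≡ 1 mod 3`, `0` for `l ≡ 2`) compared with the one for `ℚ`. -/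
def S_M3 : Prop := ∃ c C : ℝ, 0 < c ∧ ∀ Y : ℝ, 3 ≤ Y →
  c * Real.log (Real.log Y) - C ≤ ∑ l ∈ (pr Y).filter (fun l => l % 3 = 2), (1 : ℝ) / l

/-- JOB COREQ. The main upper bound (compare `S_CORE` of project EL, proved in `Pool/Agent/Q91/EL/Core.lean`).
Proof (from `S_SIEVE`, `S_SUMS`, `S_RAM`, `S_M1`, `S_M2` of project EL, all proved, and `S_CNTQ`, `S_M3`).  Let
`n = [L : ℚ]`, replace `B` by a multiple divisible by `2 q` and by the ramified primes.  For `l ∤ B` the number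
`d l = N1 L l - tauq L q l` is `0` or `≥ 2/3`: it is `0` if `N1 = 0`, or `N1 = 1` and `l ≡ 1 mod q`; if `N1 = 1`
and `l ≢ 1` it is `2/3`; if `N1 ≥ 2` it is `≥ 1`.  Let `P` be the set of the primes `l`, `2 n² < l`, `l ≤ √Y`,
`l ∤ B`, with `d l ≠ 0`, and `η l = d l / l - n² / l²`; so `0 < η l ≤ n / l`.  By `S_CNTQ` and `S_SIEVE` the number
times `∑_D ∏ η` is `≤ C Y^n`, and by `S_SUMS` (`Q = ⌊√Y⌋₊`) the sum is `≥ c exp (∑_{l ∈ P} η l)`.  The primes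
dividing `B`, those `≤ 2 n²` and the terms `n²/l²` contribute `O(1)`; so
`∑_{l ∈ P} η l ≥ ∑_{l ≤ √Y, l ∤ B} (N1 l - tauq l) / l - C ≥ ∑ N1 l / l - ∑_{N1 l ≥ 1} 1 / l + s - C`, where
`s = (5/9) ∑_{N1 l = n} 1/l` if `n ≥ 4` (`S_M2`), and for `n = 3` (then `q = 3`)
`s = (2/3) ∑_{l ≡ 2 mod 3, N1 l ≥ 1} 1/l`, and `N1 l = 1` for all `l ≡ 2 mod 3`, `l ∤ B`: by `Zc` there are no two
primes of norm `l`, and if there is none, the degrees `f_v ∈ {2, 3}` add up to `3`, so there is one prime, of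
norm `l³ ≡ 2 mod 3`, in contradiction to `Zc`; use `S_M3`.  So with `S_M1` (`ε` small)
`∑_{l ∈ P} η l ≥ (1 - ε) log log √Y - GN L Y + c' log log √Y - C`. -/
def S_COREQ : Prop := ∀ (L : Type) [Field L] [NumberField L] (q : ℕ), q.Prime → q ≠ 2 →
  q ∣ Module.finrank ℚ L → ∀ B : ℕ, B ≠ 0 →
  ∃ c C : ℝ, 0 < c ∧ ∀ T : Set (𝓞 L),
  (∀ l : ℕ, l.Prime → ¬ l ∣ B → Ty1 l T ∧ Ty2q q l T ∧ Zc L q l) →
  ∀ Y : ℝ, 3 ≤ Y → {β ∈ T | ∀ σ : L →+* ℂ, ‖σ (β : L)‖ ≤ Y}.Finite ∧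
    (({β ∈ T | ∀ σ : L →+* ℂ, ‖σ (β : L)‖ ≤ Y}.ncard : ℕ) : ℝ) ≤
      C * Y ^ Module.finrank ℚ L * Real.exp (GN L Y) * Real.log Y ^ (-(1 + c))

/-- JOB TYQ. The good elements satisfy the hypotheses of the sieve (compare `Pool.Agent.Q91.EL.ty`).
Proof.  `Ty1` is part of `Goodq`.  `Ty2q`: let `α, α'` lie in `v0`, with data `c, r`, `c', r'` (their `v0`s are equal,
since only one prime above `l` contains `α`): `t - r, t - r' ∈ v0`, so `l ∣ r - r'` (`v0 ∩ ℤ = (l)`).  For `v ≠ v0`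
above `l`: `c α ≡ (r - t) g^q`, `c' α' ≡ (r - t) g'^q mod v`, and `c' α' ∉ v` (`c'` is prime to `l`), so `g'` is
invertible modulo `v`: `g' h ≡ 1`.  Let `c'' ` be an integer with `c'' c' ≡ c mod l`; then
`c'' c' α ≡ c α ≡ (r - t) g^q ≡ c' α' (g h)^q`, so `c'' α ≡ α' (g h)^q mod v`; `l ∤ c''`. -/
def S_TYQ : Prop := ∀ (L : Type) [Field L] [NumberField L] (q B : ℕ) (t : 𝓞 L),
  ∀ l : ℕ, l.Prime → ¬ l ∣ B → Ty1 l {α | Goodq q B t α} ∧ Ty2q q l {α | Goodq q B t α}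

/-- JOB ZETA. The residue fields contain the roots of unity.
Proof.  `n = deg f`, complex zeros `x_1, .., x_n` of `f` (distinct).  For `i ≠ j` there is a primitive `q`-th root of
unity `ζ_ij = h_ij(x_i, x_j)`, `h_ij ∈ ℚ[X, Y]` (`ℚ(x_i, x_j) = ℚ[x_i, x_j]`, the numbers are algebraic).  Let
`H = ∏_{i ≠ j} Φ_q(h_ij(X, Y)) ∈ ℚ[X, Y]`; it vanishes at all pairs `(x_i, x_j)`, `i ≠ j`.  Let
`f1(X, Y) = (f(Y) - f(X)) / (Y - X)`, as a polynomial in `Y` of degree `n - 1` with leading coefficient `lc`.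
Dividing `H` by `f1` (in `Y`) and the coefficients of the remainder by `f(X)` gives
`H = A f(X) + C f1(X, Y) + R` with `deg_X R < n`, `deg_Y R < n - 1`, `R(x_i, x_j) = 0` for `i ≠ j`; so
`R(x_i, Y)` has `n - 1` zeros and is `0`, for all `i`, so `R = 0`.  Let `B` be divisible by `q`, by `lc`, by the
denominators of the coefficients of the `h_ij`, of `A`, `C`, by a nonzero integer of the form `U f + V f'`, by the
ramified primes, and by the finitely many bad primes of `S_ROOT`.  Let `l ∤ B`, `k` a finite field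
containing `F_l`, `ρ ≠ ρ'` zeros of `f` in `k`.  Then `f1(ρ, ρ') = 0`, so `H(ρ, ρ') = 0`, so some
`z = h_ij(ρ, ρ') ∈ k` is a zero of `Φ_q`: `z^q = 1`, `z ≠ 1` (`Φ_q(1) = q ≠ 0` in `k`), so `q ∣ |k| - 1`.
Apply this: (1) `v` above `l`, `N v ≠ l`: `k = 𝓞/v`, `ρ` = image of `θ` (`= t / lc`, `t = lc θ` integral), `ρ' = ρ^l`;
`ρ ≠ ρ^l` since otherwise `ρ ∈ F_l`, `ρ = r / 1`, `t - lc r ∈ v`, i.e. `v` contains the value `r - θ` (times `lc`), and by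
`S_ROOT` (`x = r`, `w = 1`) the prime containing it has norm `l`.  (2) `v ≠ v0` of norm `l`: `k = F_l`, `ρ, ρ'` the images
of `θ` modulo `v` and modulo `v0`; they are different since by `S_ROOT` only one prime above `l` contains
`r - θ`. -/
def S_ZETA : Prop := ∀ (f : ℤ[X]) (q : ℕ), q.Prime → RootsOfUnityCondition f q →
  ∀ (L : Type) [Field L] [NumberField L] (θ : L), Setup f L θ →
  ∃ B : ℕ, B ≠ 0 ∧ ∀ l : ℕ, l.Prime → ¬ l ∣ B → Zc L q l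

/-! ## Part B: descent in the number field -/

/-- JOB UNQ. Units (compare `Pool.Agent.Q239.EL.un` in `Q239/EL/UN.lean`, the case `q = 2`).
Proof: the logarithms of the `q`-th powers of the units form a lattice of full rank as well. -/
def S_UNQ : Prop := ∀ (L : Type) [Field L] [NumberField L] (q : ℕ), 0 < q → ∃ C : ℝ, 0 < C ∧
  ∀ α : 𝓞 L, α ≠ 0 →
  ∃ u : (𝓞 L)ˣ, ∀ σ : L →+* ℂ, ‖σ (((α * (u : 𝓞 L) ^ q : 𝓞 L)) : L)‖ ≤
    C * ((Ideal.absNorm (Ideal.span {α}) : ℕ) : ℝ) ^ ((1 : ℝ) / Module.finrank ℚ L)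

/-- JOB CLQ. Class group (compare `Pool.Agent.Q239.EL.cl` in `Q239/EL/CL.lean`, the case `q = 2`; here `B` is
chosen divisible by a given `B0`).
Proof.  Let `𝔠_1, .., 𝔠_h ⊆ 𝓞` be nonzero ideals, one in each ideal class, and `B` divisible by their norms and
by `B0`.  `(δ) = ∏ v ^ a_v`; write `a_v = s_v + q b_v`, `0 ≤ s_v < q`; for `v ∤ B` we have `s_v = 1` if `v ∈ S` and
`s_v = 0` otherwise.  Put `𝔞 = ∏ v ^ b_v`; there are an `i` and an `η ∈ L^*` with `(η) = 𝔠_i 𝔞⁻¹`; so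
`(δ η^q) = ∏ v ^ s_v * 𝔠_i^q` is an integral ideal, of norm
`≤ ∏_{v ∈ S} N v * ∏_{v ∣ B} N v^(q-1) * N 𝔠_i^q`. -/
def S_CLQ : Prop := ∀ (L : Type) [Field L] [NumberField L] (q : ℕ), 2 ≤ q → ∀ B0 : ℕ, B0 ≠ 0 →
  ∃ (B : ℕ) (C : ℝ), B ≠ 0 ∧ 0 < C ∧ B0 ∣ B ∧
  ∀ (δ : L) (S : Finset (HeightOneSpectrum (𝓞 L))), δ ≠ 0 →
  (∀ v : HeightOneSpectrum (𝓞 L), (B : 𝓞 L) ∉ v.asIdeal → (v ∈ S → Parq q v δ 1) ∧
    (v ∉ S → Parq q v δ 0)) →
  ∃ (η : L) (α : 𝓞 L), η ≠ 0 ∧ (α : L) = δ * η ^ q ∧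
    (∀ v : HeightOneSpectrum (𝓞 L), (B : 𝓞 L) ∉ v.asIdeal →
      (v ∈ S → v.valuation L (α : L) = WithZero.exp (-1 : ℤ)) ∧
      (v ∉ S → v.valuation L (α : L) = 1)) ∧
    ((Ideal.absNorm (Ideal.span {α}) : ℕ) : ℝ) ≤ C * ∏ v ∈ S, ((Ideal.absNorm v.asIdeal : ℕ) : ℝ)

/-- JOB NVQ. Norm and valuations (compare `Pool.Agent.Q239.EL.nv` in `Q239/EL/NV.lean`, the case `q = 2`).
Proof: `v_l(N x) = ∑_{v ∣ l} f_v ord_v(x)` and `∑ f_v = n` (`l` is unramified), `q ∣ n`. -/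
def S_NVQ : Prop := ∀ (L : Type) [Field L] [NumberField L] (q : ℕ), q.Prime →
  q ∣ Module.finrank ℚ L →
  ∀ l : ℕ, l.Prime → Squarefree (Ideal.span {(l : 𝓞 L)}) → ∀ x : L, x ≠ 0 →
  (∀ e : ℤ, (∀ v : HeightOneSpectrum (𝓞 L), Abv v l → Parq q v x e) →
    (q : ℤ) ∣ padicValRat l (Algebra.norm ℚ x)) ∧
  ∀ (e0 e : ℤ) (v0 : HeightOneSpectrum (𝓞 L)), Abv v0 l → Ideal.absNorm v0.asIdeal = l →
    Parq q v0 x e0 → (∀ v : HeightOneSpectrum (𝓞 L), Abv v l → v ≠ v0 → Parq q v x e) →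
    (q : ℤ) ∣ padicValRat l (Algebra.norm ℚ x) - e0 + e

/-- JOB SCQ. Valuations modulo `q` of `δ` at the primes above `l` (compare `Pool.Agent.Q239.EL.sc` in
`Q239/EL/SC.lean`).
Proof (from `S_ROOT`, `S_RAM` of project EL and `S_NVQ`).  `B` is divisible by `lc`, the ramified primes, the bad
primes of `S_ROOT`.  `ρ = l^e (x - w θ) - δ g^q η`, `v(ρ) ≤ exp (-q)`, `e < q`.  Where `v(x - w θ) = 1`,
`v(l^e (x - w θ)) = exp (-e) > v(ρ)`, so `v(δ g^q) = exp (-e)` (ultrametric inequality; `v(η) = 1`) and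
`Parq q v δ e`.  In the first case of `S_ROOT` this holds for all `v` above `l`; then by `S_NVQ` the norm of `δ` has
valuation divisible by `q` at `l`, so `q ∣ v_l(D)`, `D` squarefree: `l ∤ D`.  In the second case it holds for all
`v ≠ v0` (there is at least one); let `e0` be the valuation of `δ` at `v0`; by `S_NVQ` `v_l(N δ) ≡ e0 - e`; so
`e0 ≡ e` if `l ∤ D`, `e0 ≡ e + 1` if `l ∣ D` (`v_l(D) = 1`). -/
def S_SCQ : Prop := ∀ (f : ℤ[X]) (L : Type) [Field L] [NumberField L] (θ : L), Setup f L θ →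
  ∀ q : ℕ, q.Prime → q ∣ f.natDegree → ∃ B : ℕ, B ≠ 0 ∧ ∀ l : ℕ, l.Prime → ¬ l ∣ B →
  ∀ (δ : L) (D : ℤ), δ ≠ 0 → Squarefree D →
  (q : ℤ) ∣ padicValRat l (Algebra.norm ℚ δ) - padicValInt l D →
  (∃ η : L, (∀ v : HeightOneSpectrum (𝓞 L), Abv v l → v.valuation L η = 1) ∧ Near q l θ δ η q) →
  ∃ e : ℤ,
    (¬ (l : ℤ) ∣ D ∧ ∀ v : HeightOneSpectrum (𝓞 L), Abv v l → Parq q v δ e) ∨
    ((l : ℤ) ∣ D ∧ ∃ v0 : HeightOneSpectrum (𝓞 L), Abv v0 l ∧ Ideal.absNorm v0.asIdeal = l ∧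
      Parq q v0 δ (e + 1) ∧
      ∀ v : HeightOneSpectrum (𝓞 L), Abv v l → v ≠ v0 → Parq q v δ e)

/-- JOB SDQ. The classes of `α` at the primes above `l` (compare `Pool.Agent.Q239.EL.sd` in `Q239/EL/SD.lean`).
Proof (from `S_ROOT`, `S_RAM` of project EL).  `ρ = l^e (x - w θ) - α g^q`, `v(ρ) ≤ exp (-q)`, `0 ≤ e < q`.
Let `v0` be the given prime.  As `n ≥ 3`, `l` unramified, `N v0 = l`, there is a prime `≠ v0` above `l`, and if
`v1 ≠ v0` has norm `l` then there is a prime `≠ v0, v1`.  Suppose that `v0(x - w θ) = 1`: then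
`v0(α g^q) = exp (-e)`, `v0(α) = exp (-1)`, so `e ≡ 1 mod q`, `e = 1`; there is a `v ≠ v0` with `v(x - w θ) = 1`
(`S_ROOT`: at most one prime, of norm `l`, is an exception), and `v(α g^q) = v(g)^q = exp (-1)`, a contradiction.
So `v0(x - w θ) < 1` and `v(x - w θ) = 1` for `v ≠ v0`, `l ∤ w` (`S_ROOT`); so `v(g)^q = exp (-e)` for these `v`,
`e = 0`, `v(g) = 1`.  Let `a = lc`, `t = a θ ∈ 𝓞`, `r ∈ ℤ` with `w r ≡ a x mod l`: `w (t - r) ≡ a (w θ - x) mod v0`, so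
`t - r ∈ v0`.  For `v ≠ v0`: `w (r - t) ≡ a (x - w θ) ≡ a α g^q mod v`.  Let `w'` be an integer with `w w' ≡ 1 mod l`,
`c = a w'`; then `c α g^q ≡ r - t`; there is a `g' ∈ 𝓞` with `g' g ≡ 1 mod v` (`v(g) = 1`), so
`c α ≡ (r - t) g'^q mod v`. -/
def S_SDQ : Prop := ∀ (f : ℤ[X]) (L : Type) [Field L] [NumberField L] (θ : L), Setup f L θ →
  3 ≤ f.natDegree → ∀ q : ℕ, 2 ≤ q → ∃ B : ℕ, B ≠ 0 ∧ ∀ t : 𝓞 L, (t : L) = f.leadingCoeff * θ →
  ∀ l : ℕ, l.Prime → ¬ l ∣ B → ∀ α : 𝓞 L, Near q l θ (α : L) 1 q →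
  ∀ v0 : HeightOneSpectrum (𝓞 L), Abv v0 l → Ideal.absNorm v0.asIdeal = l →
  v0.valuation L (α : L) = WithZero.exp (-1 : ℤ) →
  (∀ v : HeightOneSpectrum (𝓞 L), Abv v l → v ≠ v0 → v.valuation L (α : L) = 1) →
  ∃ c r : ℤ, ¬ (l : ℤ) ∣ c ∧ t - (r : 𝓞 L) ∈ v0.asIdeal ∧
    ∀ v : HeightOneSpectrum (𝓞 L), Abv v l → v ≠ v0 →
      ∃ g : 𝓞 L, (c : 𝓞 L) * α - ((r : 𝓞 L) - t) * g ^ q ∈ v.asIdeal

/-- JOB CHQ. Changing the representative.
Proof.  `l` unramified is not needed, only `v(l) ≤ 1`.  `c = l^k a / b`, `a, b` integers prime to `l`.  Let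
`l^e (x - w θ) = δ g^q η + ρ`, `v(ρ) ≤ exp (-(K + q))` (precision in the hypothesis: `K + q`), and
`δ = δ' c⁻¹ ζ^(-q)`, where `δ' = c δ ζ^q`.  Write `e + k = e' + q j`, `0 ≤ e' < q`.  Multiply by
`c b^q l^(-q j) = l^(k - q j) a b^(q-1)`:
`l^e' (a b^(q-1) x - a b^(q-1) w θ) = δ' (b l^(-j) g / ζ)^q η + ρ'`, `ρ' = l^(k - q j) a b^(q-1) ρ`, and
`k - q j = e' - e > -q`, so `v(ρ') ≤ v(l)^(-q) v(ρ)`; for unramified `l` (`v(l) = exp (-1)`) this is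
`≤ exp (q - (K + q)) = exp (-K)`. -/
def S_CHQ : Prop := ∀ (L : Type) [Field L] [NumberField L] (θ : L) (q l : ℕ), 2 ≤ q → l.Prime →
  (∀ v : HeightOneSpectrum (𝓞 L), Abv v l → v.valuation L (l : L) = WithZero.exp (-1 : ℤ)) →
  ∀ (δ ζ η : L) (c : ℚ) (K : ℕ), δ ≠ 0 → ζ ≠ 0 → c ≠ 0 → Near q l θ δ η (K + q) →
  Near q l θ ((c : L) * δ * ζ ^ q) η K

/-- JOB DESCQ. The descent (compare `Pool.Agent.Q239.EL.desc` in `Q239/EL/DESC.lean`).
Proof (from `S_UNQ`, `S_CLQ`, `S_SCQ`, `S_SDQ`, `S_CHQ`, `S_RAM` and `S_ROOT` of project EL).  `B` is a common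
multiple of `B0`, of `lc` and of the finite bad numbers.  Let `δ` be as in the statement.  By `S_SCQ` there is for
every prime `l ∤ B` an `e_l` with `0 ≤ e_l < q` (`l ∤ lc`, so `v_l(lc N δ) = v_l(N δ)`); `e_l = 0` for all but finitely
many `l` (if all valuations of `δ` above `l` are `1` and `l ∤ D`, `q ∣ e_l`; note that there is at least one
`v ≠ v0` above `l`, as `n ≥ 2`).  Put `c = ∏ l^(-e_l)`; then `c δ` has `ord_v ≡ 0 mod q` at all `v ∤ B` except the primes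
`v0 = v0(l)`, `l ∣ D`, `l ∤ B`, where it is `≡ 1` (at `v` above `l`, `v(l) = exp (-1)`).  `S` = the set of these;
`∏_{v ∈ S} N v ≤ |D|`.  `S_CLQ` (with `B0` there = the product of the other bad numbers, and `B` the number
obtained from it) gives `η`, `α0 = c δ η^q`, and `S_UNQ` a unit `u`: `α = α0 u^q`,
`|σ α| ≤ C |D|^(1/n)`.  For `l ∣ D`, `l ∤ B`: by `S_CHQ` `Near q l θ α 1 q` (from the hypothesis with precision `2 q`),
and `S_SDQ` gives `Goodq` at `l`.  The rational number `ρ = lc N(α) / D = lc N(δ) / D * c^n * N(η u)^q` has valuation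
divisible by `q` at all primes (`q ∣ n`), so `ρ = ± z^q = (± z)^q`, `q` odd. -/
def S_DESCQ : Prop := ∀ (f : ℤ[X]) (L : Type) [Field L] [NumberField L] (θ : L), Setup f L θ →
  ∀ q : ℕ, q.Prime → q ≠ 2 → q ∣ f.natDegree → ∀ t : 𝓞 L, (t : L) = f.leadingCoeff * θ →
  ∀ B0 : ℕ, B0 ≠ 0 →
  ∃ (B : ℕ) (C : ℝ), B ≠ 0 ∧ 0 < C ∧ B0 ∣ B ∧ ∀ (D : ℤ) (δ : L), Squarefree D → δ ≠ 0 →
  (∀ p : ℕ, p.Prime → (q : ℤ) ∣ padicValRat p ((f.leadingCoeff : ℚ) * Algebra.norm ℚ δ) -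
    padicValInt p D) →
  (∀ l : ℕ, l.Prime → ¬ l ∣ B0 → (∃ η : L, (∀ v : HeightOneSpectrum (𝓞 L), Abv v l →
    v.valuation L η = 1) ∧ Near q l θ δ η (2 * q)) ∧ ((l : ℤ) ∣ D → Near q l θ δ 1 (2 * q))) →
  ∃ α : 𝓞 L, α ≠ 0 ∧ Goodq q B t α ∧
    (∃ z : ℚ, (f.leadingCoeff : ℚ) * Algebra.norm ℚ (α : L) = D * z ^ q) ∧
    ∀ σ : L →+* ℂ, ‖σ (α : L)‖ ≤ C * (D.natAbs : ℝ) ^ ((1 : ℝ) / f.natDegree)

/-! ## Part C: local points and duality -/

/-- JOB VAL. Values exist, and they are unique up to `q`-th powers.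
Proof.  `f` is separable over `F` (characteristic `0`).  `ξ = x - θ w ≠ 0` is the class of `x - w X`.  If `ξ` is
invertible (`x - w X` prime to `f`), then `a = ξ` is the only value: `lc N(ξ) = F(x, w) = D y^m = D (y^(m/q))^q`
(`norm_lin` in `Pool/Agent/Q58/EB`: `lc * N(x - w θ) = hom f x w`, with `hom` of project EL, which has the same
definition as `hom` here).  Otherwise `w ≠ 0`, `f = f1 f2` with `f1 = x - w X` (up to a constant) and `f2` prime to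
`f1`; by the Chinese remainder theorem the algebra is `F × F[X]/(f2)`, `ξ = (0, ξ2)`, `ξ2` invertible, and the
invertible `a` with `ξ (a - ξ) = 0` are the `(a0, ξ2)`, `a0 ∈ F^*`; `lc N(a) = lc a0 N(ξ2)`; choose `a0` with
`lc a0 N(ξ2) = D`.  For two values `a = (a0, ξ2)`, `a' = (a0', ξ2)`: `a0'/a0 = (z'/z)^q`, `a' = a (z'/z, 1)^q`
(`z, z' ≠ 0`). -/
def S_VAL : Prop := ∀ (f : ℤ[X]), Irreducible (f.map (Int.castRingHom ℚ)) → ∀ (q m : ℕ) (D : ℤ),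
  0 < q → q ∣ m → D ≠ 0 → ∀ (F : Type) [Field F] [CharZero F] (P : Point f m D F),
  (∃ a, IsValue q P a) ∧ ∀ a a', IsValue q P a → IsValue q P a' → ∃ g : (Alg f F)ˣ, a' = a * g ^ q

/-- JOB POW. The `q`-th powers are open.
Proof (compare `S_APX` of project EB, proved for squares in `Pool/Agent/Q58/EB` or `Q247/EB`, search for
`apx`).  Let `a0` be the leading coefficient, `n` the degree, `G(Y) = a0^(n-1) f(Y / a0) ∈ ℤ[Y]` monic,
`Λ = ℤ_p[Y]/(G)`, free of rank `n` over `ℤ_p`, `Λ[1/p] = ℚ_p[X]/(f)` (`Y = a0 X`).  `Λ` is `p`-adically complete.  Let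
`s = v_p(q)`.  For `z ∈ Λ` the equation `(1 + p^(s+1) T)^q = 1 + p^(2 s + 1) z` (i.e. `q p^(s+1) T + .. `; divide by
`q p^(s+1)`, a unit times `p^(2s+1)`: `T + (terms divisible by p) = unit * z`) has a solution `T ∈ Λ` by Newton's
iteration (contraction).  Every element `h(θ)`, `h ∈ ℤ_p[X]`, `deg h < n`, lies in `a0^(-n) Λ`; so
`N = 2 s + 1 + n v_p(a0)` suffices. -/
def S_POW : Prop := ∀ (f : ℤ[X]), Irreducible (f.map (Int.castRingHom ℚ)) → ∀ (q : ℕ), 0 < q →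
  ∀ (p : ℕ) [Fact p.Prime], ∃ N : ℕ, ∀ (u : (Alg f ℚ_[p])ˣ) (h : ℤ_[p][X]),
    h.natDegree < f.natDegree → (u : Alg f ℚ_[p]) =
      cl f ℚ_[p] (1 + C ((p : ℚ_[p]) ^ N) * h.map (algebraMap ℤ_[p] ℚ_[p])) →
    ∃ g : (Alg f ℚ_[p])ˣ, u = g ^ q

/-- JOB FINP. The values at the good primes.
Proof.  `B` is divisible by `D`, `lc` and a nonzero integer of the form `U f + V f'`, `U, V ∈ ℤ[X]`.  Let `p ∤ B`.
Dividing `x, w` by a power of `p` (a rational factor `c`, and `y` by the corresponding power; `m ∣ n` is not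
needed: work with `F(x, w)` and its valuation) we may assume `x, w ∈ ℤ_p`, not both divisible by `p`; then
`v_p(F(x, w)) ≡ 0 mod q`, because `F(c x, c w) = c^n F(x, w)`, `q ∣ n`, `F(cx, cw) = D y^m`, `q ∣ m`, `p ∤ D`
(if `F ≠ 0`).  If `F(x, w)` is a unit, `x - θ w` is a unit of `ℤ_p[θ]` (`lc` is a unit, so `ℤ_p[θ] = ℤ_p[X]/(f)` is free
over `ℤ_p`, and `lc N(x - θ w) = F(x, w)`; an element of unit norm is a unit: the multiplication matrix is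
invertible over `ℤ_p`).  Otherwise `p ∤ w`, `r = x / w ∈ ℤ_p` is a simple zero of `f` modulo `p`; Hensel:
`f = (X - ρ) g` over `ℤ_p`, `ρ ≡ r mod p`, and `ℤ_p[X]/(f) = ℤ_p × ℤ_p[X]/(g)` (`g(ρ)` is a unit).  The second component of
`x - θ w` is a unit (its norm to `ℤ_p` is `± w^(n-1) g(r)` up to a unit).  A value is `a = (a0, x - θ w)`, where
`lc N(a) = D z^q` shows `v_p(a0) ≡ 0 mod q` (if `x ≠ ρ w` then `a0 = x - ρ w`).  So `a = (p^k, 1)^q * u`, `u` a unit of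
`ℤ_p[θ]`. -/
def S_FINP : Prop := ∀ (f : ℤ[X]), Irreducible (f.map (Int.castRingHom ℚ)) → ∀ (q m : ℕ) (D : ℤ),
  q.Prime → q ∣ m → q ∣ f.natDegree → D ≠ 0 → ∃ B : ℕ, B ≠ 0 ∧ ∀ (p : ℕ) [Fact p.Prime], ¬ p ∣ B →
  ∀ (P : Point f m D ℚ_[p]) (a : (Alg f ℚ_[p])ˣ), IsValue q P a →
  ∃ (c : (ℚ_[p])ˣ) (g u : (Alg f ℚ_[p])ˣ), IsUnitAt f p u ∧
    a = Units.map (algebraMap ℚ_[p] (Alg f ℚ_[p])).toMonoidHom c * g ^ q * u

/-- JOB DUAL. Duality.
Proof (from `S_POW`).  Write `A_p = (Alg f ℚ_p)^*`; `U_p ⊆ A_p` the subgroup of the `u` with `IsUnitAt` (`h(θ)` with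
`h ∈ ℤ_p[X]` form a ring), and `H_p = ℚ_p^* A_p^q` if `p ∣ B`, `H_p = ℚ_p^* A_p^q U_p` if `p ∤ B`.  Let `J` be the group
of the families `(u_p) ∈ ∏ A_p` with `u_p ∈ H_p` for all but finitely many `p`, and `N ⊆ J` the subgroup of the
products `δ h`, where `δ = g(θ)` (`g ∈ ℚ[X]` prime to `f`; its image in almost all `A_p` lies in `U_p`: `g` and a
`g'` with `g g' ≡ 1 mod f` have `p`-integral coefficients) and `h ∈ ∏ H_p`.  `J/N` is an abelian group killed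
by `q`, i.e. a vector space over `ℤ/q`.  By hypothesis `a ∈ J`.  Suppose `a ∉ N`: there is a homomorphism
`φ : J → ℤ/q`, trivial on `N`, with `φ(a) ≠ 0`.  Let `χ_p` be its restriction to `A_p ⊆ J` (`Pi.mulSingle`).  For
`u ∈ J` with `u_p ∈ H_p` outside a finite set `T`, `φ(u) = ∑_{p ∈ T} χ_p(u_p)`, which is the finprod (`χ_p` is
trivial on `H_p`).  So `χ` is an `IdeleCharacter`: `cont` by `S_POW` (`χ_p` is trivial on `q`-th powers), `unr` with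
`B`, `rat`, `glob` (`φ` is trivial on `N`; if `u` is a family as in `glob`, all `u_p` are invertible, so `g` is prime to
`f`), and `∏ χ_p(a_p) ≠ 1`, in contradiction to the hypothesis.  So `a = δ h`, which is the claim. -/
def S_DUAL : Prop := ∀ (f : ℤ[X]), Irreducible (f.map (Int.castRingHom ℚ)) → ∀ (q : ℕ), q.Prime →
  ∀ (a : ∀ p : Nat.Primes, (Alg f ℚ_[(p : ℕ)])ˣ) (B1 B : ℕ), B1 ≠ 0 → B ≠ 0 →
  (∀ p : Nat.Primes, ¬ (p : ℕ) ∣ B1 → ∃ (c : (ℚ_[(p : ℕ)])ˣ) (g u : (Alg f ℚ_[(p : ℕ)])ˣ),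
    IsUnitAt f (p : ℕ) u ∧
    a p = Units.map (algebraMap ℚ_[(p : ℕ)] (Alg f ℚ_[(p : ℕ)])).toMonoidHom c * g ^ q * u) →
  (∀ χ : IdeleCharacter f q, ∏ᶠ p : Nat.Primes, χ.loc p (a p) = 1) →
  ∃ d : ℚ[X], IsCoprime (f.map (Int.castRingHom ℚ)) d ∧
    ∀ p : Nat.Primes, ∃ (c : (ℚ_[(p : ℕ)])ˣ) (g u : (Alg f ℚ_[(p : ℕ)])ˣ),
      (¬ (p : ℕ) ∣ B → IsUnitAt f (p : ℕ) u) ∧ ((p : ℕ) ∣ B → u = 1) ∧
      (a p : Alg f ℚ_[(p : ℕ)]) = cl f ℚ_[(p : ℕ)] (d.map (Rat.castHom ℚ_[(p : ℕ)])) *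
        (Units.map (algebraMap ℚ_[(p : ℕ)] (Alg f ℚ_[(p : ℕ)])).toMonoidHom c * g ^ q * u :
          (Alg f ℚ_[(p : ℕ)])ˣ)

/-- JOB COVQ. Values give points of coverings (compare `S_VC` of project EB, proved there).
Proof.  `f` is separable over `ℚ_p`.  Let `f1 = gcd(f, x - w X)`, `f = f1 f2`, `f1, f2` coprime; `x - w X` is coprime
to `f2`, so `f2 ∣ a - (x - w X)` for a polynomial `a` representing the value.  The value is
`d c g^q h` (classes), `h` representing `u`, `h'` representing `u⁻¹`, in `ℤ_p[X]`.  Chinese remainder theorem: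
`g1 ≡ 0 mod f1`, `g1 ≡ g mod f2`; then `x - w X ≡ d c g1^q h` modulo `f1` and modulo `f2`.  Divide by `c`:
`(x/c) - (w/c) X ≡ d g1^q h mod f`. -/
def S_COVQ : Prop := ∀ (f : ℤ[X]), Irreducible (f.map (Int.castRingHom ℚ)) → ∀ (q m : ℕ) (D : ℤ),
  0 < q → ∀ (p : ℕ) [Fact p.Prime] (P : Point f m D ℚ_[p]) (a : (Alg f ℚ_[p])ˣ), IsValue q P a →
  ∀ (d : ℚ[X]) (c : (ℚ_[p])ˣ) (g u : (Alg f ℚ_[p])ˣ), IsUnitAt f p u →
  (a : Alg f ℚ_[p]) = cl f ℚ_[p] (d.map (Rat.castHom ℚ_[p])) *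
    (Units.map (algebraMap ℚ_[p] (Alg f ℚ_[p])).toMonoidHom c * g ^ q * u : (Alg f ℚ_[p])ˣ) →
  ∃ (x w : ℚ_[p]) (g1 : ℚ_[p][X]) (h h' : ℤ_[p][X]), (x ≠ 0 ∨ w ≠ 0) ∧
    f.map (Int.castRingHom ℚ_[p]) ∣ C x - C w * X -
      d.map (Rat.castHom ℚ_[p]) * g1 ^ q * h.map (algebraMap ℤ_[p] ℚ_[p]) ∧
    f.map (Int.castRingHom ℚ_[p]) ∣ (h * h').map (algebraMap ℤ_[p] ℚ_[p]) - 1 ∧ (u = 1 → h = 1)

/-- JOB APQ. Approximation by elements of `L` (compare `Pool.Agent.Q239.EL.ap` in `Q239/EL/AP.lean`, the case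
`q = 2`, `h = 1`).
Proof.  `x = l^k x0`, `w = l^k w0`, `x0, w0 ∈ ℤ_l`, one of them a unit; `k = e + q k'`, `0 ≤ e < q`; replace `g1` by
`l^(-k') g1`.  So `l^e (x0 - w0 X) - d g1^q h = f s` in `ℚ_l[X]`.  Approximate `x0, w0` by integers `x, w`,
`h, h'` by `H, H' ∈ ℤ[X]` (same degrees), and `g1, s` by `G, S ∈ ℚ[X]`: all coefficients of
`E = l^e (x - w X) - d G^q H - f S ∈ ℚ[X]` have `l`-adic norm `≤ l^(-K)` if the approximation is good enough.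
Evaluate at `θ`: `E(θ) = l^e (x - w θ) - d(θ) G(θ)^q H(θ)`, and `θ` is integral at the primes above `l` (`lc θ` is
integral, `l ∤ lc`), so `v(E(θ)) ≤ exp (-K)`.  Similarly `f s' = h h' - 1` (`s' ∈ ℤ_l[X]` as `lc` is a unit, or
`ℚ_l[X]`) gives `v(H(θ) H'(θ) - 1) < 1` for a good approximation, and `H(θ), H'(θ)` are integral at `v`, so
`v(H(θ)) = 1`; `η = H(θ)`.  If `h = 1` take `H = 1`. -/
def S_APQ : Prop := ∀ (f : ℤ[X]) (L : Type) [Field L] [NumberField L] (θ : L), Setup f L θ →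
  ∀ q : ℕ, 0 < q → ∀ (l : ℕ) [Fact l.Prime], ¬ (l : ℤ) ∣ f.leadingCoeff → ∀ (d : ℚ[X])
  (x w : ℚ_[l]) (g1 : ℚ_[l][X]) (h h' : ℤ_[l][X]), (x ≠ 0 ∨ w ≠ 0) →
  f.map (Int.castRingHom ℚ_[l]) ∣ C x - C w * X -
      d.map (Rat.castHom ℚ_[l]) * g1 ^ q * h.map (algebraMap ℤ_[l] ℚ_[l]) →
  f.map (Int.castRingHom ℚ_[l]) ∣ (h * h').map (algebraMap ℤ_[l] ℚ_[l]) - 1 → ∀ K : ℕ,
  ∃ η : L, (∀ v : HeightOneSpectrum (𝓞 L), Abv v l → v.valuation L η = 1) ∧ (h = 1 → η = 1) ∧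
    Near q l θ (aeval θ d) η K

/-- JOB NVAL. The valuation of the norm.
Proof.  Norms in `lc N(a) = D z^q`, `a = d(θ) c g^q u`: `N(c) = c^n`, `q ∣ n`; `N(d(θ))` over `ℚ_p` is the one over `ℚ`
(`S_BC` of project EB, proved: `Pool.Agent.Q247.EB.bc f hf ℚ_[p] d`, first component); for `p ∤ lc` the element
`u` and its inverse lie in `ℤ_p[θ]`, free over `ℤ_p` with basis `1, .., θ^(n-1)`, so `N(u)`, `N(u)⁻¹ ∈ ℤ_p`, and
`v_p(N(u)) = 0`; if `u = 1` this is clear.  (`z ≠ 0` as `a` is invertible, `D ≠ 0`.) -/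
def S_NVAL : Prop := ∀ (f : ℤ[X]), Irreducible (f.map (Int.castRingHom ℚ)) → ∀ (q : ℕ) (D : ℤ),
  q.Prime → q ∣ f.natDegree → D ≠ 0 → ∀ (p : ℕ) [Fact p.Prime] (a : (Alg f ℚ_[p])ˣ) (z : ℚ_[p]),
  (f.leadingCoeff : ℚ_[p]) * Algebra.norm ℚ_[p] (a : Alg f ℚ_[p]) = D * z ^ q →
  ∀ (d : ℚ[X]) (c : (ℚ_[p])ˣ) (g u : (Alg f ℚ_[p])ˣ),
  (¬ (p : ℤ) ∣ f.leadingCoeff ∧ IsUnitAt f p u) ∨ u = 1 →
  (a : Alg f ℚ_[p]) = cl f ℚ_[p] (d.map (Rat.castHom ℚ_[p])) *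
    (Units.map (algebraMap ℚ_[p] (Alg f ℚ_[p])).toMonoidHom c * g ^ q * u : (Alg f ℚ_[p])ˣ) →
  (q : ℤ) ∣ padicValRat p ((f.leadingCoeff : ℚ) *
    Algebra.norm ℚ (AdjoinRoot.mk (f.map (Int.castRingHom ℚ)) d)) - padicValInt p D

/-- GOAL: the upper bound. -/
def S_UPQ : Prop := ∀ (f : ℤ[X]) (q m : ℕ), Irreducible (f.map (Int.castRingHom ℚ)) → q.Prime → q ≠ 2 →
  q ∣ m → m ∣ f.natDegree → RootsOfUnityCondition f q →
  ∃ K C2 C3 c : ℝ, 1 ≤ K ∧ 0 ≤ C2 ∧ 0 < c ∧ ∀ X : ℝ, 3 ≤ X →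
    (count (fun D => ∃ P : AdelicPoint f m D, Orthogonal q P) X : ℝ) ≤
      C2 * (K * X ^ ((1 : ℝ) / f.natDegree)) ^ f.natDegree *
      Real.exp (Gf f (K * X ^ ((1 : ℝ) / f.natDegree)) + C3) *
      Real.log (K * X ^ ((1 : ℝ) / f.natDegree)) ^ (-(1 + c))

end Pool.Agent.Q51.SE
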